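/-!
# Checks for the rows of `U(u, 2 m)`, evaluated by the kernel

A row is a natural number, bit `c` is column `c`; `q = 2 m + 2`.  A refutation is a list of learned
clauses with hints; a state or a clause is a number with two planes: bit `i < W` says that cell `i`
is one, bit `W + i` says that cell `i` is zero.
-/

set_option autoImplicit false

namespace Pool.Agent.H65.CF

/-! ## Refutations -/

/-- The store of the clauses. -/
inductive Tr where
  | e : Tr
  | n : Nat → Tr → Tr → Tr → Tr → Tr

/-- Look up entry `i ≥ 1` and continue with it. -/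
noncomputable def look : Tr → Nat → (Nat → Bool) → Bool :=
  Tr.rec (motive := fun _ => Nat → (Nat → Bool) → Bool) (fun _ _ => false)
    (fun L _ _ _ _ i0 i1 i2 i3 i k =>
      Bool.rec (motive := fun _ => Bool)
        (Nat.rec (motive := fun _ => Bool) (i0 (Nat.shiftRight i 2) k)
          (fun a _ => Nat.rec (motive := fun _ => Bool) (i1 (Nat.shiftRight i 2) k)
            (fun b _ => Nat.rec (motive := fun _ => Bool) (i2 (Nat.shiftRight i 2) k)
              (fun _ _ => i3 (Nat.shiftRight i 2) k) b) a) (Nat.land i 3))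
        (k L) (Nat.ble i 1))

/-- Store `L` as entry `i ≥ 1` and continue with the new store. -/
noncomputable def ins (L : Nat) : Tr → Nat → (Tr → Bool) → Bool :=
  Tr.rec (motive := fun _ => Nat → (Tr → Bool) → Bool) (fun _ k => k (Tr.n L Tr.e Tr.e Tr.e Tr.e))
    (fun L0 c0 c1 c2 c3 i0 i1 i2 i3 i k =>
      Bool.rec (motive := fun _ => Bool)
        (Nat.rec (motive := fun _ => Bool)
          (i0 (Nat.shiftRight i 2) (fun c => k (Tr.n L0 c c1 c2 c3)))
          (fun a _ => Nat.rec (motive := fun _ => Bool)
            (i1 (Nat.shiftRight i 2) (fun c => k (Tr.n L0 c0 c c2 c3)))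
            (fun b _ => Nat.rec (motive := fun _ => Bool)
              (i2 (Nat.shiftRight i 2) (fun c => k (Tr.n L0 c0 c1 c c3)))
              (fun _ _ => i3 (Nat.shiftRight i 2) (fun c => k (Tr.n L0 c0 c1 c2 c))) b) a)
          (Nat.land i 3))
        (k (Tr.n L c0 c1 c2 c3)) (Nat.ble i 1))

/-- The cells of a set of inputs: bit `i` with `1 ≤ i ≤ m + 1` becomes `C + i - 1`, bit `q` stays. -/
noncomputable def wide (C q U : Nat) : Nat :=
  Nat.lor (Nat.land U (Nat.shiftLeft 1 q))
    (Nat.shiftLeft (Nat.land U (Nat.sub (Nat.shiftLeft 1 q) 1)) (Nat.sub C 1))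

/-- The consequence of the rule at cell `0`: `H` has the known ones (bit `0` the cell, bits `M` the
inputs) and, shifted by `20`, the known zeros. -/
noncomputable def g (q C W M H : Nat) : Nat :=
  (fun A B : Nat =>
    (fun U : Nat =>
      Bool.rec (motive := fun _ => Nat)
        (Nat.shiftLeft 1 W)
        (Bool.rec (motive := fun _ => Nat)
          (Bool.rec (motive := fun _ => Nat)
            (Bool.rec (motive := fun _ => Nat)
              0
              (Bool.rec (motive := fun _ => Nat)
                0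
                (Bool.rec (motive := fun _ => Nat)
                  (wide C q U) (Nat.shiftLeft (wide C q U) W) (Nat.beq A 0))
                (Nat.beq (Nat.land U (Nat.sub U 1)) 0))
              (Nat.beq (Nat.land (Nat.shiftRight H 20) 1) 1))
            (Bool.rec (motive := fun _ => Nat)
              (Nat.shiftLeft (wide C q U) W)
              (Bool.rec (motive := fun _ => Nat)
                0 (wide C q U) (Nat.beq (Nat.land U (Nat.sub U 1)) 0))
              (Nat.beq A 0))
            (Nat.beq (Nat.land H 1) 1))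
          (Bool.rec (motive := fun _ => Nat) 1 (Nat.shiftLeft 1 W) (Nat.beq A 0))
          (Nat.beq U 0))
        (Nat.beq (Nat.land A (Nat.sub A 1)) 0))
      (Nat.xor M (Nat.lor A B)))
    (Nat.land H M) (Nat.land (Nat.shiftRight H 20) M)

/-- Use of the rule at cell `p` (if `p` is a bit of `V`). -/
noncomputable def rl (q C W M MM Q V S p : Nat) (k : Nat → Bool) : Bool :=
  Bool.rec (motive := fun _ => Bool)
    (k S)
    (Nat.rec (motive := fun _ => Bool)
      (k S)
      (fun H _ => k (Nat.lor S (Nat.shiftLeft (g q C W M (Nat.succ H)) p)))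
      (Nat.mod (Nat.land (Nat.shiftRight S p) MM) Q))
    (Nat.beq (Nat.land (Nat.shiftRight V p) 1) 1)

/-- Use of the clause `L`: not all bits of `L` hold. -/
noncomputable def clau (W L S : Nat) (k : Nat → Bool) : Bool :=
  (fun R : Nat =>
    Bool.rec (motive := fun _ => Bool)
      (Bool.rec (motive := fun _ => Bool)
        (k S)
        (Bool.rec (motive := fun _ => Bool)
          (k (Nat.lor S (Nat.shiftLeft R W)))
          (k (Nat.lor S (Nat.shiftRight R W)))
          (Nat.ble (Nat.shiftLeft 1 W) R))
        (Nat.beq (Nat.land R (Nat.sub R 1)) 0))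
      true
      (Nat.beq R 0))
    (Nat.xor L (Nat.land L S))

/-- The hints: digits of `x` in base `2 ^ 16`; `2 p` is the rule at `p`, `2 i + 1` is clause `i`. -/
noncomputable def hints (q C W M MM Q V : Nat) (T : Tr) : Nat → Nat → Nat → Bool :=
  Nat.rec (motive := fun _ => Nat → Nat → Bool)
    (fun _ S => Bool.rec (motive := fun _ => Bool) true false
      (Nat.beq (Nat.mod (Nat.land S (Nat.shiftRight S W)) (Nat.shiftLeft 1 W)) 0))
    (fun _ ih x S =>
      Bool.rec (motive := fun _ => Bool)
        (look T (Nat.land (Nat.shiftRight x 1) 32767)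
          fun L => clau W L S fun S' => ih (Nat.shiftRight x 16) S')
        (Nat.rec (motive := fun _ => Bool)
          (ih (Nat.shiftRight x 16) S)
          (fun p _ => rl q C W M MM Q V S (Nat.succ p) fun S' => ih (Nat.shiftRight x 16) S')
          (Nat.land (Nat.shiftRight x 1) 32767))
        (Nat.beq (Nat.land x 1) 0))

/-- The literals: digits of `x` in base `2 ^ 16`. -/
noncomputable def lits (k : Nat → Nat → Bool) : Nat → Nat → Nat → Bool :=
  Nat.rec (motive := fun _ => Nat → Nat → Bool)
    (fun x L => k x L)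
    (fun _ ih x L =>
      ih (Nat.shiftRight x 16) (Nat.lor L (Nat.shiftLeft 1 (Nat.land x 65535))))

/-- The steps, digits in base `2 ^ 16`: number of literals, number of hints, entry in the store,
literals, hints. -/
noncomputable def steps (q C W M MM Q V : Nat) (k : Tr → Nat → Bool) :
    Nat → Nat → Tr → Nat → Bool :=
  Nat.rec (motive := fun _ => Nat → Tr → Nat → Bool)
    (fun _ T S => k T S)
    (fun _ ih s T S =>
      (fun nl nh : Nat =>
        (fun len : Nat =>
          lits (fun x L =>
            Bool.rec (motive := fun _ => Bool)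
              false
              (Bool.rec (motive := fun _ => Bool)
                (ins L T (Nat.land (Nat.shiftRight s 32) 65535) fun T' =>
                  ih (Nat.shiftRight s (Nat.add 48 len)) T' S)
                (clau W L S fun S' => ih (Nat.shiftRight s (Nat.add 48 len)) T S')
                (Nat.ble nl 1))
              (hints q C W M MM Q V T nh x (Nat.lor S L)))
            nl (Nat.land (Nat.shiftRight s 48) (Nat.sub (Nat.shiftLeft 1 len) 1)) 0)
          (Nat.shiftLeft (Nat.add nl nh) 4))
        (Nat.land s 65535) (Nat.land (Nat.shiftRight s 16) 65535))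

/-- The chunks: number of steps, then the steps. -/
noncomputable def chunks (q C W M MM Q V : Nat) : List Nat → Tr → Nat → Bool :=
  List.rec (motive := fun _ => Tr → Nat → Bool)
    (fun _ _ => false)
    (fun s _ ih T S =>
      steps q C W M MM Q V (fun T' S' => ih T' S') (Nat.land s 65535) (Nat.shiftRight s 16) T S)

/-- The set of the inputs: bits `1, …, m + 1` and `2 m + 2`. -/
def mIn (m : Nat) : Nat :=
  Nat.lor (Nat.shiftLeft (Nat.sub (Nat.shiftLeft 1 (m + 1)) 1) 1) (Nat.shiftLeft 1 (2 * m + 2))

/-- The cell `0` and its inputs. -/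
def mWide (m C : Nat) : Nat :=
  Nat.lor 1 (Nat.lor (Nat.shiftLeft (Nat.sub (Nat.shiftLeft 1 (m + 1)) 1) C)
    (Nat.shiftLeft 1 (2 * m + 2)))

/-- The cells whose rule stays in the first `n + 1` rows of `C` columns. -/
def mVal (m C : Nat) : Nat → Nat
  | 0 => 0
  | n + 1 => Nat.lor (Nat.shiftLeft (mVal m C n) C) (Nat.sub (Nat.shiftLeft 1 (C - (2 * m + 2))) 1)

/-- The parameters of a refutation with `n + 1` rows of `C` columns. -/
def parOk (m C n W M MM Q V : Nat) : Bool :=
  Nat.ble 1 m && Nat.ble m 8 && Nat.ble (2 * m + 3) C && Nat.beq (C % 61) 1 && Nat.beq (W % 61) 20 &&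
  Nat.ble ((n + 1) * C) W && Nat.beq Q (2 ^ 61 - 1) && Nat.beq M (mIn m) &&
  Nat.beq MM (Nat.lor (mWide m C) (Nat.shiftLeft (mWide m C) W)) && Nat.beq V (mVal m C n)

/-! ## Rows -/

/-- At least one, at least two. -/
def add2 (p : Nat × Nat) (w : Nat) : Nat × Nat := (Nat.lor p.1 w, Nat.lor p.2 (Nat.land p.1 w))

/-- Bit `a`. -/
def tb (A a : Nat) : Bool := Nat.beq (Nat.land (Nat.shiftRight A a) 1) 1

def sacc (A : Nat) : Nat → Nat × Nat
  | 0 => (0, 0)
  | j + 1 => add2 (sacc A j) (Nat.shiftLeft A j)

/-- The row after `A`, with `N` columns, if it is `B`. -/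
def stp (m N A B : Nat) : Nat :=
  (fun p : Nat × Nat => Nat.mod (Nat.xor p.1 p.2) (Nat.shiftLeft 1 N))
    (add2 (sacc A (m + 1)) (Nat.shiftLeft B (2 * m + 2)))

def chain (m N : Nat) : Nat → List Nat → Bool
  | _, [] => true
  | A, B :: l => Nat.beq (stp m N A B) B && chain m N B l

/-- The last element. -/
def lst : Nat → List Nat → Nat
  | A, [] => A
  | _, B :: l => lst B l

/-- The rows follow the rule. -/
def rowsOk (m N : Nat) : List Nat → Bool
  | [] => false
  | A :: l => Nat.beq (Nat.add (stp m N (Nat.shiftLeft (lst A l) m) A) 1) A && chain m N A l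

/-- Equality of lists. -/
def leq : List Nat → List Nat → Bool
  | [], [] => true
  | a :: l, b :: r => Nat.beq a b && leq l r
  | _, _ => false

/-- The last `d + 8` rows have period `8`. -/
def perOk (d : Nat) (L : List Nat) : Bool :=
  Nat.ble (d + 8) L.length && leq (L.drop (L.length - d)) ((L.drop (L.length - d - 8)).take d)

/-! ## Down -/

/-- At least one, at least two, over the first `k` blocks of `w` bits. -/
def blk (w : Nat) : Nat → Nat → Nat × Nat
  | 0, _ => (0, 0)
  | k + 1, v => add2 (blk w k (Nat.shiftRight v w)) (Nat.mod v (Nat.shiftLeft 1 w))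

/-- The columns `[a, b)` of `A`, at their residue modulo `w`. -/
def seg (w a b A : Nat) : Nat :=
  Nat.shiftLeft (Nat.mod (Nat.shiftRight A a) (Nat.shiftLeft 1 (b - a))) (a % w)

/-- The residues modulo `w` of the columns in `[a, b)`, `b ≤ n`: at least one, at least two. -/
def res (w n a b A : Nat) : Nat × Nat := blk w (n / w + 2) (seg w a b A)

/-- The cyclic windows of `j` places. -/
def win (q s : Nat) : Nat → Nat × Nat
  | 0 => (0, 0)
  | j + 1 => add2 (win q s j)
      (Nat.mod (Nat.shiftRight (Nat.lor s (Nat.shiftLeft s q)) j) (Nat.shiftLeft 1 q))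

def two (x : Nat) : Bool := !(Nat.beq (Nat.land x (Nat.sub x 1)) 0)

/-- The pattern `s` of a row pays at least two. -/
def pays (m h1 b1 b2 s : Nat) : Bool :=
  Nat.beq s 0 || two (Nat.land s h1) ||
  (fun p : Nat × Nat =>
    (fun e : Nat =>
      (!(Nat.beq (Nat.land s h1) 0) && !(Nat.beq (Nat.land e b1) 0)) || two (Nat.land e b1) ||
        !(Nat.beq (Nat.land e b2) 0)) (Nat.xor p.1 p.2)) (win (2 * m + 2) s (m + 1))

/-- All subsets of `low` with `s` above place `i`. -/
def subs (f : Nat → Bool) (low : Nat) : Nat → Nat → Bool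
  | 0, s => f s
  | i + 1, s => subs f low i s &&
      (bif tb low i then subs f low i (Nat.lor s (Nat.shiftLeft 1 i)) else true)

/-- `A` is a row, `B` the row before it; the unknown row has period `2 m + 2` on `[a, b)`, and the
unknown row before it follows the rule on `[a, b')`. -/
def down (m n a b b' A B : Nat) : Bool :=
  (fun h : Nat × Nat =>
    (fun low : Nat => Nat.beq low 0 ||
      (fun k : Nat × Nat =>
        subs (pays m h.1
            (Nat.mod (Nat.land k.1 (Nat.shiftRight k.1 (2 * m + 2))) (Nat.shiftLeft 1 (2 * m + 2)))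
            (Nat.mod (Nat.land k.2 (Nat.shiftRight k.2 (2 * m + 2))) (Nat.shiftLeft 1 (2 * m + 2))))
          low (2 * m + 2) 0)
        (res (4 * m + 4) n a b' B))
      (Nat.xor (Nat.sub (Nat.shiftLeft 1 (2 * m + 2)) 1) h.2))
    (res (2 * m + 2) n a b A)

/-- The rows before `A`, from the range `[a, b)` on, growing up to `n`. -/
def downs (m n a : Nat) : Nat → Nat → List Nat → Bool
  | _, _, [] => true
  | A, b, B :: l => down m n a (min b n) (min (b + m + 2) n) A B && downs m n a B (b + m + 2) l

/-- The rows below row `r`, down to row `r - u - 1` (`u` the number of the rows). -/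
def below (m r : Nat) (L : List Nat) : List Nat :=
  (L.take r).reverse ++ (((L.drop r).reverse ++ (L.take r).reverse.take 1).map
    fun A => Nat.shiftLeft A m)

/-- Row `r` is empty on `[a, b)`: then all rows are. -/
def downOk (m n a b r : Nat) (L : List Nat) : Bool :=
  match below m r L with
  | [] => false
  | A :: l => downs m n a A (b + m + 2) l

/-- The cells of `Z` (rows of `C` columns) are ones of the rows, from column `cc` on. -/
def winOk (C cc : Nat) : Nat → Nat → List Nat → Bool
  | 0, Z, _ => Nat.beq Z 0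
  | _ + 1, _, [] => false
  | T + 1, Z, A :: l =>
    (fun z : Nat => Nat.beq (Nat.land z (Nat.shiftRight A cc)) z) (Nat.mod Z (Nat.shiftLeft 1 C)) &&
      winOk C cc T (Nat.shiftRight Z C) l

/-! ## Pairs -/

/-- Pairs with first column `< J`: row `A`, partner row `B`. -/
def cva (A B : Nat) : Nat → Nat × Nat → Nat × Nat
  | 0, p => p
  | a + 1, p => cva A B a (bif tb A a then add2 p (Nat.shiftLeft B a) else p)

/-- Pairs of the rows of two lists. -/
def cvt (J : Nat) : List Nat → List Nat → Nat × Nat → Nat × Nat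
  | A :: l, B :: r, p => cvt J l r (cva A B J p)
  | _, _, p => p

/-- All bits below `N`. -/
def full (N x : Nat) : Bool := Nat.beq (Nat.mod x (Nat.shiftLeft 1 N) + 1) (Nat.shiftLeft 1 N)

/-- The late rows: row `t ≥ 2 sm - 1` has two pairs with an entry in the rows `P`. -/
def late (J N sm : Nat) (P : List Nat) : Nat → List Nat → List Nat → Bool
  | _, _, [] => true
  | t, r, A :: l => (Nat.ble (t + 2) (2 * sm) || full N (cvt J P (A :: r) (0, 0)).2) &&
      late J N sm P (t + 1) (A :: r) l

/-- The same list; the terms for its entries have different hashes. -/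
def tagl : Nat → List Nat → List Nat
  | _, [] => []
  | i, A :: l => Nat.lor A (Nat.shiftLeft 0 i) :: tagl (i + 1) l

/-- Pairs in the same row. -/
def dia (A : Nat) : Nat → Nat × Nat → Nat × Nat
  | 0, p => p
  | a + 1, p => dia A a (bif tb A a then
      add2 p (Nat.shiftLeft (Nat.shiftRight A (a + 1)) (2 * a + 1)) else p)

/-- All pairs for row `t` without the seam. -/
def inner (N t : Nat) (L : List Nat) : Nat × Nat :=
  cvt N (L.take ((t + 1) / 2)) (L.take (t + 1)).reverse
    (bif Nat.beq (t % 2) 0 then dia (L.getD (t / 2) 0) N (0, 0) else (0, 0))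

/-- Some pairs over the seam. -/
def outer (m J w t : Nat) (L : List Nat) (p : Nat × Nat) : Nat × Nat :=
  cvt J ((L.drop (t + 1)).take w) ((L.reverse.take w).map fun A => Nat.shiftLeft A m) p

/-- Columns of row `t` without pairs, and the exceptions. -/
def exc (m t o : Nat) : Nat :=
  bif Nat.beq t 1 then Nat.sub (Nat.shiftLeft 1 m) 1 else
  bif Nat.beq t 2 then (bif tb o (2 * m + 1) then 7 else Nat.lor 7 (Nat.shiftLeft 1 (2 * m + 1)))
  else
    Nat.lor (Nat.xor (Nat.sub (Nat.shiftLeft 1 m) 1) (Nat.mod o (Nat.shiftLeft 1 m)))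
      (bif Nat.beq t 0 then Nat.shiftLeft 1 (2 * m + 1) else 0)

/-- The early rows `t < n`. -/
def early (m N J w : Nat) (L : List Nat) : Nat → Bool
  | 0 => true
  | t + 1 => (fun p : Nat × Nat =>
      full N (Nat.lor (outer m J w t L p).2 (exc m t p.1))) (inner N t L) && early m N J w L t

/-- Parity of the first columns, from row `t` on. -/
def parity (m : Nat) : Bool → List Nat → Bool
  | _, [] => true
  | b, A :: l => (bif b then !(tb A (m + 1)) else Nat.beq (Nat.mod A (Nat.shiftLeft 1 (m + 2))) 1) &&
      parity m (!b) l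

/-- The special pairs. -/
def spec (m : Nat) : List Nat → Bool
  | A0 :: A1 :: A2 :: l => Nat.beq (Nat.mod A0 (Nat.shiftLeft 1 m)) 1 && tb A0 m && tb A0 (m + 1) &&
      !(tb A0 (2 * m + 1)) &&
      Nat.beq (Nat.mod A1 (Nat.shiftLeft 1 m)) (Nat.sub (Nat.shiftLeft 1 m) 1) &&
      parity m true (A1 :: A2 :: l)
  | _ => false

/-- All pairs. -/
def pairsOk (m N J J' sm w : Nat) (L : List Nat) : Bool :=
  Nat.ble 1 sm && Nat.ble (2 * sm + 2 * w + 1) L.length && Nat.ble (2 * m + 2) N && spec m L &&
  early m N J' w L (2 * sm - 1) && late J N sm (L.take sm) 0 [] (tagl 0 L)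

/-! ## Windows -/

/-- The data of a window: rows `t0, …, t0 + T`, columns `cc, …, cc + C - 1`, ones `Z`, and row
`t0 + r` with its columns `[a, b)`. -/
structure W where
  t0 : Nat
  cc : Nat
  C : Nat
  T : Nat
  Z : Nat
  r : Nat
  a : Nat
  b : Nat

/-- The window fits to the rows. -/
def wOk (m n M d : Nat) (per : Bool) (L : List Nat) (w : W) : Bool :=
  Nat.ble (w.t0 + w.T + 1) L.length && Nat.ble (2 * m + 3) w.C && Nat.ble (w.cc + w.C) M &&
  Nat.ble w.r w.T && Nat.ble 1 (w.t0 + w.r) && Nat.ble w.cc w.a && Nat.ble w.b (w.cc + w.C) &&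
  Nat.ble (w.a + m + (2 * m + 2)) w.b && Nat.ble w.b n &&
  winOk w.C w.cc (w.T + 1) w.Z (L.drop w.t0) && downOk m n w.a w.b (w.t0 + w.r) L &&
  (bif per then Nat.ble n (w.b + (m + 2) * (w.t0 + w.r + d)) &&
    Nat.ble (w.t0 + w.r + d + 8) L.length else true)

/-- The cells of `Z` in row `t`. -/
def zrow (w : W) (t : Nat) : Nat :=
  bif Nat.ble w.t0 t && Nat.ble t (w.t0 + w.T) then
    Nat.shiftLeft (Nat.mod (Nat.shiftRight w.Z ((t - w.t0) * w.C)) (Nat.shiftLeft 1 w.C)) w.cc
  else 0

/-- No common cell in the rows before row `t`. -/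
def zdisj (w v : W) : Nat → Bool
  | 0 => true
  | t + 1 => Nat.beq (Nat.land (zrow w t) (zrow v t)) 0 && zdisj w v t

/-- The windows have no cell of the two `Z` in common. -/
def disj (w v : W) : Bool :=
  Nat.ble (w.t0 + w.T + 1) v.t0 || Nat.ble (v.t0 + v.T + 1) w.t0 ||
  Nat.ble (w.cc + w.C) v.cc || Nat.ble (v.cc + v.C) w.cc || zdisj w v (w.t0 + w.T + 1)

/-- All checks for the rows `L` and two windows. -/
def allOk (m n M N J J' sm w d : Nat) (per : Bool) (w1 w2 : W) (L : List Nat) : Bool :=
  rowsOk m N L && pairsOk m N J J' sm w L && Nat.ble J N && Nat.ble J' N && Nat.ble (2 * sm) d &&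
  Nat.ble w d && Nat.ble n M && Nat.ble (2 * (m + M)) N && wOk m n M d per L w1 &&
  wOk m n M d per L w2 && disj w1 w2 && (bif per then perOk d L else true)

end Pool.Agent.H65.CF
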