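import Mathlib
import Pool.Agent.H65.CE.Defs
import Pool.Agent.H65.CF.Core

/-!
# Two notions used by several files
-/

set_option autoImplicit false

namespace Pool.Agent.H65.CF

/-- Cell `p` of the unknown rows (stored with `C` columns) follows the rule. -/
def Rule (m C : ℕ) (y : ℕ → Bool) (p : ℕ) : Prop :=
  y p = true ↔
    (∑ j ∈ Finset.range (m + 1), (y (p + C + j)).toNat) + (y (p + (2 * m + 2))).toNat = 1

/-- The rows `R` (functions of all `t < u`) agree with the list `L` up to a shift by a multiple of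
the period, with `d` rows before. -/
structure Red (u d : ℕ) (L : List ℕ) (R : ℕ → ℕ) : Prop where
  len : L.length ≤ u
  start : ∀ t, t < L.length → R t = L.getD t 0
  stop : ∀ i, 1 ≤ i → i ≤ d → R (u - i) = L.getD (L.length - i) 0
  red : ∀ t, t < u → ∃ t', t' < L.length ∧ (t' = t ∨ (d ≤ t' ∧ t' < t)) ∧ t' % 2 = t % 2 ∧
    ∀ s, s ≤ d → s ≤ t → R (t - s) = L.getD (t' - s) 0

end Pool.Agent.H65.CF
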