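import Mathlib
import Pool.Agent.H65.CF.Core

/-!
# Soundness of one step down (job CF-2)
-/

set_option autoImplicit false

namespace Pool.Agent.H65.CF

namespace Dw

/-! ## Bits -/

theorem tb_eq (X a : ℕ) : tb X a = X.testBit a := by
  unfold tb
  rw [Bool.eq_iff_iff, Nat.beq_eq]
  show (X >>> a) &&& 1 = 1 ↔ _
  rw [Nat.and_one_is_mod, Nat.shiftRight_eq_div_pow, Nat.testBit_eq_decide_div_mod_eq,
    decide_eq_true_iff]

/-- A number with given bits. -/
theorem exists_mask (f : ℕ → Bool) : ∀ n : ℕ, ∃ s : ℕ, ∀ r, s.testBit r = (decide (r < n) && f r)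
  | 0 => ⟨0, fun r => by simp⟩
  | n + 1 => by
    obtain ⟨s, hs⟩ := exists_mask f n
    refine ⟨s ||| (if f n then 2 ^ n else 0), fun r => ?_⟩
    rw [Nat.testBit_or, hs]
    rcases lt_trichotomy r n with h | h | h
    · have h2 : r < n + 1 := by omega
      have h3 : (if f n then 2 ^ n else 0 : ℕ).testBit r = false := by
        split
        · rw [Nat.testBit_two_pow]
          simp
          omega
        · simp
      simp [h, h2, h3]
    · subst h
      cases hf : f r <;> simp
    · have h2 : ¬ r < n + 1 := by omega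
      have h4 : ¬ r < n := by omega
      have h3 : (if f n then 2 ^ n else 0 : ℕ).testBit r = false := by
        split
        · rw [Nat.testBit_two_pow]
          simp
          omega
        · simp
      simp [h4, h2, h3]

theorem exists_bit {x : ℕ} (h : x ≠ 0) : ∃ r, x.testBit r = true := by
  by_contra h2
  push Not at h2
  apply h
  apply Nat.eq_of_testBit_eq
  intro i
  rw [Nat.zero_testBit]
  exact Bool.eq_false_iff.2 (h2 i)

theorem two_spec {x : ℕ} (h : two x = true) :
    ∃ r r' : ℕ, r ≠ r' ∧ x.testBit r = true ∧ x.testBit r' = true := by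
  by_contra h2
  push Not at h2
  have h3 : x &&& (x - 1) = 0 := by
    by_cases h0 : x = 0
    · subst h0
      rfl
    · obtain ⟨r, hr⟩ := exists_bit h0
      have e : x = 2 ^ r := by
        apply Nat.eq_of_testBit_eq
        intro i
        rw [Nat.testBit_two_pow]
        by_cases hi : r = i
        · subst hi
          simp [hr]
        · simp only [hi, decide_false]
          exact Bool.eq_false_iff.2 (h2 r i hi hr)
      rw [e]
      apply Nat.eq_of_testBit_eq
      intro i
      rw [Nat.testBit_and, Nat.testBit_two_pow, Nat.testBit_two_pow_sub_one, Nat.zero_testBit]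
      by_cases hi : r = i
      · subst hi
        simp
      · simp [hi]
  unfold two at h
  have e : Nat.land x (Nat.sub x 1) = x &&& (x - 1) := rfl
  rw [e, h3] at h
  exact absurd h (by decide)

/-! ## Blocks -/

theorem blk_spec (w : ℕ) : ∀ (k v r : ℕ),
    ((blk w k v).1.testBit r = true → r < w ∧ ∃ i, v.testBit (i * w + r) = true) ∧
    ((blk w k v).2.testBit r = true → r < w ∧ ∃ i j, i ≠ j ∧ v.testBit (i * w + r) = true ∧
      v.testBit (j * w + r) = true)
  | 0, v, r => by
    have e : blk w 0 v = (0, 0) := rfl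
    rw [e]
    simp
  | k + 1, v, r => by
    have ih := blk_spec w k (v >>> w) r
    have sh : ∀ i, (v >>> w).testBit (i * w + r) = v.testBit ((i + 1) * w + r) := by
      intro i
      rw [Nat.testBit_shiftRight]
      congr 1
      ring
    simp only [sh] at ih
    have e1 : (blk w (k + 1) v).1 = (blk w k (v >>> w)).1 ||| (v % (1 <<< w)) := rfl
    have e2 : (blk w (k + 1) v).2 =
      (blk w k (v >>> w)).2 ||| ((blk w k (v >>> w)).1 &&& (v % (1 <<< w))) := rfl
    rw [e1, e2, Nat.testBit_or, Nat.testBit_or, Nat.testBit_and, Nat.one_shiftLeft,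
      Nat.testBit_mod_two_pow]
    constructor
    · intro h
      rw [Bool.or_eq_true] at h
      rcases h with h | h
      · obtain ⟨h1, i, h2⟩ := ih.1 h
        exact ⟨h1, i + 1, h2⟩
      · rw [Bool.and_eq_true, decide_eq_true_iff] at h
        exact ⟨h.1, 0, by rw [zero_mul, zero_add]; exact h.2⟩
    · intro h
      rw [Bool.or_eq_true] at h
      rcases h with h | h
      · obtain ⟨h1, i, j, hij, h2, h3⟩ := ih.2 h
        exact ⟨h1, i + 1, j + 1, by omega, h2, h3⟩
      · rw [Bool.and_eq_true, Bool.and_eq_true, decide_eq_true_iff] at h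
        obtain ⟨h4, h5, h6⟩ := h
        obtain ⟨h1, i, h2⟩ := ih.1 h4
        exact ⟨h1, i + 1, 0, by omega, h2, by rw [zero_mul, zero_add]; exact h6⟩

theorem seg_spec {w a b A p : ℕ} (h : (seg w a b A).testBit p = true) :
    a % w ≤ p ∧ p - a % w < b - a ∧ A.testBit (p - a % w + a) = true := by
  have e : seg w a b A = (((A >>> a) % (1 <<< (b - a))) <<< (a % w)) := rfl
  rw [e, Nat.one_shiftLeft, Nat.testBit_shiftLeft, Nat.testBit_mod_two_pow,
    Nat.testBit_shiftRight] at h
  simp only [Bool.and_eq_true, decide_eq_true_iff] at h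
  obtain ⟨h1, h2, h3⟩ := h
  refine ⟨h1, h2, ?_⟩
  rw [add_comm]
  exact h3

theorem seg_col {w a b A i r : ℕ} (hr : r < w) (h : (seg w a b A).testBit (i * w + r) = true) :
    ∃ c, c + a % w = i * w + r + a ∧ a ≤ c ∧ c < b ∧ c % w = r ∧ A.testBit c = true := by
  obtain ⟨h1, h2, h3⟩ := seg_spec h
  refine ⟨i * w + r - a % w + a, by omega, by omega, by omega, ?_, h3⟩
  have e : (i * w + r - a % w + a) % w = (i * w + r - a % w + a % w) % w := by
    rw [Nat.add_mod, Nat.add_mod (i * w + r - a % w) (a % w), Nat.mod_mod]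
  rw [e, Nat.sub_add_cancel h1, Nat.add_comm, Nat.add_mul_mod_self_right, Nat.mod_eq_of_lt hr]

theorem res_one {w n a b A r : ℕ} (h : (res w n a b A).1.testBit r = true) :
    ∃ c, a ≤ c ∧ c < b ∧ c % w = r ∧ A.testBit c = true := by
  obtain ⟨hr, i, hi⟩ := (blk_spec w (n / w + 2) (seg w a b A) r).1 h
  obtain ⟨c, -, hc⟩ := seg_col hr hi
  exact ⟨c, hc⟩

theorem res_two {w n a b A r : ℕ} (h : (res w n a b A).2.testBit r = true) :
    ∃ c c', c ≠ c' ∧ (a ≤ c ∧ c < b ∧ c % w = r ∧ A.testBit c = true) ∧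
      (a ≤ c' ∧ c' < b ∧ c' % w = r ∧ A.testBit c' = true) := by
  obtain ⟨hr, i, j, hij, hi, hj⟩ := (blk_spec w (n / w + 2) (seg w a b A) r).2 h
  obtain ⟨c, ec, hc⟩ := seg_col hr hi
  obtain ⟨c', ec', hc'⟩ := seg_col hr hj
  refine ⟨c, c', ?_, hc, hc'⟩
  rintro rfl
  apply hij
  have h3 : i * w = j * w := by omega
  exact Nat.eq_of_mul_eq_mul_right (by omega) h3

/-! ## Subsets -/

theorem subs_spec (f : ℕ → Bool) (low : ℕ) : ∀ (i s : ℕ), subs f low i s = true →
    ∀ t : ℕ, (∀ r, t.testBit r = true → r < i ∧ low.testBit r = true) → f (s ||| t) = true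
  | 0, s, h, t, ht => by
    have h0 : t = 0 := by
      apply Nat.eq_of_testBit_eq
      intro r
      rw [Nat.zero_testBit]
      by_contra h2
      have h3 := (ht r (by simpa using h2)).1
      omega
    rw [h0, Nat.or_zero]
    exact h
  | i + 1, s, h, t, ht => by
    have e : subs f low (i + 1) s = (subs f low i s &&
      (bif tb low i then subs f low i (s ||| (1 <<< i)) else true)) := rfl
    rw [e, Bool.and_eq_true, tb_eq] at h
    obtain ⟨h1, h2⟩ := h
    by_cases hb : t.testBit i = true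
    · have hl := (ht i hb).2
      rw [hl, cond_true] at h2
      have h3 := subs_spec f low i _ h2 (t % 2 ^ i) (by
        intro r hr
        rw [Nat.testBit_mod_two_pow, Bool.and_eq_true, decide_eq_true_iff] at hr
        exact ⟨hr.1, (ht r hr.2).2⟩)
      have e2 : s ||| 1 <<< i ||| t % 2 ^ i = s ||| t := by
        apply Nat.eq_of_testBit_eq
        intro r
        rw [Nat.testBit_or, Nat.testBit_or, Nat.testBit_or, Nat.one_shiftLeft,
          Nat.testBit_two_pow, Nat.testBit_mod_two_pow]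
        by_cases hr : r = i
        · subst hr
          simp [hb]
        · have hr' : ¬ i = r := fun h => hr h.symm
          by_cases h4 : r < i
          · simp [h4, hr']
          · have h5 : t.testBit r = false := by
              by_contra h6
              have h7 := (ht r (by simpa using h6)).1
              omega
            simp [h5, hr']
      rw [e2] at h3
      exact h3
    · apply subs_spec f low i s h1 t
      intro r hr
      obtain ⟨h3, h4⟩ := ht r hr
      refine ⟨?_, h4⟩
      rcases Nat.lt_succ_iff_lt_or_eq.1 h3 with h5 | h5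
      · exact h5
      · subst h5
        exact absurd hr hb

/-! ## Windows -/

/-- The pair `p` records the bits with count at least one and at least two. -/
def Cnt (p : ℕ × ℕ) (c : ℕ → ℕ) : Prop :=
  ∀ n, p.1.testBit n = decide (1 ≤ c n) ∧ p.2.testBit n = decide (2 ≤ c n)

theorem cnt_add2 {p : ℕ × ℕ} {c : ℕ → ℕ} (h : Cnt p c) (w : ℕ) :
    Cnt (add2 p w) (fun n => c n + (w.testBit n).toNat) := by
  intro n
  obtain ⟨h1, h2⟩ := h n
  have e1 : (add2 p w).1 = p.1 ||| w := rfl
  have e2 : (add2 p w).2 = p.2 ||| (p.1 &&& w) := rfl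
  rw [e1, e2, Nat.testBit_or, Nat.testBit_or, Nat.testBit_and, h1, h2]
  show _ = decide (1 ≤ c n + (w.testBit n).toNat) ∧ _ = decide (2 ≤ c n + (w.testBit n).toNat)
  generalize w.testBit n = b
  cases b with
  | false => simp
  | true =>
    simp only [Bool.or_true, Bool.and_true, Bool.toNat_true]
    constructor
    · simp
    · by_cases h3 : 1 ≤ c n
      · simp [h3]
      · have h5 : ¬ 2 ≤ c n := by omega
        simp [h3, h5]

theorem win_cnt (q s : ℕ) : ∀ j : ℕ, Cnt (win q s j)
    (fun n => ∑ i ∈ Finset.range j, (((s ||| (s <<< q)) >>> i % 2 ^ q).testBit n).toNat)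
  | 0 => by
    intro n
    show (0 : ℕ).testBit n = _ ∧ (0 : ℕ).testBit n = _
    simp
  | j + 1 => by
    have h := cnt_add2 (win_cnt q s j) ((s ||| (s <<< q)) >>> j % 2 ^ q)
    have e : win q s (j + 1) = add2 (win q s j) ((s ||| (s <<< q)) >>> j % (1 <<< q)) := rfl
    rw [e, Nat.one_shiftLeft]
    intro n
    have h2 := h n
    have e2 : ∑ i ∈ Finset.range (j + 1), (((s ||| (s <<< q)) >>> i % 2 ^ q).testBit n).toNat =
        ∑ i ∈ Finset.range j, (((s ||| (s <<< q)) >>> i % 2 ^ q).testBit n).toNat +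
          (((s ||| (s <<< q)) >>> j % 2 ^ q).testBit n).toNat := Finset.sum_range_succ _ _
    simp only [e2]
    exact h2

theorem win_xor {q s j r : ℕ} (hs : s < 2 ^ q) (hj : j ≤ q)
    (h : ((win q s j).1 ^^^ (win q s j).2).testBit r = true) :
    r < q ∧ ∑ i ∈ Finset.range j, (s.testBit ((r + i) % q)).toNat = 1 := by
  rw [Nat.testBit_xor] at h
  obtain ⟨h1, h2⟩ := win_cnt q s j r
  rw [h1, h2] at h
  have aux : ∀ c : ℕ, (decide (1 ≤ c) ^^ decide (2 ≤ c)) = true → c = 1 := by
    intro c h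
    by_cases h4 : 1 ≤ c
    · by_cases h5 : 2 ≤ c
      · simp [h4, h5] at h
      · omega
    · have h5 : ¬ 2 ≤ c := by omega
      simp [h4, h5] at h
  have h3 : ∑ i ∈ Finset.range j, (((s ||| (s <<< q)) >>> i % 2 ^ q).testBit r).toNat = 1 :=
    aux _ h
  have hr : r < q := by
    by_contra h4
    have h5 : ∑ i ∈ Finset.range j, (((s ||| (s <<< q)) >>> i % 2 ^ q).testBit r).toNat = 0 := by
      apply Finset.sum_eq_zero
      intro i _
      rw [Nat.testBit_mod_two_pow]
      simp [h4]
    omega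
  refine ⟨hr, ?_⟩
  rw [← h3]
  apply Finset.sum_congr rfl
  intro i hi
  rw [Finset.mem_range] at hi
  congr 1
  rw [Nat.testBit_mod_two_pow, Nat.testBit_shiftRight, Nat.testBit_or, Nat.testBit_shiftLeft]
  rw [add_comm i r]
  by_cases h6 : r + i < q
  · have h7 : ¬ q ≤ r + i := by omega
    rw [Nat.mod_eq_of_lt h6]
    simp [hr, h7]
  · have h7 : q ≤ r + i := by omega
    have h8 : s.testBit (r + i) = false :=
      Nat.testBit_lt_two_pow (lt_of_lt_of_le hs (Nat.pow_le_pow_right (by norm_num) h7))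
    have h9 : (r + i) % q = r + i - q := by
      rw [Nat.mod_eq_sub_mod (by omega), Nat.mod_eq_of_lt (by omega)]
    rw [h9]
    simp [hr, h7, h8]

/-! ## Rows -/

theorem bool_aux {x w : Bool} (h : x = true ↔ 1 + w.toNat = 1) : x = !w := by
  cases x <;> cases w <;> simp_all

/-- Constant on a class modulo the period. -/
theorem per_iter {q b a : ℕ} {y : ℕ → Bool} (hy : ∀ c, a ≤ c → c + q < b → y c = y (c + q)) (c : ℕ)
    (hc : a ≤ c) : ∀ k : ℕ, c + k * q < b → y c = y (c + k * q)
  | 0, _ => by rw [zero_mul, add_zero]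
  | k + 1, h => by
    have e : c + (k + 1) * q = c + k * q + q := by ring
    rw [e] at h ⊢
    rw [per_iter hy c hc k (by omega)]
    exact hy _ (by omega) h

theorem per_mod {q b a : ℕ} {y : ℕ → Bool} (hy : ∀ c, a ≤ c → c + q < b → y c = y (c + q))
    {c c' : ℕ} (hc : a ≤ c) (hcb : c < b) (hc' : a ≤ c') (hcb' : c' < b) (h : c % q = c' % q) :
    y c = y c' := by
  rcases le_total c c' with h1 | h1
  · obtain ⟨k, hk⟩ := (Nat.modEq_iff_dvd' h1).1 h
    have e : c' = c + k * q := by
      rw [mul_comm]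
      omega
    rw [e]
    exact per_iter hy c hc k (by omega)
  · obtain ⟨k, hk⟩ := (Nat.modEq_iff_dvd' h1).1 h.symm
    have e : c = c' + k * q := by
      rw [mul_comm]
      omega
    rw [e]
    exact (per_iter hy c' hc' k (by omega)).symm

open Classical in
theorem row_mask {q b a : ℕ} {y : ℕ → Bool} (hq : 1 ≤ q)
    (hy : ∀ c, a ≤ c → c + q < b → y c = y (c + q)) :
    ∃ s : ℕ, (∀ r, s.testBit r = true → r < q) ∧ ∀ c, a ≤ c → c < b → y c = s.testBit (c % q) := by
  obtain ⟨s, hs⟩ := exists_mask (fun r => y (if h : ∃ c, a ≤ c ∧ c < b ∧ c % q = r then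
    h.choose else 0)) q
  refine ⟨s, fun r hr => ?_, fun c hc hcb => ?_⟩
  · rw [hs, Bool.and_eq_true, decide_eq_true_iff] at hr
    exact hr.1
  · have hex : ∃ c', a ≤ c' ∧ c' < b ∧ c' % q = c % q := ⟨c, hc, hcb, rfl⟩
    have hlt : c % q < q := Nat.mod_lt _ (by omega)
    rw [hs]
    obtain ⟨e1, e2, e3⟩ := hex.choose_spec
    rw [decide_eq_true hlt, Bool.true_and, dif_pos hex]
    exact per_mod hy hc hcb e1 e2 e3.symm

/-- Two steps. -/
theorem alt_mod {q b a r : ℕ} {z : ℕ → Bool}
    (hz : ∀ c, a ≤ c → c + q < b → c % q = r → z c = !z (c + q))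
    {c c' : ℕ} (hc : a ≤ c) (hcb : c < b) (hc' : a ≤ c') (hcb' : c' < b) (h : c % q = r)
    (h2 : c % (2 * q) = c' % (2 * q)) : z c = z c' := by
  have key : ∀ c, a ≤ c → c % q = r → ∀ k : ℕ, c + k * (2 * q) < b → z c = z (c + k * (2 * q)) := by
    intro c hc hr k
    induction k with
    | zero =>
      intro _
      rw [zero_mul, add_zero]
    | succ k ih =>
      intro h3
      have e : c + (k + 1) * (2 * q) = c + k * (2 * q) + q + q := by ring
      rw [e] at h3 ⊢
      rw [ih (by omega)]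
      have e2 : (c + k * (2 * q)) % q = r := by
        have e3 : c + k * (2 * q) = c + (k * 2) * q := by ring
        rw [e3, Nat.add_mul_mod_self_right]
        exact hr
      rw [hz _ (by omega) (by omega) e2, hz _ (by omega) (by omega) (by
        rw [Nat.add_mod_right]
        exact e2), Bool.not_not]
  have h5 : c' % q = r := by
    have e1 : c % (2 * q) % q = c % q := Nat.mod_mod_of_dvd _ (Dvd.intro_left 2 rfl)
    have e2 : c' % (2 * q) % q = c' % q := Nat.mod_mod_of_dvd _ (Dvd.intro_left 2 rfl)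
    rw [← e2, ← h2, e1, h]
  rcases le_total c c' with h1 | h1
  · obtain ⟨k, hk⟩ := (Nat.modEq_iff_dvd' h1).1 h2
    have e : c' = c + k * (2 * q) := by
      rw [mul_comm]
      omega
    rw [e]
    exact key c hc h k (by omega)
  · obtain ⟨k, hk⟩ := (Nat.modEq_iff_dvd' h1).1 h2.symm
    have e : c = c' + k * (2 * q) := by
      rw [mul_comm]
      omega
    rw [e]
    exact (key c' hc' h5 k (by omega)).symm

/-- Opposite values. -/
theorem alt_opp {q b a r : ℕ} {z : ℕ → Bool} (hq : 1 ≤ q)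
    (hz : ∀ c, a ≤ c → c + q < b → c % q = r → z c = !z (c + q))
    {c c' : ℕ} (hc : a ≤ c) (hcb : c < b) (hc' : a ≤ c') (hcb' : c' < b) (h : c % q = r)
    (h' : c' % q = r) (h2 : c' % (2 * q) = (c + q) % (2 * q)) : z c = !z c' := by
  rcases le_total c c' with h1 | h1
  · have h4 : c + q ≤ c' := by
      obtain ⟨k, hk⟩ := (Nat.modEq_iff_dvd' h1).1 (h.trans h'.symm)
      rcases Nat.eq_zero_or_pos k with h0 | h0
      · exfalso
        subst h0
        have h5 : c' = c := by omega
        subst h5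
        have h6 : (0 + c') % (2 * q) = (q + c') % (2 * q) := by
          rw [zero_add, h2, add_comm]
        have h7 : 0 ≡ q [MOD 2 * q] := Nat.ModEq.add_right_cancel' c' h6
        have h8 : 0 % (2 * q) = q % (2 * q) := h7
        rw [Nat.zero_mod, Nat.mod_eq_of_lt (by omega)] at h8
        omega
      · have h5 : q * 1 ≤ q * k := Nat.mul_le_mul_left q h0
        omega
    rw [hz c hc (by omega) h]
    congr 1
    exact alt_mod hz (by omega) (by omega) hc' hcb' (by rw [Nat.add_mod_right]; exact h) h2.symm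
  · have h4 : c' + q ≤ c := by
      obtain ⟨k, hk⟩ := (Nat.modEq_iff_dvd' h1).1 (h'.trans h.symm)
      rcases Nat.eq_zero_or_pos k with h0 | h0
      · exfalso
        subst h0
        have h5 : c' = c := by omega
        subst h5
        have h6 : (0 + c') % (2 * q) = (q + c') % (2 * q) := by
          rw [zero_add, h2, add_comm]
        have h7 : 0 ≡ q [MOD 2 * q] := Nat.ModEq.add_right_cancel' c' h6
        have h8 : 0 % (2 * q) = q % (2 * q) := h7
        rw [Nat.zero_mod, Nat.mod_eq_of_lt (by omega)] at h8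
        omega
      · have h5 : q * 1 ≤ q * k := Nat.mul_le_mul_left q h0
        omega
    rw [hz c' hc' (by omega) h', Bool.not_not]
    refine (alt_mod hz (by omega) (by omega) hc hcb (by rw [Nat.add_mod_right]; exact h') ?_).symm
    have h5 : c' + q ≡ c + q + q [MOD 2 * q] := Nat.ModEq.add_right q h2
    have h6 : (c' + q) % (2 * q) = (c + q + q) % (2 * q) := h5
    rw [h6]
    have e : c + q + q = c + 1 * (2 * q) := by ring
    rw [e, Nat.add_mul_mod_self_right]

end Dw

open Dw in
theorem down_sound (m n a b b' A B : ℕ) (hm : 1 ≤ m) (hab : a ≤ b) (hbb : b ≤ b')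
    (hb' : b' ≤ b + m + 2) (hn : b' ≤ n) (h : down m n a b b' A B = true) (y z : ℕ → Bool)
    (hy : ∀ c, a ≤ c → c + (2 * m + 2) < b → y c = y (c + (2 * m + 2)))
    (hz : ∀ c, a ≤ c → c + m < b → c + (2 * m + 2) < b' → (z c = true ↔
      (∑ j ∈ Finset.range (m + 1), (y (c + j)).toNat) + (z (c + (2 * m + 2))).toNat = 1))
    (h1 : ∀ c c', a ≤ c → c < b → a ≤ c' → c' < b → A.testBit c = true → y c = true →
      A.testBit c' = true → y c' = true → c = c')
    (h2 : ∀ c c', a ≤ c → c < b' → a ≤ c' → c' < b' → B.testBit c = true → z c = true →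
      B.testBit c' = true → z c' = true → c = c')
    (h3 : ∀ c c', a ≤ c → c < b → a ≤ c' → c' < b' → A.testBit c = true → y c = true →
      B.testBit c' = true → z c' = true → False) :
    ∀ c, a ≤ c → c < b → y c = false := by
  intro c0 hc0 hc0b
  by_contra hne
  have hyc0 : y c0 = true := by simpa using hne
  set q := 2 * m + 2 with hq
  -- the residues
  obtain ⟨s, hs1, key⟩ := row_mask (q := q) (by omega) hy
  have hslt : s < 2 ^ q := by
    apply Nat.lt_pow_two_of_testBit
    intro i hi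
    by_contra h4
    have := hs1 i (by simpa using h4)
    omega
  unfold down at h
  set hh := res (2 * m + 2) n a b A with hhdef
  have hlow : ∀ r, s.testBit r = true → r < q ∧
      (Nat.xor (Nat.sub (Nat.shiftLeft 1 (2 * m + 2)) 1) hh.2).testBit r = true := by
    intro r hr
    have hrq := hs1 r hr
    refine ⟨hrq, ?_⟩
    have e : Nat.xor (Nat.sub (Nat.shiftLeft 1 (2 * m + 2)) 1) hh.2 =
      (1 <<< (2 * m + 2) - 1) ^^^ hh.2 := rfl
    rw [e, Nat.one_shiftLeft, Nat.testBit_xor, Nat.testBit_two_pow_sub_one]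
    have h4 : hh.2.testBit r = false := by
      by_contra h5
      have h6 : hh.2.testBit r = true := by simpa using h5
      obtain ⟨c, c', hcc, ⟨a1, a2, a3, a4⟩, b1, b2, b3, b4⟩ := res_two h6
      apply hcc
      refine h1 c c' a1 a2 b1 b2 a4 ?_ b4 ?_
      · rw [key c a1 a2, a3, hr]
      · rw [key c' b1 b2, b3, hr]
    rw [h4]
    have h7 : r < 2 * m + 2 := hrq
    simp [h7]
  set low := Nat.xor (Nat.sub (Nat.shiftLeft 1 (2 * m + 2)) 1) hh.2 with hlowdef
  have hs0 : s.testBit (c0 % q) = true := by rw [← key c0 hc0 hc0b]; exact hyc0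
  have hlow0 : low ≠ 0 := by
    intro h4
    have := (hlow _ hs0).2
    rw [h4, Nat.zero_testBit] at this
    exact absurd this (by decide)
  have hbeq : Nat.beq low 0 = false := by
    by_contra h4
    have h5 : Nat.beq low 0 = true := by simpa using h4
    rw [Nat.beq_eq] at h5
    exact hlow0 h5
  set kk := res (4 * m + 4) n a b' B with hkdef
  have hpay : pays m hh.1
      (Nat.mod (Nat.land kk.1 (Nat.shiftRight kk.1 (2 * m + 2))) (Nat.shiftLeft 1 (2 * m + 2)))
      (Nat.mod (Nat.land kk.2 (Nat.shiftRight kk.2 (2 * m + 2))) (Nat.shiftLeft 1 (2 * m + 2)))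
      (0 ||| s) = true := by
    refine subs_spec _ low (2 * m + 2) 0 ?_ s hlow
    have h4 : (Nat.beq low 0 || subs (pays m hh.1
            (Nat.mod (Nat.land kk.1 (Nat.shiftRight kk.1 (2 * m + 2))) (Nat.shiftLeft 1 (2 * m + 2)))
            (Nat.mod (Nat.land kk.2 (Nat.shiftRight kk.2 (2 * m + 2))) (Nat.shiftLeft 1 (2 * m + 2))))
          low (2 * m + 2) 0) = true := h
    rw [hbeq, Bool.false_or] at h4
    exact h4
  rw [Nat.zero_or] at hpay
  set b1 := Nat.mod (Nat.land kk.1 (Nat.shiftRight kk.1 (2 * m + 2))) (Nat.shiftLeft 1 (2 * m + 2))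
    with hb1
  set b2 := Nat.mod (Nat.land kk.2 (Nat.shiftRight kk.2 (2 * m + 2))) (Nat.shiftLeft 1 (2 * m + 2))
    with hb2
  have hb1' : ∀ r, b1.testBit r = true → kk.1.testBit r = true ∧ kk.1.testBit (r + q) = true := by
    intro r hr
    have e : b1 = (kk.1 &&& (kk.1 >>> (2 * m + 2))) % (1 <<< (2 * m + 2)) := rfl
    rw [e, Nat.one_shiftLeft, Nat.testBit_mod_two_pow, Nat.testBit_and,
      Nat.testBit_shiftRight] at hr
    simp only [Bool.and_eq_true] at hr
    refine ⟨hr.2.1, ?_⟩
    rw [add_comm]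
    exact hr.2.2
  have hb2' : ∀ r, b2.testBit r = true → kk.2.testBit r = true ∧ kk.2.testBit (r + q) = true := by
    intro r hr
    have e : b2 = (kk.2 &&& (kk.2 >>> (2 * m + 2))) % (1 <<< (2 * m + 2)) := rfl
    rw [e, Nat.one_shiftLeft, Nat.testBit_mod_two_pow, Nat.testBit_and,
      Nat.testBit_shiftRight] at hr
    simp only [Bool.and_eq_true] at hr
    refine ⟨hr.2.1, ?_⟩
    rw [add_comm]
    exact hr.2.2
  set e := (win (2 * m + 2) s (m + 1)).1 ^^^ (win (2 * m + 2) s (m + 1)).2 with he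
  have e4 : 4 * m + 4 = 2 * q := by omega
  -- alternation
  have halt : ∀ r, e.testBit r = true → r < q ∧
      ∀ c, a ≤ c → c + q < b' → c % q = r → z c = !z (c + q) := by
    intro r hr
    obtain ⟨hrq, hsum⟩ := win_xor (q := 2 * m + 2) (s := s) (j := m + 1) hslt (by omega) hr
    refine ⟨hrq, ?_⟩
    intro c hc hcb hcr
    have h4 := hz c hc (by omega) hcb
    have h5 : ∑ j ∈ Finset.range (m + 1), (y (c + j)).toNat = 1 := by
      refine Eq.trans ?_ hsum
      apply Finset.sum_congr rfl
      intro j hj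
      rw [Finset.mem_range] at hj
      congr 1
      rw [key (c + j) (by omega) (by omega), Nat.add_mod, hcr]
      congr 1
      rw [Nat.add_mod r j, Nat.mod_eq_of_lt (show r < q from hrq)]
    rw [h5] at h4
    exact bool_aux h4
  -- one coincidence
  have hone : ∀ r, e.testBit r = true → b1.testBit r = true →
      ∃ c, a ≤ c ∧ c < b' ∧ c % q = r ∧ B.testBit c = true ∧ z c = true := by
    intro r hr hrb
    obtain ⟨hrq, hal⟩ := halt r hr
    obtain ⟨g1, g2⟩ := hb1' r hrb
    obtain ⟨c, a1, a2, a3, a4⟩ := res_one g1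
    obtain ⟨c', a1', a2', a3', a4'⟩ := res_one g2
    rw [e4] at a3 a3'
    have d1 : c % q = r := by
      have := Nat.mod_mod_of_dvd c (Dvd.intro_left 2 rfl : q ∣ 2 * q)
      rw [← this, a3, Nat.mod_eq_of_lt hrq]
    have d2 : c' % q = r := by
      have := Nat.mod_mod_of_dvd c' (Dvd.intro_left 2 rfl : q ∣ 2 * q)
      rw [← this, a3', Nat.add_mod_right, Nat.mod_eq_of_lt hrq]
    have d3 : c' % (2 * q) = (c + q) % (2 * q) := by
      rw [a3', Nat.add_mod c q, a3, Nat.mod_eq_of_lt (show q < 2 * q by omega),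
        Nat.mod_eq_of_lt (show r + q < 2 * q by omega)]
    have d4 := alt_opp (by omega) hal a1 a2 a1' a2' d1 d2 d3
    cases hzc : z c with
    | true => exact ⟨c, a1, a2, d1, a4, hzc⟩
    | false =>
      rw [hzc] at d4
      exact ⟨c', a1', a2', d2, a4', by simpa using d4⟩
  -- two coincidences
  have htwo : ∀ r, e.testBit r = true → b2.testBit r = true → False := by
    intro r hr hrb
    obtain ⟨hrq, hal⟩ := halt r hr
    obtain ⟨g1, g2⟩ := hb2' r hrb
    obtain ⟨c, d, hcd, ⟨a1, a2, a3, a4⟩, b1, b2, b3, b4⟩ := res_two g1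
    obtain ⟨c', d', hcd', ⟨a1', a2', a3', a4'⟩, b1', b2', b3', b4'⟩ := res_two g2
    rw [e4] at a3 a3' b3 b3'
    have d1 : c % q = r := by
      have := Nat.mod_mod_of_dvd c (Dvd.intro_left 2 rfl : q ∣ 2 * q)
      rw [← this, a3, Nat.mod_eq_of_lt hrq]
    have d2 : c' % q = r := by
      have := Nat.mod_mod_of_dvd c' (Dvd.intro_left 2 rfl : q ∣ 2 * q)
      rw [← this, a3', Nat.add_mod_right, Nat.mod_eq_of_lt hrq]
    have d3 : c' % (2 * q) = (c + q) % (2 * q) := by
      rw [a3', Nat.add_mod c q, a3, Nat.mod_eq_of_lt (show q < 2 * q by omega),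
        Nat.mod_eq_of_lt (show r + q < 2 * q by omega)]
    have d4 := alt_opp (by omega) hal a1 a2 a1' a2' d1 d2 d3
    have d5 : z c = z d := alt_mod hal a1 a2 b1 b2 d1 (a3.trans b3.symm)
    have d6 : z c' = z d' := alt_mod hal a1' a2' b1' b2' d2 (a3'.trans b3'.symm)
    cases hzc : z c with
    | true =>
      exact hcd (h2 c d a1 a2 b1 b2 a4 hzc b4 (d5 ▸ hzc))
    | false =>
      rw [hzc] at d4
      have d7 : z c' = true := by simpa using d4
      exact hcd' (h2 c' d' a1' a2' b1' b2' a4' d7 b4' (d6 ▸ d7))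
  -- a coincidence with `A`
  have hA : ∀ r, (s &&& hh.1).testBit r = true →
      ∃ c, a ≤ c ∧ c < b ∧ c % q = r ∧ A.testBit c = true ∧ y c = true := by
    intro r hr
    rw [Nat.testBit_and, Bool.and_eq_true] at hr
    obtain ⟨c, a1, a2, a3, a4⟩ := res_one hr.2
    exact ⟨c, a1, a2, a3, a4, by rw [key c a1 a2]; exact a3 ▸ hr.1⟩
  have hE : pays m hh.1 b1 b2 s = (Nat.beq s 0 || two (s &&& hh.1) ||
      ((!(Nat.beq (s &&& hh.1) 0) && !(Nat.beq (e &&& b1) 0)) || two (e &&& b1) ||
        !(Nat.beq (e &&& b2) 0))) := rfl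
  rw [hE] at hpay
  simp only [Bool.or_eq_true, Bool.and_eq_true, Bool.not_eq_true'] at hpay
  have hbf : ∀ x : ℕ, Nat.beq x 0 = false → x ≠ 0 := by
    rintro x hx rfl
    exact absurd hx (by decide)
  rcases hpay with (p | p) | ((⟨p, p'⟩ | p) | p)
  · rw [Nat.beq_eq] at p
    rw [p, Nat.zero_testBit] at hs0
    exact absurd hs0 (by decide)
  · obtain ⟨r, r', hrr, g1, g2⟩ := two_spec p
    obtain ⟨c, a1, a2, a3, a4, a5⟩ := hA r g1
    obtain ⟨c', a1', a2', a3', a4', a5'⟩ := hA r' g2
    apply hrr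
    rw [← a3, ← a3', h1 c c' a1 a2 a1' a2' a4 a5 a4' a5']
  · obtain ⟨r, g1⟩ := exists_bit (hbf _ p)
    obtain ⟨r', g2⟩ := exists_bit (hbf _ p')
    obtain ⟨c, a1, a2, a3, a4, a5⟩ := hA r g1
    rw [Nat.testBit_and, Bool.and_eq_true] at g2
    obtain ⟨c', a1', a2', a3', a4', a5'⟩ := hone r' g2.1 g2.2
    exact h3 c c' a1 a2 a1' a2' a4 a5 a4' a5'
  · obtain ⟨r, r', hrr, g1, g2⟩ := two_spec p
    rw [Nat.testBit_and, Bool.and_eq_true] at g1 g2
    obtain ⟨c, a1, a2, a3, a4, a5⟩ := hone r g1.1 g1.2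
    obtain ⟨c', a1', a2', a3', a4', a5'⟩ := hone r' g2.1 g2.2
    apply hrr
    rw [← a3, ← a3', h2 c c' a1 a2 a1' a2' a4 a5 a4' a5']
  · obtain ⟨r, g1⟩ := exists_bit (hbf _ p)
    rw [Nat.testBit_and, Bool.and_eq_true] at g1
    exact htwo r g1.1 g1.2

end Pool.Agent.H65.CF
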