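import Mathlib
import Pool.Agent.H65.CE.Ulam
import Pool.Agent.H65.CF.Defs2
import Pool.Agent.H65.CF.Down

/-!
# Late sums have two pairs
-/

set_option autoImplicit false

namespace Pool.Agent.H65.CF

open Pool.Agent.H65.CE (Seq Rep Two num)
open Pool.Agent.H65.CE.J1 (neg_col cell_exists cell_unique)

/-- The rows `τ < 0` are the rows `u + τ`, shifted by `m` columns. -/
def Av (u m : ℕ) (R : ℕ → ℕ) (τ : ℤ) : ℕ :=
  if 0 ≤ τ then R τ.toNat else Nat.shiftLeft (R (u + τ).toNat) m

/-- The refutation for the window. -/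
def Cert (m : ℕ) (w : W) : Prop := ∀ y : ℕ → Bool,
  (∀ p, p / w.C < w.T → p % w.C + (2 * m + 2) < w.C → Rule m w.C y p) →
  (∀ p, w.Z.testBit p = true → y p = false) →
  ∀ c, w.a ≤ c → c < w.b → y (w.r * w.C + (c - w.cc)) = false

/-- The window fits to the rows; `n` columns are used for the steps down, all columns are
below `M`. -/
structure Fit (u m n M : ℕ) (R : ℕ → ℕ) (w : W) : Prop where
  cert : Cert m w
  z : ∀ p, w.Z.testBit p = true → p / w.C ≤ w.T ∧ (R (w.t0 + p / w.C)).testBit (w.cc + p % w.C) = true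
  ht : w.t0 + w.T < u
  hC : 2 * m + 2 < w.C
  hcc : w.cc + w.C ≤ M
  hr : w.r ≤ w.T
  hr1 : 1 ≤ w.t0 + w.r
  ha : w.cc ≤ w.a
  hb : w.b ≤ w.cc + w.C
  hab : w.a + m + (2 * m + 2) ≤ w.b
  hbn : w.b ≤ n
  dwn : ∀ k : ℕ, 1 ≤ k → k ≤ u → down m n w.a (min (w.b + (m + 2) * k) n)
    (min (w.b + (m + 2) * (k + 1)) n) (Av u m R (w.t0 + w.r - k)) (Av u m R (w.t0 + w.r - k - 1))
      = true

/-- The windows have no cell of the two `Z` in common. -/
def Disj (w v : W) : Prop := ∀ p p' : ℕ, w.Z.testBit p = true → v.Z.testBit p' = true →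
  p / w.C ≤ w.T → p' / v.C ≤ v.T → p % w.C < w.C → p' % v.C < v.C →
  w.t0 + p / w.C = v.t0 + p' / v.C → w.cc + p % w.C = v.cc + p' % v.C → False

namespace La

theorem Av_spec (u m N : ℕ) (hu : 2 ≤ u) (hm : 1 ≤ m) (hco : Nat.Coprime m u) (R : ℕ → ℕ)
    (X : ℤ → Bool) (hX : Seq u m X)
    (cell : ∀ t c : ℕ, t < u → c < N → X (m * t + u * c) = (R t).testBit c)
    (τ : ℤ) (h1 : -(u : ℤ) ≤ τ) (h2 : τ < u) (c : ℕ) (hc : c < N) :
    X (m * τ + u * c) = (Av u m R τ).testBit c := by
  unfold Av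
  by_cases h : 0 ≤ τ
  · rw [if_pos h]
    have h3 := cell τ.toNat c (by omega) hc
    have e : ((τ.toNat : ℕ) : ℤ) = τ := Int.toNat_of_nonneg h
    rw [e] at h3
    exact h3
  · rw [if_neg h]
    have e0 : Nat.shiftLeft (R (u + τ).toNat) m = (R (u + τ).toNat) <<< m := rfl
    rw [e0, Nat.testBit_shiftLeft]
    have e : (((u + τ).toNat : ℕ) : ℤ) = u + τ := Int.toNat_of_nonneg (by omega)
    by_cases hcm : m ≤ c
    · have h3 := cell (u + τ).toNat (c - m) (by omega) (by omega)
      have e2 : (((c - m : ℕ)) : ℤ) = c - m := by omega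
      rw [e, e2] at h3
      have e3 : (m : ℤ) * (u + τ) + u * ((c : ℤ) - m) = m * τ + u * c := by ring
      rw [e3] at h3
      rw [h3]
      simp [hcm]
    · have h3 := neg_col u m (by omega) (by omega) hco hX
        ((m * τ + u * c).toNat + 1) (m * τ + u * c) (by omega) (u + τ).toNat (by omega)
        ((c : ℤ) - m) (by omega) (by rw [e]; ring)
      rw [h3]
      simp [hcm]

/-- no long gaps -/
theorem no_gap (u m : ℕ) (hu : 2 ≤ u) (hm : 1 ≤ m) (X : ℤ → Bool) (hX : Seq u m X) (a : ℤ)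
    (ha : 0 ≤ a) (h : ∀ j : ℤ, a ≤ j → j < a + (2 * m + 2) * u → X j = false) : False := by
  have hD : (0 : ℤ) < (2 * m + 2) * u := by positivity
  have hex : ∃ q : ℤ, q < a ∧ X q = true ∧
      ∀ j, q < j → j < a + (2 * m + 2) * u → X j = false := by
    have h0 : 0 < a := by
      rcases lt_or_eq_of_le ha with h1 | h1
      · exact h1
      · exfalso
        have := h 0 (by omega) (by omega)
        rw [hX.zero] at this
        exact Bool.noConfusion this
    have hP : ∃ i : ℕ, X (a - 1 - i) = true := ⟨(a - 1).toNat, by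
      have : a - 1 - ((a - 1).toNat : ℤ) = 0 := by omega
      rw [this, hX.zero]⟩
    refine ⟨a - 1 - (Nat.find hP : ℤ), by omega, Nat.find_spec hP, ?_⟩
    intro j h1 h2
    by_cases h3 : a ≤ j
    · exact h j h3 h2
    · have h4 : (a - 1 - j).toNat < Nat.find hP := by omega
      have h5 := Nat.find_min hP h4
      have e : a - 1 - ((a - 1 - j).toNat : ℤ) = j := by omega
      rw [e] at h5
      simpa using h5
  obtain ⟨q, hq, hq1, hq2⟩ := hex
  have hq0 : 0 ≤ q := by
    by_contra hneg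
    rw [hX.neg q (by omega)] at hq1
    exact Bool.noConfusion hq1
  have h1 := hq2 (q + (2 * m + 2) * u) (by omega) (by omega)
  have hr := hX.rule (q + (2 * m + 2) * u) (by omega)
  have hnum : num u m X (q + (2 * m + 2) * u) = 1 := by
    unfold num
    have e : q + (2 * (m : ℤ) + 2) * u - (2 * m + 2) * u = q := by ring
    rw [e, hq1, Finset.sum_eq_zero]
    · rfl
    · intro j hj
      rw [Finset.mem_range] at hj
      have hj' : (j : ℤ) ≤ m := by omega
      have hu' : (0 : ℤ) < u := by positivity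
      have hm' : (0 : ℤ) < m := by exact_mod_cast hm
      have h2 : (j : ℤ) * u ≤ m * u := mul_le_mul_of_nonneg_right hj' hu'.le
      have h3 : (0 : ℤ) ≤ (j : ℤ) * u := by positivity
      have h4 : (m : ℤ) ≤ m * u := by
        have : (m : ℤ) * 1 ≤ m * u := mul_le_mul_of_nonneg_left (by omega) hm'.le
        linarith
      have e2 : (2 * (m : ℤ) + 2) * u = 2 * (m * u) + 2 * u := by ring
      rw [hq2 _ (by omega) (by omega)]
      rfl
  rw [hr.2 hnum] at h1
  exact Bool.noConfusion h1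

section

variable {u m N n M : ℕ} {R : ℕ → ℕ} {X : ℤ → Bool}

/-- the rule for the unknown rows -/
theorem rule_row (hX : Seq u m X) (K : ℤ) (τ : ℤ) (c : ℕ) (h : m * τ + u * c < K) :
    X (K - (m * τ + u * c)) = true ↔
      (∑ j ∈ Finset.range (m + 1), (X (K - (m * (τ + 1) + u * ((c + j : ℕ) : ℤ)))).toNat) +
        (X (K - (m * τ + u * ((c + (2 * m + 2) : ℕ) : ℤ)))).toNat = 1 := by
  rw [hX.rule _ (by linarith)]
  unfold num
  have e1 : K - (m * τ + u * c) - (2 * (m : ℤ) + 2) * u =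
      K - (m * τ + u * ((c + (2 * m + 2) : ℕ) : ℤ)) := by push_cast; ring
  have e2 : ∀ j : ℕ, K - (m * τ + u * c) - m - j * u =
      K - (m * (τ + 1) + u * ((c + j : ℕ) : ℤ)) := by intro j; push_cast; ring
  rw [e1]
  simp only [e2]

/-- cells in the same or in neighbouring rows -/
theorem same_row (hu : 2 ≤ u) (τ : ℤ) (c c' : ℕ)
    (h : (m : ℤ) * τ + u * c = m * τ + u * c') : c = c' := by
  have h1 : (u : ℤ) * c = u * c' := by linarith
  have h2 : (u : ℤ) ≠ 0 := by positivity
  exact_mod_cast mul_left_cancel₀ h2 h1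

theorem next_row (hu : 2 ≤ u) (hco : Nat.Coprime m u) (τ : ℤ) (c c' : ℕ)
    (h : (m : ℤ) * τ + u * c = m * (τ - 1) + u * c') : False := by
  have h1 : (m : ℤ) = u * ((c' : ℤ) - c) := by linarith [mul_sub (u : ℤ) c' c, mul_sub (m : ℤ) τ 1]
  have h2 : (u : ℤ) ∣ m := ⟨_, h1⟩
  have h3 : u ∣ m := by exact_mod_cast h2
  have h4 := Nat.Coprime.eq_one_of_dvd hco.symm h3
  omega

end

end La

open La

theorem late_two (u m N n M : ℕ) (hu : 2 ≤ u) (hm : 1 ≤ m) (hco : Nat.Coprime m u) (R : ℕ → ℕ)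
    (X : ℤ → Bool) (hX : Seq u m X)
    (cell : ∀ t c : ℕ, t < u → c < N → X (m * t + u * c) = (R t).testBit c)
    (hnM : n ≤ M) (hMN : M ≤ N) (w v : W) (hw : Fit u m n M R w) (hv : Fit u m n M R v)
    (hd : Disj w v) (K : ℤ) (hK : 2 * (u * (m + M : ℕ) : ℤ) ≤ K) : Two X K := by
  by_contra hno
  have hu' : (0 : ℤ) < u := by positivity
  have hm' : (0 : ℤ) < m := by exact_mod_cast hm
  -- coincidences are unique
  have huniq : ∀ z z' : ℤ, 2 * z < K → 2 * z' < K → X z = true → X (K - z) = true →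
      X z' = true → X (K - z') = true → z = z' := by
    intro z z' h1 h2 h3 h4 h5 h6
    by_contra hne
    exact hno ⟨z, z', hne, ⟨h3, h4, h1⟩, ⟨h5, h6, h2⟩⟩
  -- positions
  have hpos : ∀ (τ : ℤ) (c : ℕ), τ < u → c < M → 2 * (m * τ + u * c) < K := by
    intro τ c h1 h2
    have h3 : (m : ℤ) * τ < m * u := mul_lt_mul_of_pos_left h1 hm'
    have h4 : (u : ℤ) * c ≤ u * M := mul_le_mul_of_nonneg_left (by exact_mod_cast h2.le) hu'.le
    have e : (2 : ℤ) * (u * ((m + M : ℕ) : ℤ)) = 2 * (m * u + u * M) := by push_cast; ring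
    rw [e] at hK
    linarith
  have hposK : ∀ (τ : ℤ) (c : ℕ), τ < u → c < M → (m : ℤ) * τ + u * c < K := by
    intro τ c h1 h2
    have h3 := hpos τ c h1 h2
    have h4 : 0 ≤ K := le_trans (by positivity) hK
    linarith
  -- a window without coincidences
  have hwin : ∃ w : W, Fit u m n M R w ∧ ∀ p : ℕ, w.Z.testBit p = true →
      X (K - (m * ((w.t0 + p / w.C : ℕ) : ℤ) + u * ((w.cc + p % w.C : ℕ) : ℤ))) = false := by
    by_contra hall
    have h1 : ∀ w : W, Fit u m n M R w → ∃ p : ℕ, w.Z.testBit p = true ∧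
        X (K - (m * ((w.t0 + p / w.C : ℕ) : ℤ) + u * ((w.cc + p % w.C : ℕ) : ℤ))) = true := by
      intro w hw
      by_contra h2
      apply hall
      refine ⟨w, hw, fun p hp => ?_⟩
      by_contra h3
      exact h2 ⟨p, hp, by simpa using h3⟩
    obtain ⟨p, hp1, hp2⟩ := h1 w hw
    obtain ⟨p', hp1', hp2'⟩ := h1 v hv
    have hz := hw.z p hp1
    have hz' := hv.z p' hp1'
    have hCw : p % w.C < w.C := Nat.mod_lt _ (by have := hw.hC; omega)
    have hCv : p' % v.C < v.C := Nat.mod_lt _ (by have := hv.hC; omega)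
    have b1 : w.t0 + p / w.C < u := by have := hw.ht; have := hz.1; omega
    have b2 : w.cc + p % w.C < M := by have := hw.hcc; omega
    have b1' : v.t0 + p' / v.C < u := by have := hv.ht; have := hz'.1; omega
    have b2' : v.cc + p' % v.C < M := by have := hv.hcc; omega
    have x1 := cell _ _ b1 (by omega : w.cc + p % w.C < N)
    have x2 := cell _ _ b1' (by omega : v.cc + p' % v.C < N)
    rw [hz.2] at x1
    rw [hz'.2] at x2
    have heq := huniq _ _ (hpos _ _ (by exact_mod_cast b1) b2)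
      (hpos _ _ (by exact_mod_cast b1') b2') x1 hp2 x2 hp2'
    have hcell := cell_unique u m hco _ _ b1 b1' _ _ heq
    have e1 : w.t0 + p / w.C = v.t0 + p' / v.C := hcell.1
    have e2 : w.cc + p % w.C = v.cc + p' % v.C := by exact_mod_cast hcell.2
    exact hd p p' hp1 hp1' hz.1 hz'.1 hCw hCv e1 e2
  clear hw hv hd w v
  obtain ⟨w, hw, hwz⟩ := hwin
  -- the base
  have hbase : ∀ c : ℕ, w.a ≤ c → c < w.b →
      X (K - (m * ((w.t0 + w.r : ℕ) : ℤ) + u * (c : ℤ))) = false := by
    have hC := hw.hC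
    have hC0 : 0 < w.C := by omega
    have h1 := hw.cert
      (fun p => X (K - (m * ((w.t0 + p / w.C : ℕ) : ℤ) + u * ((w.cc + p % w.C : ℕ) : ℤ)))) ?_ hwz
    · intro c hc1 hc2
      have h2 := h1 c hc1 hc2
      have e1 : (w.r * w.C + (c - w.cc)) / w.C = w.r := by
        rw [mul_comm, Nat.mul_add_div hC0, Nat.div_eq_of_lt, Nat.add_zero]
        have := hw.hb
        have := hw.ha
        omega
      have e2 : (w.r * w.C + (c - w.cc)) % w.C = c - w.cc := by
        rw [mul_comm, Nat.mul_add_mod, Nat.mod_eq_of_lt]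
        have := hw.hb
        have := hw.ha
        omega
      have e3 : w.cc + (c - w.cc) = c := by have := hw.ha; omega
      simp only [e1, e2, e3] at h2
      exact h2
    · intro p hp1 hp2
      unfold Rule
      have hb1 : w.t0 + p / w.C < u := by have := hw.ht; omega
      have hb2 : w.cc + p % w.C < M := by
        have := hw.hcc
        have := Nat.mod_lt p hC0
        omega
      have h2 := rule_row hX K ((w.t0 + p / w.C : ℕ) : ℤ) (w.cc + p % w.C)
        (hposK _ _ (by exact_mod_cast hb1) hb2)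
      rw [h2]
      have e1 : ∀ j ≤ m, (p + w.C + j) / w.C = p / w.C + 1 ∧ (p + w.C + j) % w.C = p % w.C + j := by
        intro j hj
        have h3 := Nat.div_add_mod p w.C
        have h4 : p + w.C + j = (p % w.C + j) + w.C * (p / w.C + 1) := by
          rw [Nat.mul_add, Nat.mul_one]; omega
        rw [h4]
        constructor
        · rw [Nat.add_mul_div_left _ _ hC0, Nat.div_eq_of_lt (by omega)]; omega
        · rw [Nat.add_mul_mod_self_left, Nat.mod_eq_of_lt (by omega)]
      have e2 : (p + (2 * m + 2)) / w.C = p / w.C ∧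
          (p + (2 * m + 2)) % w.C = p % w.C + (2 * m + 2) := by
        have h3 := Nat.div_add_mod p w.C
        have h4 : p + (2 * m + 2) = (p % w.C + (2 * m + 2)) + w.C * (p / w.C) := by omega
        rw [h4]
        constructor
        · rw [Nat.add_mul_div_left _ _ hC0, Nat.div_eq_of_lt (by omega)]; omega
        · rw [Nat.add_mul_mod_self_left, Nat.mod_eq_of_lt (by omega)]
      have e3 : (∑ j ∈ Finset.range (m + 1),
          (X (K - (m * ((w.t0 + (p + w.C + j) / w.C : ℕ) : ℤ) +
            u * ((w.cc + (p + w.C + j) % w.C : ℕ) : ℤ)))).toNat) =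
          ∑ j ∈ Finset.range (m + 1), (X (K - (m * (((w.t0 + p / w.C : ℕ) : ℤ) + 1) +
            u * ((w.cc + p % w.C + j : ℕ) : ℤ)))).toNat := by
        apply Finset.sum_congr rfl
        intro j hj
        rw [Finset.mem_range] at hj
        obtain ⟨a1, a2⟩ := e1 j (by omega)
        rw [a1, a2]
        push_cast
        ring_nf
      beta_reduce
      rw [e3, e2.1, e2.2]
      push_cast
      ring_nf
  -- the steps down
  have hdown : ∀ k : ℕ, k ≤ u → ∀ c : ℕ, w.a ≤ c → c < min (w.b + (m + 2) * k) n →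
      X (K - (m * ((w.t0 + w.r : ℕ) - (k : ℤ)) + u * (c : ℤ))) = false := by
    intro k
    induction k with
    | zero =>
      intro _ c h1 h2
      have h3 := hbase c h1 (by omega)
      simpa using h3
    | succ k ih =>
      intro hk
      have ihk := ih (by omega)
      have hr1 := hw.hr1
      have hrt : w.t0 + w.r < u := by have := hw.hr; have := hw.ht; omega
      have hdw := hw.dwn (k + 1) (by omega) hk
      have ea : (m + 2) * (k + 1) = (m + 2) * k + m + 2 := by ring
      have eb : (m + 2) * (k + 1 + 1) = (m + 2) * k + m + 2 + m + 2 := by ring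
      rw [ea, eb] at hdw
      have hbn := hw.hbn
      have hab := hw.hab
      have eτ : ((w.t0 : ℤ) + w.r - ((k + 1 : ℕ) : ℤ)) = ((w.t0 + w.r : ℕ) : ℤ) - ((k + 1 : ℕ) : ℤ) := by
        push_cast; ring
      rw [eτ] at hdw
      set τ : ℤ := ((w.t0 + w.r : ℕ) : ℤ) - ((k + 1 : ℕ) : ℤ) with hτ
      have hτ1 : -(u : ℤ) ≤ τ - 1 := by omega
      have hτ2 : τ < u := by omega
      have cellA := fun c (hc : c < N) => Av_spec u m N hu hm hco R X hX cell τ (by omega) hτ2 c hc
      have cellB := fun c (hc : c < N) =>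
        Av_spec u m N hu hm hco R X hX cell (τ - 1) hτ1 (by omega) c hc
      rw [ea]
      refine down_sound m n w.a _ _ _ _ hm (by omega) (by omega) (by omega) (by omega) hdw
        (fun c => X (K - (m * τ + u * (c : ℤ)))) (fun c => X (K - (m * (τ - 1) + u * (c : ℤ))))
        ?_ ?_ ?_ ?_ ?_
      · intro c h1 h2
        have h3 := rule_row hX K τ c (hposK τ c hτ2 (by omega))
        have h4 : (∑ j ∈ Finset.range (m + 1),
            (X (K - (m * (τ + 1) + u * ((c + j : ℕ) : ℤ)))).toNat) = 0 := by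
          apply Finset.sum_eq_zero
          intro j hj
          rw [Finset.mem_range] at hj
          have h5 := ihk (c + j) (by omega) (by omega)
          have e : ((w.t0 + w.r : ℕ) : ℤ) - (k : ℤ) = τ + 1 := by rw [hτ]; push_cast; ring
          rw [e] at h5
          rw [h5]; rfl
        rw [h4, Nat.zero_add] at h3
        have h6 : ∀ b : Bool, b.toNat = 1 ↔ b = true := by intro b; cases b <;> simp
        rw [h6] at h3
        rw [Bool.eq_iff_iff]
        exact h3
      · intro c h1 h2 h3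
        have h4 := rule_row hX K (τ - 1) c (hposK (τ - 1) c (by omega) (by omega))
        have e : τ - 1 + 1 = τ := by ring
        rw [e] at h4
        exact h4
      · intro c c' a1 a2 a3 a4 a5 a6 a7 a8
        rw [← cellA c (by omega)] at a5
        rw [← cellA c' (by omega)] at a7
        exact same_row hu τ c c' (huniq _ _ (hpos τ c hτ2 (by omega)) (hpos τ c' hτ2 (by omega))
          a5 a6 a7 a8)
      · intro c c' a1 a2 a3 a4 a5 a6 a7 a8
        rw [← cellB c (by omega)] at a5
        rw [← cellB c' (by omega)] at a7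
        exact same_row hu (τ - 1) c c' (huniq _ _ (hpos _ c (by omega) (by omega))
          (hpos _ c' (by omega) (by omega)) a5 a6 a7 a8)
      · intro c c' a1 a2 a3 a4 a5 a6 a7 a8
        rw [← cellA c (by omega)] at a5
        rw [← cellB c' (by omega)] at a7
        exact next_row hu hco τ c c' (huniq _ _ (hpos τ c hτ2 (by omega))
          (hpos _ c' (by omega) (by omega)) a5 a6 a7 a8)
  -- the gap
  have hrt : w.t0 + w.r < u := by have := hw.hr; have := hw.ht; omega
  set ρ : ℤ := ((w.t0 + w.r : ℕ) : ℤ) with hρ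
  have hρ0 : 0 ≤ ρ := by positivity
  have hρu : ρ < u := by rw [hρ]; exact_mod_cast hrt
  have hD : (0 : ℤ) < (2 * m + 2) * u := by positivity
  have hb1 : (w.b : ℤ) ≤ M := by exact_mod_cast (le_trans hw.hbn hnM)
  have hab : (w.a : ℤ) + m + (2 * m + 2) ≤ w.b := by exact_mod_cast hw.hab
  have hK2 : 2 * ((m : ℤ) * u + u * M) ≤ K := by
    have e : (2 : ℤ) * (u * ((m + M : ℕ) : ℤ)) = 2 * (m * u + u * M) := by push_cast; ring
    rw [← e]; exact hK
  have p1 : (m : ℤ) * ρ ≤ m * u := mul_le_mul_of_nonneg_left hρu.le hm'.le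
  have p2 : (u : ℤ) * w.b ≤ u * M := mul_le_mul_of_nonneg_left hb1 hu'.le
  have p3 : (u : ℤ) * w.a + u * m + u * (2 * m + 2) ≤ u * w.b := by
    have := mul_le_mul_of_nonneg_left hab hu'.le
    linarith [mul_add (u : ℤ) (w.a + m) (2 * m + 2), mul_add (u : ℤ) w.a m]
  have p4 : (0 : ℤ) ≤ m * ρ := by positivity
  have p5 : (0 : ℤ) ≤ u * (w.a : ℤ) := by positivity
  have p6 : (0 : ℤ) ≤ u * (M : ℤ) := by positivity
  have p7 : (0 : ℤ) ≤ m * (u : ℤ) := by positivity
  refine no_gap u m hu hm X hX (K - (m * ρ + u * w.a + (2 * m + 2) * u) + 1) (by nlinarith) ?_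
  intro j hj1 hj2
  -- the position
  obtain ⟨z, hz⟩ : ∃ z : ℤ, j = K - z := ⟨K - j, by ring⟩
  subst hz
  have hz1 : (m : ℤ) * ρ + u * w.a ≤ z := by linarith
  have hz2 : z < m * ρ + u * w.a + (2 * m + 2) * u := by linarith
  obtain ⟨t, ht, c, hc⟩ := cell_exists u m (by omega) hco (z - m * (ρ - u + 1))
  have hc' : z = m * (ρ - u + 1 + t) + u * c := by linarith [mul_add (m : ℤ) (ρ - u + 1) t]
  have ht' : (t : ℤ) + 1 ≤ u := by exact_mod_cast ht
  have hmt : (m : ℤ) * (ρ - u + 1 + t) ≤ m * ρ := mul_le_mul_of_nonneg_left (by linarith) hm'.le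
  have hmt2 : (m : ℤ) * (ρ - u + 1) ≤ m * (ρ - u + 1 + t) :=
    mul_le_mul_of_nonneg_left (by linarith [Int.natCast_nonneg t]) hm'.le
  have hca : (w.a : ℤ) ≤ c := by
    by_contra hlt
    have h1 : c + 1 ≤ w.a := by omega
    have h2 : (u : ℤ) * (c + 1) ≤ u * w.a := mul_le_mul_of_nonneg_left h1 hu'.le
    linarith [mul_add (u : ℤ) c 1]
  have hcb : c < w.b := by
    by_contra hge
    have h1 : (w.b : ℤ) ≤ c := by omega
    have h2 : (u : ℤ) * w.b ≤ u * c := mul_le_mul_of_nonneg_left h1 hu'.le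
    have h3 : (m : ℤ) * (ρ - u + 1) = m * ρ - m * u + m := by ring
    have h4 : (2 * (m : ℤ) + 2) * u = u * (2 * m + 2) := by ring
    have h5 : (u : ℤ) * m = m * u := by ring
    linarith
  obtain ⟨c', rfl⟩ : ∃ c' : ℕ, c = c' := ⟨c.toNat, by
    rw [Int.toNat_of_nonneg]
    linarith [Int.natCast_nonneg w.a]⟩
  have h1 := hdown (u - 1 - t) (by omega) c' (by exact_mod_cast hca) (by
    have h2 : c' < w.b := by exact_mod_cast hcb
    have := hw.hbn
    have : 0 ≤ (m + 2) * (u - 1 - t) := Nat.zero_le _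
    omega)
  have e : ρ - ((u - 1 - t : ℕ) : ℤ) = ρ - u + 1 + t := by omega
  rw [e, ← hc'] at h1
  exact h1

end Pool.Agent.H65.CF
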