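import Mathlib
import Pool.Agent.H65.CE.Ulam
import Pool.Agent.H65.CF.Core
import Pool.Agent.H65.CF.Defs2

/-!
# Pairs of the early columns (job CF-3)
-/

set_option autoImplicit false

namespace Pool.Agent.H65.CF

open Pool.Agent.H65.CE (Seq Rep Two)

namespace Pr

/-! ### bits -/

theorem tb_eq (A a : ℕ) : tb A a = A.testBit a := by
  unfold tb
  rw [Bool.eq_iff_iff, Nat.beq_eq, Nat.testBit_eq_decide_div_mod_eq, decide_eq_true_iff]
  have h1 : Nat.land (Nat.shiftRight A a) 1 = A / 2 ^ a % 2 := by
    change (A >>> a) &&& 1 = _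
    rw [Nat.and_one_is_mod, Nat.shiftRight_eq_div_pow]
  rw [h1]

theorem bit_shl (B a n : ℕ) :
    (Nat.shiftLeft B a).testBit n = true ↔ a ≤ n ∧ B.testBit (n - a) = true := by
  change (B <<< a).testBit n = true ↔ _
  rw [Nat.testBit_shiftLeft, Bool.and_eq_true, decide_eq_true_iff]

theorem shl_one (N : ℕ) : Nat.shiftLeft 1 N = 2 ^ N := by
  change 1 <<< N = _
  rw [Nat.one_shiftLeft]

theorem full_bit {N x : ℕ} (h : full N x = true) (c : ℕ) (hc : c < N) : x.testBit c = true := by
  unfold full at h
  rw [Nat.beq_eq, shl_one] at h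
  have h1 : x % 2 ^ N = 2 ^ N - 1 := by
    have h2 : Nat.mod x (2 ^ N) = x % 2 ^ N := rfl
    rw [h2] at h
    omega
  have h3 : (x % 2 ^ N).testBit c = true := by
    rw [h1, Nat.testBit_two_pow_sub_one]
    simpa using hc
  rw [Nat.testBit_mod_two_pow, Bool.and_eq_true] at h3
  exact h3.2

/-! ### witnesses -/

/-- the pair `p` records whether there is one witness, two witnesses -/
structure Inv (p : ℕ × ℕ) (Q : ℕ → ℕ × ℕ → Prop) : Prop where
  one : ∀ n, p.1.testBit n = true ↔ ∃ x, Q n x
  two : ∀ n, p.2.testBit n = true ↔ ∃ x y, x ≠ y ∧ Q n x ∧ Q n y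

theorem Inv.congr {p : ℕ × ℕ} {Q Q' : ℕ → ℕ × ℕ → Prop} (h : Inv p Q)
    (e : ∀ n x, Q n x ↔ Q' n x) : Inv p Q' := by
  have : Q = Q' := by
    funext n x
    exact propext (e n x)
  rwa [← this]

theorem inv_zero : Inv (0, 0) (fun _ _ => False) := by
  constructor
  · intro n
    simp
  · intro n
    simp

theorem inv_add {p : ℕ × ℕ} {Q : ℕ → ℕ × ℕ → Prop} (h : Inv p Q) (x : ℕ × ℕ)
    (hx : ∀ n, ¬ Q n x) (w : ℕ) :
    Inv (add2 p w) (fun n y => Q n y ∨ (y = x ∧ w.testBit n = true)) := by
  have e1 : (add2 p w).1 = p.1 ||| w := rfl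
  have e2 : (add2 p w).2 = p.2 ||| (p.1 &&& w) := rfl
  constructor
  · intro n
    rw [e1, Nat.testBit_or, Bool.or_eq_true, h.one n]
    constructor
    · rintro (⟨y, hy⟩ | hw)
      · exact ⟨y, Or.inl hy⟩
      · exact ⟨x, Or.inr ⟨rfl, hw⟩⟩
    · rintro ⟨y, hy | ⟨-, hw⟩⟩
      · exact Or.inl ⟨y, hy⟩
      · exact Or.inr hw
  · intro n
    rw [e2, Nat.testBit_or, Nat.testBit_and, Bool.or_eq_true, Bool.and_eq_true, h.two n, h.one n]
    constructor
    · rintro (⟨y, z, hne, hy, hz⟩ | ⟨⟨y, hy⟩, hw⟩)
      · exact ⟨y, z, hne, Or.inl hy, Or.inl hz⟩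
      · refine ⟨y, x, ?_, Or.inl hy, Or.inr ⟨rfl, hw⟩⟩
        rintro rfl
        exact hx n hy
    · rintro ⟨y, z, hne, hy, hz⟩
      rcases hy with hy | ⟨hy, hw⟩ <;> rcases hz with hz | ⟨hz, hw'⟩
      · exact Or.inl ⟨y, z, hne, hy, hz⟩
      · exact Or.inr ⟨⟨y, hy⟩, hw'⟩
      · exact Or.inr ⟨⟨z, hz⟩, hw⟩
      · exact absurd (hy.trans hz.symm) hne

theorem inv_cva (A B i : ℕ) : ∀ (J : ℕ) (p : ℕ × ℕ) (Q : ℕ → ℕ × ℕ → Prop), Inv p Q →
    (∀ n a, a < J → ¬ Q n (i, a)) →
    Inv (cva A B J p) (fun n y => Q n y ∨ (y.1 = i ∧ y.2 < J ∧ A.testBit y.2 = true ∧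
      y.2 ≤ n ∧ B.testBit (n - y.2) = true)) := by
  intro J
  induction J with
  | zero =>
    intro p Q h _
    refine h.congr fun n x => ?_
    constructor
    · exact Or.inl
    · rintro (h | ⟨_, h, _⟩)
      · exact h
      · exact absurd h (Nat.not_lt_zero _)
  | succ a ih =>
    intro p Q h hQ
    have e : cva A B (a + 1) p =
        cva A B a (bif tb A a then add2 p (Nat.shiftLeft B a) else p) := rfl
    rw [e, tb_eq]
    cases hA : A.testBit a with
    | false =>
      simp only [cond_false]
      refine (ih p Q h fun n b hb => hQ n b (by omega)).congr fun n y => ?_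
      constructor
      · rintro (h1 | ⟨h1, h2, h3, h4, h5⟩)
        · exact Or.inl h1
        · exact Or.inr ⟨h1, by omega, h3, h4, h5⟩
      · rintro (h1 | ⟨h1, h2, h3, h4, h5⟩)
        · exact Or.inl h1
        · refine Or.inr ⟨h1, ?_, h3, h4, h5⟩
          have h6 : y.2 ≠ a := by
            intro h7
            rw [h7, hA] at h3
            exact Bool.false_ne_true h3
          omega
    | true =>
      simp only [cond_true]
      have h0 := inv_add h (i, a) (fun n => hQ n a (Nat.lt_succ_self a)) (Nat.shiftLeft B a)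
      refine (ih _ _ h0 ?_).congr fun n y => ?_
      · rintro n b hb (h1 | ⟨h1, -⟩)
        · exact hQ n b (by omega) h1
        · have h2 : b = a := congrArg Prod.snd h1
          omega
      · constructor
        · rintro ((h1 | ⟨h1, h2⟩) | ⟨h1, h2, h3, h4, h5⟩)
          · exact Or.inl h1
          · rw [bit_shl] at h2
            subst h1
            exact Or.inr ⟨rfl, Nat.lt_succ_self a, hA, h2.1, h2.2⟩
          · exact Or.inr ⟨h1, by omega, h3, h4, h5⟩
        · rintro (h1 | ⟨h1, h2, h3, h4, h5⟩)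
          · exact Or.inl (Or.inl h1)
          · rcases Nat.lt_succ_iff_lt_or_eq.1 h2 with h6 | h6
            · exact Or.inr ⟨h1, h6, h3, h4, h5⟩
            · refine Or.inl (Or.inr ⟨Prod.ext h1 h6, ?_⟩)
              rw [bit_shl, ← h6]
              exact ⟨h4, h5⟩

/-- the witnesses of `cvt` -/
def WT (J i0 : ℕ) (l r : List ℕ) (n : ℕ) (y : ℕ × ℕ) : Prop :=
  ∃ k, k < l.length ∧ k < r.length ∧ y.1 = i0 + k ∧ y.2 < J ∧ (l.getD k 0).testBit y.2 = true ∧
    y.2 ≤ n ∧ (r.getD k 0).testBit (n - y.2) = true

theorem inv_cvt (J : ℕ) : ∀ (l r : List ℕ) (i0 : ℕ) (p : ℕ × ℕ) (Q : ℕ → ℕ × ℕ → Prop), Inv p Q →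
    (∀ n i a, i0 ≤ i → i < i0 + l.length → ¬ Q n (i, a)) →
    Inv (cvt J l r p) (fun n y => Q n y ∨ WT J i0 l r n y) := by
  intro l
  induction l with
  | nil =>
    intro r i0 p Q h _
    have e : cvt J [] r p = p := by
      cases r <;> rfl
    rw [e]
    refine h.congr fun n y => ?_
    constructor
    · exact Or.inl
    · rintro (h1 | ⟨k, hk, _⟩)
      · exact h1
      · simp at hk
  | cons A l ih =>
    intro r i0 p Q h hQ
    cases r with
    | nil =>
      have e : cvt J (A :: l) [] p = p := rfl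
      rw [e]
      refine h.congr fun n y => ?_
      constructor
      · exact Or.inl
      · rintro (h1 | ⟨k, _, hk, _⟩)
        · exact h1
        · simp at hk
    | cons B r =>
      have e : cvt J (A :: l) (B :: r) p = cvt J l r (cva A B J p) := rfl
      rw [e]
      have h0 := inv_cva A B i0 J p Q h fun n a _ => hQ n i0 a le_rfl (by simp)
      refine (ih r (i0 + 1) _ _ h0 ?_).congr fun n y => ?_
      · rintro n i a hi hi' (h1 | ⟨h1, _⟩)
        · refine hQ n i a (by omega) ?_ h1
          rw [List.length_cons]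
          omega
        · simp only at h1
          omega
      · constructor
        · rintro ((h1 | ⟨h1, h2, h3, h4, h5⟩) | ⟨k, hk1, hk2, h1, h2, h3, h4, h5⟩)
          · exact Or.inl h1
          · exact Or.inr ⟨0, by simp, by simp, by simpa using h1, h2, by simpa using h3, h4,
              by simpa using h5⟩
          · refine Or.inr ⟨k + 1, ?_, ?_, ?_, h2, ?_, h4, ?_⟩
            · rw [List.length_cons]
              omega
            · rw [List.length_cons]
              omega
            · omega
            · rwa [List.getD_cons_succ]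
            · rwa [List.getD_cons_succ]
        · rintro (h1 | ⟨k, hk1, hk2, h1, h2, h3, h4, h5⟩)
          · exact Or.inl (Or.inl h1)
          · cases k with
            | zero =>
              exact Or.inl (Or.inr ⟨by simpa using h1, h2, by simpa using h3, h4,
                by simpa using h5⟩)
            | succ k =>
              rw [List.length_cons] at hk1 hk2
              rw [List.getD_cons_succ] at h3 h5
              exact Or.inr ⟨k, by omega, by omega, by omega, h2, h3, h4, h5⟩

theorem inv_dia (A i : ℕ) : ∀ (J : ℕ) (p : ℕ × ℕ) (Q : ℕ → ℕ × ℕ → Prop), Inv p Q →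
    (∀ n a, a < J → ¬ Q n (i, a)) →
    Inv (dia A J p) (fun n y => Q n y ∨ (y.1 = i ∧ y.2 < J ∧ A.testBit y.2 = true ∧
      2 * y.2 < n ∧ A.testBit (n - y.2) = true)) := by
  intro J
  induction J with
  | zero =>
    intro p Q h _
    refine h.congr fun n x => ?_
    constructor
    · exact Or.inl
    · rintro (h | ⟨_, h, _⟩)
      · exact h
      · exact absurd h (Nat.not_lt_zero _)
  | succ a ih =>
    intro p Q h hQ
    have hbit : ∀ n, (Nat.shiftLeft (Nat.shiftRight A (a + 1)) (2 * a + 1)).testBit n = true ↔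
        2 * a < n ∧ A.testBit (n - a) = true := by
      intro n
      rw [bit_shl]
      change _ ∧ (A >>> (a + 1)).testBit (n - (2 * a + 1)) = true ↔ _
      rw [Nat.testBit_shiftRight]
      constructor
      · rintro ⟨h1, h2⟩
        refine ⟨by omega, ?_⟩
        rwa [show a + 1 + (n - (2 * a + 1)) = n - a by omega] at h2
      · rintro ⟨h1, h2⟩
        refine ⟨by omega, ?_⟩
        rwa [show a + 1 + (n - (2 * a + 1)) = n - a by omega]
    have e : dia A (a + 1) p = dia A a (bif tb A a then
        add2 p (Nat.shiftLeft (Nat.shiftRight A (a + 1)) (2 * a + 1)) else p) := rfl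
    rw [e, tb_eq]
    cases hA : A.testBit a with
    | false =>
      simp only [cond_false]
      refine (ih p Q h fun n b hb => hQ n b (by omega)).congr fun n y => ?_
      constructor
      · rintro (h1 | ⟨h1, h2, h3, h4, h5⟩)
        · exact Or.inl h1
        · exact Or.inr ⟨h1, by omega, h3, h4, h5⟩
      · rintro (h1 | ⟨h1, h2, h3, h4, h5⟩)
        · exact Or.inl h1
        · refine Or.inr ⟨h1, ?_, h3, h4, h5⟩
          have h6 : y.2 ≠ a := by
            intro h7
            rw [h7, hA] at h3
            exact Bool.false_ne_true h3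
          omega
    | true =>
      simp only [cond_true]
      have h0 := inv_add h (i, a) (fun n => hQ n a (Nat.lt_succ_self a))
        (Nat.shiftLeft (Nat.shiftRight A (a + 1)) (2 * a + 1))
      refine (ih _ _ h0 ?_).congr fun n y => ?_
      · rintro n b hb (h1 | ⟨h1, -⟩)
        · exact hQ n b (by omega) h1
        · have h2 : b = a := congrArg Prod.snd h1
          omega
      · constructor
        · rintro ((h1 | ⟨h1, h2⟩) | ⟨h1, h2, h3, h4, h5⟩)
          · exact Or.inl h1
          · rw [hbit] at h2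
            subst h1
            exact Or.inr ⟨rfl, Nat.lt_succ_self a, hA, h2.1, h2.2⟩
          · exact Or.inr ⟨h1, by omega, h3, h4, h5⟩
        · rintro (h1 | ⟨h1, h2, h3, h4, h5⟩)
          · exact Or.inl (Or.inl h1)
          · rcases Nat.lt_succ_iff_lt_or_eq.1 h2 with h6 | h6
            · exact Or.inr ⟨h1, h6, h3, h4, h5⟩
            · refine Or.inl (Or.inr ⟨Prod.ext h1 h6, ?_⟩)
              rw [hbit, ← h6]
              exact ⟨h4, h5⟩

/-! ### the lists -/

theorem getD_take {L : List ℕ} {n k : ℕ} (hk : k < n) : (L.take n).getD k 0 = L.getD k 0 := by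
  rw [List.getD_eq_getElem?_getD, List.getD_eq_getElem?_getD, List.getElem?_take_of_lt hk]

theorem getD_drop (L : List ℕ) (n k : ℕ) : (L.drop n).getD k 0 = L.getD (n + k) 0 := by
  rw [List.getD_eq_getElem?_getD, List.getD_eq_getElem?_getD, List.getElem?_drop]

theorem getD_rev {L : List ℕ} {k : ℕ} (hk : k < L.length) :
    L.reverse.getD k 0 = L.getD (L.length - 1 - k) 0 := by
  rw [List.getD_eq_getElem?_getD, List.getD_eq_getElem?_getD, List.getElem?_reverse hk]

theorem getD_rev_take {L : List ℕ} {t s : ℕ} (ht : t < L.length) (hs : s ≤ t) :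
    (L.take (t + 1)).reverse.getD s 0 = L.getD (t - s) 0 := by
  have h1 : (L.take (t + 1)).length = t + 1 := by
    rw [List.length_take]
    omega
  rw [getD_rev (by omega), h1, getD_take (by omega)]
  congr 1

theorem late_spec (J N sm : ℕ) (P : List ℕ) : ∀ (l r : List ℕ) (t : ℕ),
    late J N sm P t r l = true → ∀ k, k < l.length → t + k + 2 ≤ 2 * sm ∨
      full N (cvt J P ((l.take (k + 1)).reverse ++ r) (0, 0)).2 = true := by
  intro l
  induction l with
  | nil =>
    intro r t _ k hk
    simp at hk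
  | cons A l ih =>
    intro r t h k hk
    have e : late J N sm P t r (A :: l) = ((Nat.ble (t + 2) (2 * sm) ||
        full N (cvt J P (A :: r) (0, 0)).2) && late J N sm P (t + 1) (A :: r) l) := rfl
    rw [e, Bool.and_eq_true, Bool.or_eq_true, Nat.ble_eq] at h
    cases k with
    | zero => simpa using h.1
    | succ k =>
      have h1 := ih (A :: r) (t + 1) h.2 k (by rw [List.length_cons] at hk; omega)
      rcases h1 with h1 | h1
      · left
        omega
      · right
        rw [List.take_succ_cons, List.reverse_cons, List.append_assoc, List.singleton_append]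
        exact h1

theorem early_spec (m N J w : ℕ) (L : List ℕ) : ∀ n : ℕ, early m N J w L n = true →
    ∀ t, t < n → full N (Nat.lor (outer m J w t L (inner N t L)).2
      (exc m t (inner N t L).1)) = true := by
  intro n
  induction n with
  | zero =>
    intro _ t ht
    omega
  | succ n ih =>
    intro h t ht
    have e : early m N J w L (n + 1) = (full N (Nat.lor (outer m J w n L (inner N n L)).2
      (exc m n (inner N n L).1)) && early m N J w L n) := rfl
    rw [e, Bool.and_eq_true] at h
    rcases Nat.lt_succ_iff_lt_or_eq.1 ht with h1 | h1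
    · exact ih h.2 t h1
    · rw [h1]
      exact h.1

theorem parity_spec (m : ℕ) : ∀ (l : List ℕ) (b : Bool), parity m b l = true →
    ∀ k, k < l.length → (if (k % 2 = 0) = (b = true) then
      (l.getD k 0).testBit (m + 1) = false else (l.getD k 0) % 2 ^ (m + 2) = 1) := by
  intro l
  induction l with
  | nil =>
    intro b _ k hk
    simp at hk
  | cons A l ih =>
    intro b h k hk
    have e : parity m b (A :: l) = ((bif b then !(tb A (m + 1)) else
      Nat.beq (Nat.mod A (Nat.shiftLeft 1 (m + 2))) 1) && parity m (!b) l) := rfl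
    rw [e, Bool.and_eq_true] at h
    cases k with
    | zero =>
      cases b with
      | true =>
        have h1 := h.1
        rw [cond_true, tb_eq] at h1
        simpa using h1
      | false =>
        have h1 := h.1
        rw [cond_false, Nat.beq_eq, shl_one] at h1
        have h2 : A % 2 ^ (m + 2) = 1 := h1
        simpa using h2
    | succ k =>
      have h1 := ih (!b) h.2 k (by rw [List.length_cons] at hk; omega)
      rw [List.getD_cons_succ]
      have h2 : (((k + 1) % 2 = 0) = (b = true)) = ((k % 2 = 0) = ((!b) = true)) := by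
        apply propext
        rcases Nat.mod_two_eq_zero_or_one k with h3 | h3 <;> cases b <;> simp [h3] <;> omega
      simp only [h2]
      exact h1

/-! ### masks of the early rows -/

theorem inv_inner (N t : ℕ) (L : List ℕ) (ht : t < L.length) :
    Inv (inner N t L) (fun n y => (2 * y.1 < t ∨ (2 * y.1 = t ∧ 2 * y.2 < n)) ∧ y.2 < N ∧
      y.2 ≤ n ∧ (L.getD y.1 0).testBit y.2 = true ∧
      (L.getD (t - y.1) 0).testBit (n - y.2) = true) := by
  have hlen : (L.take ((t + 1) / 2)).length = (t + 1) / 2 := by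
    rw [List.length_take]
    omega
  have hlen' : (L.take (t + 1)).reverse.length = t + 1 := by
    rw [List.length_reverse, List.length_take]
    omega
  unfold inner
  cases hpar : Nat.beq (t % 2) 0 with
  | true =>
    rw [Nat.beq_eq] at hpar
    simp only [cond_true]
    have h0 := inv_dia (L.getD (t / 2) 0) (t / 2) N (0, 0) _ inv_zero (fun _ _ _ h => h)
    refine (inv_cvt N _ _ 0 _ _ h0 ?_).congr fun n y => ?_
    · rintro n i a - hi (h1 | ⟨h1, -⟩)
      · exact h1
      · rw [hlen] at hi
        simp only at h1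
        omega
    · constructor
      · rintro ((h1 | ⟨h1, h2, h3, h4, h5⟩) | ⟨k, hk1, hk2, h1, h2, h3, h4, h5⟩)
        · exact h1.elim
        · refine ⟨Or.inr ⟨by omega, h4⟩, h2, by omega, by rwa [h1], ?_⟩
          rwa [show t - y.1 = t / 2 by omega]
        · rw [hlen] at hk1
          rw [zero_add] at h1
          rw [← h1] at hk1 h3 h5
          rw [getD_take (by omega)] at h3
          rw [getD_rev_take ht (by omega)] at h5
          exact ⟨Or.inl (by omega), h2, h4, h3, h5⟩
      · rintro ⟨h1 | ⟨h1, h1'⟩, h2, h3, h4, h5⟩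
        · refine Or.inr ⟨y.1, by rw [hlen]; omega, by rw [hlen']; omega, by omega, h2, ?_, h3, ?_⟩
          · rwa [getD_take (by omega)]
          · rwa [getD_rev_take ht (by omega)]
        · refine Or.inl (Or.inr ⟨by omega, h2, ?_, h1', ?_⟩)
          · rwa [show t / 2 = y.1 by omega]
          · rwa [show t / 2 = t - y.1 by omega]
  | false =>
    have hpar' : t % 2 ≠ 0 := by
      intro h
      rw [← Nat.beq_eq, hpar] at h
      exact Bool.false_ne_true h
    simp only [cond_false]
    refine (inv_cvt N _ _ 0 _ _ inv_zero (fun _ _ _ _ _ h => h)).congr fun n y => ?_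
    constructor
    · rintro (h1 | ⟨k, hk1, hk2, h1, h2, h3, h4, h5⟩)
      · exact h1.elim
      · rw [hlen] at hk1
        rw [zero_add] at h1
        rw [← h1] at hk1 h3 h5
        rw [getD_take (by omega)] at h3
        rw [getD_rev_take ht (by omega)] at h5
        exact ⟨Or.inl (by omega), h2, h4, h3, h5⟩
    · rintro ⟨h1 | ⟨h1, h1'⟩, h2, h3, h4, h5⟩
      · refine Or.inr ⟨y.1, by rw [hlen]; omega, by rw [hlen']; omega, by omega, h2, ?_, h3, ?_⟩
        · rwa [getD_take (by omega)]
        · rwa [getD_rev_take ht (by omega)]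
      · omega

theorem inv_outer (m J w t : ℕ) (L : List ℕ) (hw : t + 1 + w ≤ L.length) (p : ℕ × ℕ)
    (Q : ℕ → ℕ × ℕ → Prop) (hp : Inv p Q) (hQ : ∀ n y, Q n y → y.1 ≤ t) :
    Inv (outer m J w t L p) (fun n y => Q n y ∨ (t < y.1 ∧ y.1 ≤ t + w ∧ y.2 < J ∧
      (L.getD y.1 0).testBit y.2 = true ∧ y.2 + m ≤ n ∧
      (L.getD (L.length - (y.1 - t)) 0).testBit (n - y.2 - m) = true)) := by
  have hlen : ((L.drop (t + 1)).take w).length = w := by
    rw [List.length_take, List.length_drop]
    omega
  have hlen' : ((L.reverse.take w).map fun A => Nat.shiftLeft A m).length = w := by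
    rw [List.length_map, List.length_take, List.length_reverse]
    omega
  have hg : ∀ k, k < w → ((L.drop (t + 1)).take w).getD k 0 = L.getD (t + 1 + k) 0 := by
    intro k hk
    rw [getD_take hk, getD_drop]
  have hg' : ∀ k, k < w → ((L.reverse.take w).map fun A => Nat.shiftLeft A m).getD k 0 =
      Nat.shiftLeft (L.getD (L.length - 1 - k) 0) m := by
    intro k hk
    have h1 : ((L.reverse.take w).map fun A => Nat.shiftLeft A m).getD k 0 =
        Nat.shiftLeft ((L.reverse.take w).getD k 0) m := by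
      rw [List.getD_eq_getElem?_getD, List.getD_eq_getElem?_getD, List.getElem?_map]
      have h2 : k < (L.reverse.take w).length := by
        rw [List.length_take, List.length_reverse]
        omega
      rw [List.getElem?_eq_getElem h2]
      rfl
    rw [h1, getD_take hk, getD_rev (by omega)]
  unfold outer
  refine (inv_cvt J _ _ (t + 1) p Q hp ?_).congr fun n y => ?_
  · intro n i a hi _ h1
    have := hQ n (i, a) h1
    simp only at this
    omega
  · constructor
    · rintro (h1 | ⟨k, hk1, hk2, h1, h2, h3, h4, h5⟩)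
      · exact Or.inl h1
      · rw [hlen] at hk1
        rw [hg k hk1, ← h1] at h3
        rw [hg' k hk1, bit_shl] at h5
        refine Or.inr ⟨by omega, by omega, h2, h3, by omega, ?_⟩
        rw [show L.length - (y.1 - t) = L.length - 1 - k by omega]
        exact h5.2
    · rintro (h1 | ⟨h1, h2, h3, h4, h5, h6⟩)
      · exact Or.inl h1
      · refine Or.inr ⟨y.1 - (t + 1), by rw [hlen]; omega, by rw [hlen']; omega, by omega, h3, ?_,
          by omega, ?_⟩
        · rw [hg _ (by omega), show t + 1 + (y.1 - (t + 1)) = y.1 by omega]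
          exact h4
        · rw [hg' _ (by omega), bit_shl]
          refine ⟨by omega, ?_⟩
          rw [show L.length - 1 - (y.1 - (t + 1)) = L.length - (y.1 - t) by omega]
          exact h6

/-! ### cells -/

section cells

variable {u m : ℕ} (hu : 7 ≤ u) (hm : 3 ≤ m) (hco : Nat.Coprime m u) {X : ℤ → Bool}
  (hX : Seq u m X)

include hu hm hco hX

theorem col_nonneg {t : ℕ} (ht : t < u) {c a : ℤ} (ha : X a = true) (hac : a = m * t + u * c) :
    0 ≤ c := by
  by_contra hc
  have h1 := CE.J1.neg_col u m (by omega) (by omega) hco hX (a.toNat + 1) a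
    (by have := Int.self_le_toNat a; push_cast; omega) t ht c (by omega) hac
  rw [ha] at h1
  exact Bool.false_ne_true h1.symm

theorem rep_cells {t c : ℕ} (ht : t < u) {a b : ℤ} (ha : X a = true) (hb : X b = true)
    (hab : a + b = m * t + u * c) : ∃ s α s' β : ℕ, s < u ∧ s' < u ∧ a = m * s + u * α ∧
      b = m * s' + u * β ∧ ((s + s' = t ∧ α + β = c) ∨ (s + s' = t + u ∧ α + β + m = c)) := by
  obtain ⟨s, hs, α, hα⟩ := CE.J1.cell_exists u m (by omega) hco a
  obtain ⟨s', hs', β, hβ⟩ := CE.J1.cell_exists u m (by omega) hco b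
  have hα0 := col_nonneg hu hm hco hX hs ha hα
  have hβ0 := col_nonneg hu hm hco hX hs' hb hβ
  lift α to ℕ using hα0
  lift β to ℕ using hβ0
  refine ⟨s, α, s', β, hs, hs', hα, hβ, ?_⟩
  rw [hα, hβ] at hab
  rcases Nat.lt_or_ge (s + s') u with h1 | h1
  · left
    have h2 := CE.J1.cell_unique u m hco (s + s') t h1 ht (α + β) c (by
      push_cast
      linear_combination hab)
    exact ⟨h2.1, by exact_mod_cast h2.2⟩
  · right
    have h2 := CE.J1.cell_unique u m hco (s + s' - u) t (by omega) ht (α + β + m) c (by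
      push_cast [Nat.cast_sub h1]
      linear_combination hab)
    exact ⟨by omega, by exact_mod_cast h2.2⟩

omit hu hm hX in
/-- a witness: the smaller entry in the order of the cells -/
def Wit (_ : Nat.Coprime m u) (X : ℤ → Bool) (K : ℤ) (y : ℕ × ℕ) : Prop :=
  y.1 < u ∧ ∃ s' b : ℕ, s' < u ∧ (y.1 < s' ∨ (y.1 = s' ∧ y.2 < b)) ∧
    X (m * y.1 + u * y.2) = true ∧ X (m * s' + u * b) = true ∧
    (m * y.1 + u * y.2 : ℤ) + (m * s' + u * b) = K

omit hu hm hX in
theorem two_of_wit {K : ℤ} {y z : ℕ × ℕ} (hy : Wit hco X K y) (hz : Wit hco X K z) (hne : y ≠ z) :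
    Two X K := by
  obtain ⟨hy0, s, b, hs, hlt, h1, h2, h3⟩ := hy
  obtain ⟨hz0, s', b', hs', hlt', h1', h2', h3'⟩ := hz
  have hpq : (m * y.1 + u * y.2 : ℤ) ≠ m * s + u * b := by
    intro h
    have h4 := CE.J1.cell_unique u m hco _ _ hy0 hs _ _ h
    have h5 : y.2 = b := by exact_mod_cast h4.2
    omega
  have hpq' : (m * z.1 + u * z.2 : ℤ) ≠ m * s' + u * b' := by
    intro h
    have h4 := CE.J1.cell_unique u m hco _ _ hz0 hs' _ _ h
    have h5 : z.2 = b' := by exact_mod_cast h4.2
    omega
  have hpp : (m * y.1 + u * y.2 : ℤ) ≠ m * z.1 + u * z.2 := by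
    intro h
    have h4 := CE.J1.cell_unique u m hco _ _ hy0 hz0 _ _ h
    exact hne (Prod.ext h4.1 (by exact_mod_cast h4.2))
  have hpw : (m * y.1 + u * y.2 : ℤ) ≠ m * s' + u * b' := by
    intro h
    have h4 := CE.J1.cell_unique u m hco _ _ hy0 hs' _ _ h
    have h5 : y.2 = b' := by exact_mod_cast h4.2
    have h6 := CE.J1.cell_unique u m hco _ _ hs hz0 (b : ℤ) z.2 (by linarith)
    have h7 : b = z.2 := by exact_mod_cast h6.2
    have h8 := h4.1
    have h9 := h6.1
    omega
  set p : ℤ := m * y.1 + u * y.2 with hp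
  set q : ℤ := m * s + u * b with hq
  set p' : ℤ := m * z.1 + u * z.2 with hp'
  set q' : ℤ := m * s' + u * b' with hq'
  have hr : ∀ a b : ℤ, X a = true → X b = true → a + b = K → a < b → Rep X K a := by
    intro a b ha hb hab hlt
    refine ⟨ha, ?_, by linarith⟩
    rw [show K - a = b by linarith]
    exact hb
  rcases lt_or_gt_of_ne hpq with h4 | h4 <;> rcases lt_or_gt_of_ne hpq' with h5 | h5
  · exact ⟨p, p', hpp, hr p q h1 h2 h3 h4, hr p' q' h1' h2' h3' h5⟩
  · exact ⟨p, q', hpw, hr p q h1 h2 h3 h4, hr q' p' h2' h1' (by linarith) h5⟩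
  · refine ⟨q, p', ?_, hr q p h2 h1 (by linarith) h4, hr p' q' h1' h2' h3' h5⟩
    intro h
    apply hpw
    linarith
  · refine ⟨q, q', ?_, hr q p h2 h1 (by linarith) h4, hr q' p' h2' h1' (by linarith) h5⟩
    intro h
    apply hpp
    linarith

end cells

theorem spec_spec {m : ℕ} {L : List ℕ} (h : spec m L = true) :
    2 < L.length ∧ L.getD 0 0 % 2 ^ m = 1 ∧ (L.getD 0 0).testBit m = true ∧
      (L.getD 0 0).testBit (m + 1) = true ∧ (L.getD 0 0).testBit (2 * m + 1) = false ∧
      L.getD 1 0 % 2 ^ m = 2 ^ m - 1 ∧ ∀ t, 1 ≤ t → t < L.length →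
        (t % 2 = 1 → (L.getD t 0).testBit (m + 1) = false) ∧
        (t % 2 = 0 → L.getD t 0 % 2 ^ (m + 2) = 1) := by
  match L, h with
  | A0 :: A1 :: A2 :: l, h =>
    have e : spec m (A0 :: A1 :: A2 :: l) = (Nat.beq (Nat.mod A0 (Nat.shiftLeft 1 m)) 1 &&
      tb A0 m && tb A0 (m + 1) && !(tb A0 (2 * m + 1)) &&
      Nat.beq (Nat.mod A1 (Nat.shiftLeft 1 m)) (Nat.sub (Nat.shiftLeft 1 m) 1) &&
      parity m true (A1 :: A2 :: l)) := rfl
    rw [e] at h
    simp only [Bool.and_eq_true, Nat.beq_eq, shl_one, tb_eq, Bool.not_eq_true'] at h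
    obtain ⟨⟨⟨⟨⟨h1, h2⟩, h3⟩, h4⟩, h5⟩, h6⟩ := h
    refine ⟨by simp, h1, h2, h3, h4, h5, ?_⟩
    intro t ht1 ht2
    obtain ⟨k, rfl⟩ : ∃ k, t = k + 1 := ⟨t - 1, by omega⟩
    rw [List.length_cons] at ht2
    have h7 := parity_spec m _ true h6 k (by omega)
    rw [List.getD_cons_succ]
    constructor
    · intro h8
      rw [if_pos] at h7
      · exact h7
      · apply propext
        constructor
        · intro _
          rfl
        · intro _
          omega
    · intro h8
      rw [if_neg] at h7
      · exact h7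
      · intro h9
        have h10 : (k % 2 = 0) := by
          rw [h9]
        omega

theorem bit_of_mod_one {A n a : ℕ} (h : A % 2 ^ n = 1) (ha : a < n) (hb : A.testBit a = true) :
    a = 0 := by
  have h1 : (A % 2 ^ n).testBit a = true := by
    rw [Nat.testBit_mod_two_pow, hb]
    simpa using ha
  rw [h] at h1
  by_contra h2
  obtain ⟨b, rfl⟩ : ∃ b, a = b + 1 := ⟨a - 1, by omega⟩
  rw [Nat.testBit_succ] at h1
  simp at h1

theorem bit_zero_of_mod_one {A n : ℕ} (h : A % 2 ^ n = 1) :
    A.testBit 0 = true := by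
  have h1 : (A % 2 ^ n).testBit 0 = true := by
    rw [h]
    decide
  rw [Nat.testBit_mod_two_pow, Bool.and_eq_true] at h1
  exact h1.2

theorem bit_of_mod_full {A n a : ℕ} (h : A % 2 ^ n = 2 ^ n - 1) (ha : a < n) :
    A.testBit a = true := by
  have h1 : (A % 2 ^ n).testBit a = true := by
    rw [h, Nat.testBit_two_pow_sub_one]
    simpa using ha
  rw [Nat.testBit_mod_two_pow, Bool.and_eq_true] at h1
  exact h1.2

section main

variable {u m N d : ℕ} (hu : 7 ≤ u) (hodd : u % 2 = 1) (hm : 3 ≤ m) (hco : Nat.Coprime m u)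
  {L : List ℕ} {R : ℕ → ℕ} (hR : Red u d L R) {X : ℤ → Bool} (hX : Seq u m X)
  (cell : ∀ t c : ℕ, t < u → c < N → X (m * t + u * c) = (R t).testBit c)

/-- the parity of the rows -/
theorem par_row (hd : 2 ≤ d) (hR : Red u d L R) (hpar : ∀ t, 1 ≤ t → t < L.length →
    (t % 2 = 1 → (L.getD t 0).testBit (m + 1) = false) ∧
    (t % 2 = 0 → L.getD t 0 % 2 ^ (m + 2) = 1)) {t : ℕ} (h1 : 1 ≤ t) (ht : t < u) :
    (t % 2 = 1 → (R t).testBit (m + 1) = false) ∧ (t % 2 = 0 → R t % 2 ^ (m + 2) = 1) := by
  obtain ⟨t', ht', h2, h3, h4⟩ := hR.red t ht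
  have h5 := h4 0 (Nat.zero_le d) (Nat.zero_le t)
  rw [Nat.sub_zero, Nat.sub_zero] at h5
  rw [h5, ← h3]
  exact hpar t' (by omega) ht'

include hu hm hco hX cell

theorem part_a (hN : 2 * m + 2 ≤ N) (h0 : R 0 % 2 ^ m = 1) (h1 : R 1 % 2 ^ m = 2 ^ m - 1)
    {c : ℕ} (hc : c < m) (a : ℤ) : Rep X (m + u * c) a ↔ a = 0 := by
  have hK : (0 : ℤ) < m + u * c := by
    have h2 : (0 : ℤ) < m := by exact_mod_cast (by omega : 0 < m)
    have h3 : (0 : ℤ) ≤ u * c := by positivity
    linarith
  constructor
  · rintro ⟨ha, hb, hlt⟩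
    obtain ⟨s, α, s', β, hs, hs', hα, hβ, h2⟩ := rep_cells hu hm hco hX (t := 1) (c := c)
      (by omega) ha hb (by push_cast; ring)
    rcases h2 with ⟨h2, h3⟩ | ⟨h2, h3⟩
    · rcases Nat.eq_zero_or_pos s with h4 | h4
      · subst h4
        have h5 := cell 0 α (by omega) (by omega)
        rw [← hα, ha] at h5
        have h6 := bit_of_mod_one h0 (by omega : α < m) h5.symm
        rw [hα, h6]
        simp
      · have h4' : s' = 0 := by omega
        subst h4'
        have h5 := cell 0 β (by omega) (by omega)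
        rw [← hβ, hb] at h5
        have h6 := bit_of_mod_one h0 (by omega : β < m) h5.symm
        rw [h6] at hβ
        have h7 : (m : ℤ) + u * c - a = 0 := by
          rw [hβ]
          simp
        linarith
    · omega
  · intro h2
    subst h2
    refine ⟨hX.zero, ?_, by linarith⟩
    have h3 := cell 1 c (by omega) (by omega)
    rw [bit_of_mod_full h1 hc] at h3
    rw [← h3]
    congr 1
    push_cast
    ring

include hodd in
theorem part_b (hN : 2 * m + 2 ≤ N) (h0 : R 0 % 2 ^ m = 1) (h1 : (R 0).testBit m = true)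
    (h2 : (R 0).testBit (m + 1) = true) (h3 : (R 0).testBit (2 * m + 1) = false)
    (hpar : ∀ t, 1 ≤ t → t < u → (t % 2 = 1 → (R t).testBit (m + 1) = false) ∧
      (t % 2 = 0 → R t % 2 ^ (m + 2) = 1)) (a : ℤ) :
    Rep X (u * (2 * m + 1)) a ↔ a = u * m := by
  have hu0 : (0 : ℤ) < u := by exact_mod_cast (by omega : 0 < u)
  constructor
  · rintro ⟨ha, hb, hlt⟩
    obtain ⟨s, α, s', β, hs, hs', hα, hβ, h4⟩ := rep_cells hu hm hco hX (t := 0) (c := 2 * m + 1)
      (by omega) ha hb (by push_cast; ring)
    rcases h4 with ⟨h4, h5⟩ | ⟨h4, h5⟩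
    · have h6 : s = 0 := by omega
      have h7 : s' = 0 := by omega
      subst h6 h7
      have h8 := cell 0 α (by omega) (by omega)
      rw [← hα, ha] at h8
      have h9 := cell 0 β (by omega) (by omega)
      rw [← hβ, hb] at h9
      have h10 : (2 * α : ℤ) < 2 * m + 1 := by
        rw [hα] at hlt
        have h11 : (u : ℤ) * (2 * α) < u * (2 * m + 1) := by
          push_cast at hlt
          linarith
        exact lt_of_mul_lt_mul_left h11 hu0.le
      have h11 : α ≤ m := by
        have h12 : 2 * α < 2 * m + 1 := by exact_mod_cast h10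
        omega
      rcases Nat.lt_or_ge α m with h12 | h12
      · have h13 := bit_of_mod_one h0 h12 h8.symm
        have h14 : β = 2 * m + 1 := by omega
        rw [h14, h3] at h9
        exact absurd h9.symm Bool.false_ne_true
      · have h13 : α = m := by omega
        rw [hα, h13]
        simp
    · exfalso
      have h8 := cell s α hs (by omega)
      rw [← hα, ha] at h8
      have h9 := cell s' β hs' (by omega)
      rw [← hβ, hb] at h9
      have hps := hpar s (by omega) hs
      have hps' := hpar s' (by omega) hs'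
      rcases Nat.mod_two_eq_zero_or_one s with h10 | h10
      · have h11 := bit_of_mod_one (hps.2 h10) (by omega : α < m + 2) h8.symm
        have h12 : β = m + 1 := by omega
        rw [h12, hps'.1 (by omega)] at h9
        exact Bool.false_ne_true h9.symm
      · have h11 := bit_of_mod_one (hps'.2 (by omega)) (by omega : β < m + 2) h9.symm
        have h12 : α = m + 1 := by omega
        rw [h12, hps.1 h10] at h8
        exact Bool.false_ne_true h8.symm
  · intro h4
    subst h4
    refine ⟨?_, ?_, ?_⟩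
    · have h5 := cell 0 m (by omega) (by omega)
      rw [h1] at h5
      rw [← h5]
      congr 1
      push_cast
      ring
    · have h5 := cell 0 (m + 1) (by omega) (by omega)
      rw [h2] at h5
      rw [← h5]
      congr 1
      push_cast
      ring
    · linarith

omit hco in
theorem part_c (hN : 2 * m + 2 ≤ N) (h1 : R 1 % 2 ^ m = 2 ^ m - 1)
    (h2 : R 2 % 2 ^ (m + 2) = 1) {c : ℕ} (hc : c < 3) : ∃ a : ℤ, Rep X (2 * m + u * c) a := by
  have hm0 : (0 : ℤ) < m := by exact_mod_cast (by omega : 0 < m)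
  have hu0 : (0 : ℤ) < u := by exact_mod_cast (by omega : 0 < u)
  rcases Nat.eq_zero_or_pos c with h3 | h3
  · subst h3
    refine ⟨0, hX.zero, ?_, ?_⟩
    · have h4 := cell 2 0 (by omega) (by omega)
      rw [bit_zero_of_mod_one h2] at h4
      rw [← h4]
      congr 1
      push_cast
      ring
    · push_cast
      linarith
  · refine ⟨m, ?_, ?_, ?_⟩
    · have h4 := cell 1 0 (by omega) (by omega)
      rw [bit_of_mod_full h1 (by omega)] at h4
      rw [← h4]
      congr 1
      push_cast
      ring
    · have h4 := cell 1 c (by omega) (by omega)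
      rw [bit_of_mod_full h1 (by omega)] at h4
      rw [← h4]
      congr 1
      push_cast
      ring
    · have h4 : (0 : ℤ) < u * c := by
        have h5 : (0 : ℤ) < c := by exact_mod_cast h3
        positivity
      linarith

omit hu hm hX in
theorem wit {t c s s' α β : ℕ} (hs : s < u) (hs' : s' < u) (hα : α < N) (hβ : β < N)
    (hlt : s < s' ∨ (s = s' ∧ α < β)) (h1 : (R s).testBit α = true)
    (h2 : (R s').testBit β = true)
    (h3 : (m * s + u * α : ℤ) + (m * s' + u * β) = m * t + u * c) :
    Wit hco X (m * t + u * c) (s, α) := by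
  refine ⟨hs, s', β, hs', hlt, ?_, ?_, h3⟩
  · rw [cell s α hs hα]
    exact h1
  · rw [cell s' β hs' hβ]
    exact h2

include hR

omit hu hm hX in
theorem wit_inner {t c : ℕ} (ht : t < L.length) (hc : c < N) {y : ℕ × ℕ}
    (h : (2 * y.1 < t ∨ (2 * y.1 = t ∧ 2 * y.2 < c)) ∧ y.2 < N ∧
      y.2 ≤ c ∧ (L.getD y.1 0).testBit y.2 = true ∧
      (L.getD (t - y.1) 0).testBit (c - y.2) = true) : Wit hco X (m * t + u * c) y := by
  obtain ⟨h1, h2, h3, h4, h5⟩ := h
  have hlen := hR.len
  have h6 : y.1 ≤ t := by omega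
  refine wit (R := R) (N := N) hco cell (s := y.1) (α := y.2) (s' := t - y.1) (β := c - y.2)
    (by omega) (by omega) h2 (by omega) (by omega) ?_ ?_ ?_
  · rw [hR.start y.1 (by omega)]
    exact h4
  · rw [hR.start (t - y.1) (by omega)]
    exact h5
  · push_cast [Nat.cast_sub h6, Nat.cast_sub h3]
    ring

omit hu hm hX in
theorem wit_outer {t c w J : ℕ} (ht : t + 2 * w < L.length) (hw : w ≤ d) (hJ : J ≤ N) (hc : c < N)
    {y : ℕ × ℕ} (h : t < y.1 ∧ y.1 ≤ t + w ∧ y.2 < J ∧
      (L.getD y.1 0).testBit y.2 = true ∧ y.2 + m ≤ c ∧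
      (L.getD (L.length - (y.1 - t)) 0).testBit (c - y.2 - m) = true) :
    Wit hco X (m * t + u * c) y := by
  obtain ⟨h1, h2, h3, h4, h5, h6⟩ := h
  have hlen := hR.len
  refine wit (R := R) (N := N) hco cell (s := y.1) (α := y.2) (s' := u - (y.1 - t))
    (β := c - y.2 - m) (by omega) (by omega) (by omega) (by omega) (by omega) ?_ ?_ ?_
  · rw [hR.start y.1 (by omega)]
    exact h4
  · rw [hR.stop (y.1 - t) (by omega) (by omega)]
    exact h6
  · have h7 : ((u - (y.1 - t) : ℕ) : ℤ) = u - (y.1 - t) := by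
      rw [Nat.cast_sub (by omega), Nat.cast_sub (by omega)]
    have h8 : ((c - y.2 - m : ℕ) : ℤ) = c - y.2 - m := by
      rw [Nat.cast_sub (by omega), Nat.cast_sub (by omega)]
    rw [h7, h8]
    ring

theorem no_rep {t c : ℕ} (ht : t < L.length) (hc : c < N)
    (h : (inner N t L).1.testBit c = false)
    (hseam : ∀ s α s' β : ℕ, s < u → s' < u → s + s' = t + u → α + β + m = c →
      (R s).testBit α = true → (R s').testBit β = true → False) (a : ℤ) :
    ¬ Rep X (m * t + u * c) a := by
  rintro ⟨ha, hb, hlt⟩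
  have hlen := hR.len
  have hI := (inv_inner N t L ht).one c
  have hno : ∀ s α s' β : ℕ, s + s' = t → α + β = c → (2 * s < t ∨ (2 * s = t ∧ 2 * α < c)) →
      (R s).testBit α = true → (R s').testBit β = true → False := by
    intro s α s' β h1 h2 h3 h4 h5
    rw [hR.start s (by omega)] at h4
    rw [hR.start s' (by omega)] at h5
    have h6 : (inner N t L).1.testBit c = true := by
      rw [hI]
      refine ⟨(s, α), h3, by simp only; omega, by simp only; omega, h4, ?_⟩
      simp only
      rw [show t - s = s' by omega, show c - α = β by omega]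
      exact h5
    rw [h] at h6
    exact Bool.false_ne_true h6
  obtain ⟨s, α, s', β, hs, hs', hα, hβ, h1⟩ := rep_cells hu hm hco hX (t := t) (c := c)
    (by omega) ha hb (by ring)
  have h3 : (R s).testBit α = true := by
    rw [← cell s α hs (by omega), ← hα]
    exact ha
  have h4 : (R s').testBit β = true := by
    rw [← cell s' β hs' (by omega), ← hβ]
    exact hb
  rcases h1 with ⟨h1, h2⟩ | ⟨h1, h2⟩
  · have h5 : ¬ (s = s' ∧ α = β) := by
      rintro ⟨h5, h6⟩
      rw [h5, h6] at hα
      rw [← hβ] at hα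
      linarith
    rcases Nat.lt_trichotomy s s' with h6 | h6 | h6
    · exact hno s α s' β h1 h2 (by omega) h3 h4
    · rcases Nat.lt_trichotomy α β with h7 | h7 | h7
      · exact hno s α s' β h1 h2 (by omega) h3 h4
      · exact h5 ⟨h6, h7⟩
      · exact hno s' β s α (by omega) (by omega) (by omega) h4 h3
    · exact hno s' β s α (by omega) (by omega) (by omega) h4 h3
  · exact hseam s α s' β hs hs' h1 h2 h3 h4

omit hu hm hX in
theorem part_late {J sm : ℕ} (hsm : 1 ≤ sm) (hL : 2 * sm ≤ L.length) (hd : 2 * sm ≤ d) (hJ : J ≤ N)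
    (h : late J N sm (L.take sm) 0 [] L = true) {t c : ℕ} (ht : t < u) (ht' : 2 * sm < t + 2)
    (hc : c < N) : Two X (m * t + u * c) := by
  have hlen := hR.len
  obtain ⟨t', h1, h2, h3, h4⟩ := hR.red t ht
  have h5 : full N (cvt J (L.take sm) ((L.take (t' + 1)).reverse ++ []) (0, 0)).2 = true := by
    rcases late_spec J N sm (L.take sm) L [] 0 h t' h1 with h5 | h5
    · omega
    · exact h5
  rw [List.append_nil] at h5
  have h6 := full_bit h5 c hc
  have hI := inv_cvt J (L.take sm) (L.take (t' + 1)).reverse 0 (0, 0) _ inv_zero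
    (fun _ _ _ _ _ h => h)
  rw [hI.two c] at h6
  obtain ⟨x, y, hne, hx, hy⟩ := h6
  have hw : ∀ y : ℕ × ℕ, WT J 0 (L.take sm) (L.take (t' + 1)).reverse c y →
      Wit hco X (m * t + u * c) y := by
    rintro y ⟨k, hk1, hk2, e1, e2, e3, e4, e5⟩
    rw [List.length_take] at hk1
    rw [zero_add] at e1
    rw [getD_take (by omega)] at e3
    rw [getD_rev_take h1 (by omega)] at e5
    have h7 : k ≤ t := by omega
    refine wit (R := R) (N := N) hco cell (s := y.1) (α := y.2) (s' := t - k) (β := c - y.2)
      (by omega) (by omega) (by omega) (by omega) (by omega) ?_ ?_ ?_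
    · rw [e1, hR.start k (by omega)]
      exact e3
    · rw [h4 k (by omega) h7]
      exact e5
    · rw [e1]
      push_cast [Nat.cast_sub h7, Nat.cast_sub e4]
      ring
  exact two_of_wit hco (hw x (hx.resolve_left id)) (hw y (hy.resolve_left id)) hne

include hodd in
theorem part_early {J w : ℕ} {t c : ℕ} (ht : t + 2 * w < L.length) (hw : w ≤ d) (hJ : J ≤ N)
    (hpar : ∀ t, 1 ≤ t → t < u → (t % 2 = 1 → (R t).testBit (m + 1) = false) ∧
      (t % 2 = 0 → R t % 2 ^ (m + 2) = 1))
    (hc : c < N) (hc0 : t = 0 → c ≠ 2 * m + 1) (hc1 : t = 1 → m ≤ c) (hc2 : t = 2 → 3 ≤ c)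
    (h : full N (Nat.lor (outer m J w t L (inner N t L)).2 (exc m t (inner N t L).1)) = true) :
    Two X (m * t + u * c) ∨
      (t ≠ 1 ∧ (t = 2 → 2 * m ≤ c + 1) ∧ ∀ a : ℤ, ¬ Rep X (m * t + u * c) a) := by
  have hlen := hR.len
  have h1 : ((outer m J w t L (inner N t L)).2 ||| (exc m t (inner N t L).1)).testBit c = true :=
    full_bit h c hc
  rw [Nat.testBit_or, Bool.or_eq_true] at h1
  rcases h1 with h1 | h1
  · left
    have hI := inv_outer m J w t L (by omega) (inner N t L) _ (inv_inner N t L (by omega)) (by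
      rintro n y ⟨h2, -⟩
      omega)
    rw [hI.two c] at h1
    obtain ⟨x, y, hne, hx, hy⟩ := h1
    refine two_of_wit hco ?_ ?_ hne
    · rcases hx with hx | hx
      · exact wit_inner hco hR cell (by omega) hc hx
      · exact wit_outer hco hR cell ht hw hJ hc hx
    · rcases hy with hy | hy
      · exact wit_inner hco hR cell (by omega) hc hy
      · exact wit_outer hco hR cell ht hw hJ hc hy
  · unfold exc at h1
    cases ht1 : Nat.beq t 1 with
    | true =>
      rw [Nat.beq_eq] at ht1
      subst ht1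
      exfalso
      have h2 : (2 ^ m - 1).testBit c = true := by
        have h3 : Nat.sub (Nat.shiftLeft 1 m) 1 = 2 ^ m - 1 := by
          rw [shl_one]
          rfl
        rw [← h3]
        exact h1
      rw [Nat.testBit_two_pow_sub_one, decide_eq_true_iff] at h2
      have := hc1 rfl
      omega
    | false =>
      have ht1' : t ≠ 1 := by
        intro h2
        rw [← Nat.beq_eq, ht1] at h2
        exact Bool.false_ne_true h2
      rw [ht1, cond_false] at h1
      cases ht2 : Nat.beq t 2 with
      | true =>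
        rw [ht2, cond_true, tb_eq] at h1
        rw [Nat.beq_eq] at ht2
        subst ht2
        have h3c := hc2 rfl
        cases ho : (inner N 2 L).1.testBit (2 * m + 1) with
        | true =>
          rw [ho, cond_true] at h1
          exfalso
          have h2 : (2 ^ 3 - 1).testBit c = true := h1
          rw [Nat.testBit_two_pow_sub_one, decide_eq_true_iff] at h2
          omega
        | false =>
          rw [ho, cond_false, shl_one] at h1
          have h2 : ((2 ^ 3 - 1) ||| 2 ^ (2 * m + 1)).testBit c = true := h1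
          rw [Nat.testBit_or, Nat.testBit_two_pow_sub_one, Nat.testBit_two_pow, Bool.or_eq_true,
            decide_eq_true_iff, decide_eq_true_iff] at h2
          have h3 : c = 2 * m + 1 := by omega
          subst h3
          right
          refine ⟨by omega, fun _ => by omega, ?_⟩
          refine no_rep hu hm hco hR hX cell (by omega) hc ho ?_
          intro s α s' β hs hs' e1 e2 e3 e4
          have hps := hpar s (by omega) hs
          have hps' := hpar s' (by omega) hs'
          rcases Nat.mod_two_eq_zero_or_one s with h10 | h10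
          · have h11 := bit_of_mod_one (hps.2 h10) (by omega : α < m + 2) e3
            have h12 : β = m + 1 := by omega
            rw [h12, hps'.1 (by omega)] at e4
            exact Bool.false_ne_true e4
          · have h11 := bit_of_mod_one (hps'.2 (by omega)) (by omega : β < m + 2) e4
            have h12 : α = m + 1 := by omega
            rw [h12, hps.1 h10] at e3
            exact Bool.false_ne_true e3
      | false =>
        have ht2' : t ≠ 2 := by
          intro h2
          rw [← Nat.beq_eq, ht2] at h2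
          exact Bool.false_ne_true h2
        rw [ht2, cond_false] at h1
        have h2 : (((2 ^ m - 1) ^^^ ((inner N t L).1 % 2 ^ m)) |||
            (bif Nat.beq t 0 then 2 ^ (2 * m + 1) else 0)).testBit c = true := by
          have h3 : Nat.lor (Nat.xor (Nat.sub (Nat.shiftLeft 1 m) 1)
              (Nat.mod (inner N t L).1 (Nat.shiftLeft 1 m)))
              (bif Nat.beq t 0 then Nat.shiftLeft 1 (2 * m + 1) else 0) =
              (((2 ^ m - 1) ^^^ ((inner N t L).1 % 2 ^ m)) |||
              (bif Nat.beq t 0 then 2 ^ (2 * m + 1) else 0)) := by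
            rw [shl_one, shl_one]
            rfl
          rw [← h3]
          exact h1
        rw [Nat.testBit_or, Bool.or_eq_true] at h2
        rcases h2 with h2 | h2
        · right
          refine ⟨ht1', fun h3 => absurd h3 ht2', ?_⟩
          rw [Nat.testBit_xor, Nat.testBit_two_pow_sub_one, Nat.testBit_mod_two_pow] at h2
          by_cases h3 : c < m
          · have h4 : (inner N t L).1.testBit c = false := by
              simpa [h3] using h2
            exact no_rep hu hm hco hR hX cell (by omega) hc h4 (by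
              intro s α s' β _ _ _ h5
              omega)
          · simp [h3] at h2
        · exfalso
          cases ht0 : Nat.beq t 0 with
          | true =>
            rw [ht0, cond_true, Nat.testBit_two_pow, decide_eq_true_iff] at h2
            rw [Nat.beq_eq] at ht0
            exact hc0 ht0 h2.symm
          | false =>
            rw [ht0, cond_false] at h2
            simp at h2

end main

end Pr

open Pr

theorem tagl_eq : ∀ (L : List ℕ) (i : ℕ), tagl i L = L
  | [], _ => rfl
  | A :: l, i => by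
    rw [tagl, tagl_eq l]
    have h : Nat.lor A (Nat.shiftLeft 0 i) = A := by
      have e1 : Nat.shiftLeft 0 i = 0 := by
        have : Nat.shiftLeft 0 i = 0 <<< i := rfl
        rw [this, Nat.zero_shiftLeft]
      rw [e1]
      have e2 : Nat.lor A 0 = A ||| 0 := rfl
      rw [e2, Nat.or_zero]
    rw [h]


theorem pairs_sound (u m N J J' sm w d : ℕ) (hu : 7 ≤ u) (hodd : u % 2 = 1) (hm : 3 ≤ m)
    (hev : m % 2 = 0) (hco : Nat.Coprime m u) (L : List ℕ) (R : ℕ → ℕ) (hR : Red u d L R)
    (hd : 2 * sm ≤ d) (hw : w ≤ d) (hJ : J ≤ N) (hJ' : J' ≤ N)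
    (h : pairsOk m N J J' sm w L = true) (X : ℤ → Bool) (hX : Seq u m X)
    (cell : ∀ t c : ℕ, t < u → c < N → X (m * t + u * c) = (R t).testBit c) :
    (∀ c : ℕ, c < m → ∀ a : ℤ, Rep X (m + u * c) a ↔ a = 0) ∧
    (∀ a : ℤ, Rep X (u * (2 * m + 1)) a ↔ a = u * m) ∧
    (∀ c : ℕ, c < 3 → ∃ a : ℤ, Rep X (2 * m + u * c) a) ∧
    (∀ t c : ℕ, t < u → c < N → (t = 0 → c ≠ 2 * m + 1) → (t = 1 → m ≤ c) → (t = 2 → 3 ≤ c) →
      Two X (m * t + u * c) ∨
        (t ≠ 1 ∧ (t = 2 → 2 * m ≤ c + 1) ∧ ∀ a : ℤ, ¬ Rep X (m * t + u * c) a)) := by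
  unfold pairsOk at h
  simp only [Bool.and_eq_true, Nat.ble_eq] at h
  obtain ⟨⟨⟨⟨⟨hsm, hlen⟩, hN⟩, hspec⟩, hearly⟩, hlate⟩ := h
  rw [tagl_eq] at hlate
  obtain ⟨hL, s0, s1, s2, s3, s4, s5⟩ := spec_spec hspec
  have hlu := hR.len
  rw [← hR.start 0 (by omega)] at s0 s1 s2 s3
  rw [← hR.start 1 (by omega)] at s4
  have hpar : ∀ t, 1 ≤ t → t < u → (t % 2 = 1 → (R t).testBit (m + 1) = false) ∧
      (t % 2 = 0 → R t % 2 ^ (m + 2) = 1) := fun t h1 h2 => par_row (by omega) hR s5 h1 h2
  refine ⟨fun c hc a => part_a hu hm hco hX cell hN s0 s4 hc a,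
    fun a => part_b hu hodd hm hco hX cell hN s0 s1 s2 s3 hpar a,
    fun c hc => part_c hu hm hX cell hN s4 ((hpar 2 (by omega) (by omega)).2 rfl) hc, ?_⟩
  intro t c ht hc hc0 hc1 hc2
  by_cases h1 : 2 * sm < t + 2
  · exact Or.inl (part_late hco hR cell hsm (by omega) hd hJ hlate ht h1 hc)
  · exact part_early hu hodd hm hco hR hX cell (by omega) hw hJ' hpar hc hc0 hc1 hc2
      (early_spec m N J' w L _ hearly t (by omega))

end Pool.Agent.H65.CF
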