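import Pool.Agent.H65.CF.Rows
import Pool.Agent.H65.CF.Late
import Pool.Agent.H65.CF.Pairs

/-!
# From the checks of the list of the rows to `Good`
-/

set_option autoImplicit false

namespace Pool.Agent.H65.CF

open Pool.Agent.H65.CE (Seq Rep Two Good)

/-- The rows, continued with period `8`. -/
def rowOf (L : List ℕ) (t : ℕ) : ℕ :=
  if t < L.length then L.getD t 0 else L.getD (L.length - 8 + (t - L.length) % 8) 0

namespace Ls

theorem rowOf_lt {L : List ℕ} {t : ℕ} (h : t < L.length) : rowOf L t = L.getD t 0 := by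
  unfold rowOf; rw [if_pos h]

theorem leq_eq : ∀ a b : List ℕ, leq a b = true → a = b
  | [], [], _ => rfl
  | [], _ :: _, h => by simp [leq] at h
  | _ :: _, [], h => by simp [leq] at h
  | a :: l, b :: r, h => by
    rw [leq, Bool.and_eq_true, Nat.beq_eq] at h
    rw [h.1, leq_eq l r h.2]

theorem per_get {d : ℕ} {L : List ℕ} (h : perOk d L = true) : d + 8 ≤ L.length ∧
    ∀ j, L.length - d - 8 ≤ j → j + 8 < L.length → L.getD (j + 8) 0 = L.getD j 0 := by
  unfold perOk at h
  rw [Bool.and_eq_true, Nat.ble_eq] at h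
  refine ⟨h.1, fun j h1 h2 => ?_⟩
  have h3 := leq_eq _ _ h.2
  have h4 : (L.drop (L.length - d)).getD (j + 8 - (L.length - d)) 0 =
      ((L.drop (L.length - d - 8)).take d).getD (j + 8 - (L.length - d)) 0 := by rw [h3]
  rw [List.getD_eq_getElem?_getD, List.getElem?_drop, List.getD_eq_getElem?_getD,
    List.getElem?_take, List.getElem?_drop] at h4
  have h5 := h.1
  rw [if_pos (by omega)] at h4
  have e1 : L.length - d + (j + 8 - (L.length - d)) = j + 8 := by omega
  have e2 : L.length - d - 8 + (j + 8 - (L.length - d)) = j := by omega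
  rw [e1, e2] at h4
  rw [List.getD_eq_getElem?_getD, List.getD_eq_getElem?_getD]
  exact h4

theorem rowOf_add8 {d : ℕ} {L : List ℕ} (h : perOk d L = true) (t : ℕ)
    (ht : L.length - d - 8 ≤ t) : rowOf L (t + 8) = rowOf L t := by
  obtain ⟨h1, h2⟩ := per_get h
  by_cases h3 : t + 8 < L.length
  · rw [rowOf_lt h3, rowOf_lt (by omega)]
    exact h2 t ht h3
  · by_cases h4 : t < L.length
    · rw [rowOf_lt h4]
      unfold rowOf
      rw [if_neg h3]
      congr 1
      rw [Nat.mod_eq_of_lt (by omega)]
      omega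
    · unfold rowOf
      rw [if_neg h3, if_neg h4]
      have : t + 8 - L.length = t - L.length + 8 := by omega
      rw [this, Nat.add_mod_right]

theorem rowOf_add {d : ℕ} {L : List ℕ} (h : perOk d L = true) (t : ℕ)
    (ht : L.length - d - 8 ≤ t) : ∀ k : ℕ, rowOf L (t + 8 * k) = rowOf L t
  | 0 => rfl
  | k + 1 => by
    have e : t + 8 * (k + 1) = (t + 8 * k) + 8 := by ring
    rw [e, rowOf_add8 h _ (by omega), rowOf_add h t ht k]

/-- the representative of a row -/
theorem rep {d : ℕ} {L : List ℕ} (h : perOk d L = true) (t : ℕ) (ht : L.length ≤ t) :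
    ∃ t', t' < L.length ∧ L.length ≤ t' + 8 ∧ t' % 8 = t % 8 ∧
      ∀ s, s ≤ d → rowOf L (t - s) = L.getD (t' - s) 0 := by
  obtain ⟨h1, _⟩ := per_get h
  refine ⟨L.length - 8 + (t - L.length) % 8, by omega, by omega, by omega, fun s hs => ?_⟩
  have h2 : t - s = (L.length - 8 + (t - L.length) % 8 - s) + 8 * ((t - L.length) / 8 + 1) := by
    omega
  rw [h2, rowOf_add h _ (by omega), rowOf_lt (by omega)]

theorem red_of (u d : ℕ) (L : List ℕ) (h1 : 1 ≤ L.length)
    (h : u = L.length ∨ (perOk d L = true ∧ L.length ≤ u ∧ u % 8 = L.length % 8)) :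
    Red u d L (rowOf L) := by
  rcases h with h | ⟨h, h2, h3⟩
  · refine ⟨by omega, fun t ht => rowOf_lt ht, fun i hi _ => ?_, fun t ht => ?_⟩
    · rw [h]; exact rowOf_lt (by omega)
    · exact ⟨t, by omega, Or.inl rfl, rfl, fun s _ _ => rowOf_lt (by omega)⟩
  · obtain ⟨h4, _⟩ := per_get h
    refine ⟨h2, fun t ht => rowOf_lt ht, fun i hi hid => ?_, fun t ht => ?_⟩
    · have e : u - i = (L.length - i) + 8 * ((u - L.length) / 8) := by omega
      rw [e, rowOf_add h _ (by omega), rowOf_lt (by omega)]
    · by_cases ht' : t < L.length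
      · exact ⟨t, ht', Or.inl rfl, rfl, fun s _ _ => rowOf_lt (by omega)⟩
      · obtain ⟨t', a1, a2, a3, a4⟩ := rep h t (by omega)
        exact ⟨t', a1, Or.inr ⟨by omega, by omega⟩, by omega, fun s hs _ => a4 s hs⟩

theorem chain_get (m N : ℕ) : ∀ (l : List ℕ) (A : ℕ), chain m N A l = true →
    ∀ t, t < l.length → stp m N ((A :: l).getD t 0) ((A :: l).getD (t + 1) 0) =
      (A :: l).getD (t + 1) 0
  | [], _, _, t, ht => by simp at ht
  | B :: l, A, h, t, ht => by
    rw [chain, Bool.and_eq_true, Nat.beq_eq] at h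
    rcases t with _ | t
    · simpa using h.1
    · have := chain_get m N l B h.2 t (by simpa using ht)
      simpa using this

theorem lst_get : ∀ (l : List ℕ) (A : ℕ), lst A l = (A :: l).getD l.length 0
  | [], _ => rfl
  | B :: l, A => by
    rw [lst, lst_get l B]
    simp

theorem rows_of (u m N d : ℕ) (hd : 1 ≤ d) (L : List ℕ) (hL : rowsOk m N L = true)
    (hR : Red u d L (rowOf L)) :
    stp m N (Nat.shiftLeft (rowOf L (u - 1)) m) (rowOf L 0) + 1 = rowOf L 0 ∧
    ∀ t, t + 1 < u → stp m N (rowOf L t) (rowOf L (t + 1)) = rowOf L (t + 1) := by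
  cases L with
  | nil => simp [rowsOk] at hL
  | cons A l =>
    rw [rowsOk, Bool.and_eq_true, Nat.beq_eq] at hL
    have h1 := hR.stop 1 le_rfl hd
    have h0 := hR.start 0 (by simp)
    constructor
    · rw [h1, h0]
      have e : (A :: l).getD ((A :: l).length - 1) 0 = lst A l := by
        rw [lst_get]; simp
      rw [e]
      simpa using hL.1
    · intro t ht
      obtain ⟨t', a1, a2, a3, a4⟩ := hR.red (t + 1) ht
      have b1 := a4 0 (by omega) (by omega)
      have b2 := a4 1 hd (by omega)
      simp only [Nat.add_sub_cancel, Nat.sub_zero] at b1 b2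
      rw [b1, b2]
      have ht' : 1 ≤ t' := by omega
      have h2 := chain_get m N l A hL.2 (t' - 1) (by
        simp only [List.length_cons] at a1; omega)
      have e : t' - 1 + 1 = t' := by omega
      rw [e] at h2
      exact h2

theorem winOk_get (C cc : ℕ) (hC : 0 < C) : ∀ (T Z : ℕ) (L : List ℕ), winOk C cc T Z L = true →
    ∀ p, Z.testBit p = true → p / C < T ∧ (L.getD (p / C) 0).testBit (cc + p % C) = true
  | 0, Z, L, h, p, hp => by
    rw [winOk, Nat.beq_eq] at h
    rw [h, Nat.zero_testBit] at hp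
    exact absurd hp (by simp)
  | T + 1, Z, [], h, p, hp => by simp [winOk] at h
  | T + 1, Z, A :: l, h, p, hp => by
    rw [winOk, Bool.and_eq_true] at h
    obtain ⟨h1, h2⟩ := h
    have h1' : Nat.beq (Nat.land (Nat.mod Z (Nat.shiftLeft 1 C)) (Nat.shiftRight A cc))
      (Nat.mod Z (Nat.shiftLeft 1 C)) = true := h1
    rw [Nat.beq_eq, Ro.one_sl] at h1'
    have e1 : Nat.shiftRight A cc = A >>> cc := rfl
    have e2 : Nat.mod Z (2 ^ C) = Z % 2 ^ C := rfl
    have e3 : ∀ x y : ℕ, Nat.land x y = x &&& y := fun _ _ => rfl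
    have e4 : Nat.shiftRight Z C = Z >>> C := rfl
    rw [e1, e2, e3] at h1'
    rw [e4] at h2
    by_cases hpC : p < C
    · rw [Nat.div_eq_of_lt hpC, Nat.mod_eq_of_lt hpC]
      refine ⟨by omega, ?_⟩
      have h3 : ((Z % 2 ^ C) &&& (A >>> cc)).testBit p = true := by
        rw [h1', Nat.testBit_mod_two_pow, hp]; simp [hpC]
      rw [Nat.testBit_and, Bool.and_eq_true, Nat.testBit_shiftRight] at h3
      simpa using h3.2
    · have h3 : (Z >>> C).testBit (p - C) = true := by
        rw [Nat.testBit_shiftRight]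
        have : C + (p - C) = p := by omega
        rw [this]; exact hp
      have h4 := winOk_get C cc hC T _ l h2 (p - C) h3
      have e5 : p / C = (p - C) / C + 1 := by
        have : p = (p - C) + C := by omega
        conv_lhs => rw [this]
        rw [Nat.add_div_right _ hC]
      have e6 : p % C = (p - C) % C := by
        have : p = (p - C) + C := by omega
        conv_lhs => rw [this]
        rw [Nat.add_mod_right]
      rw [e5, e6]
      exact ⟨by omega, by simpa using h4.2⟩

theorem downs_get (m n a : ℕ) : ∀ (l : List ℕ) (A b : ℕ), downs m n a A b l = true →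
    ∀ i, i < l.length → down m n a (min (b + (m + 2) * i) n) (min (b + (m + 2) * (i + 1)) n)
      ((A :: l).getD i 0) ((A :: l).getD (i + 1) 0) = true
  | [], _, _, _, i, hi => by simp at hi
  | B :: l, A, b, h, i, hi => by
    rw [downs, Bool.and_eq_true] at h
    rcases i with _ | i
    · have e : b + (m + 2) * (0 + 1) = b + m + 2 := by ring
      rw [e]
      simpa using h.1
    · have h2 := downs_get m n a l B (b + m + 2) h.2 i (by simpa using hi)
      have e1 : b + m + 2 + (m + 2) * i = b + (m + 2) * (i + 1) := by ring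
      have e2 : b + m + 2 + (m + 2) * (i + 1) = b + (m + 2) * (i + 1 + 1) := by ring
      rw [e1, e2] at h2
      simpa using h2

theorem below_length (m r : ℕ) (L : List ℕ) (h1 : 1 ≤ r) (h2 : r ≤ L.length) :
    (below m r L).length = L.length + 1 := by
  unfold below
  simp only [List.length_append, List.length_map, List.length_reverse, List.length_take,
    List.length_drop]
  omega

theorem below_low (m r : ℕ) (L : List ℕ) (h2 : r ≤ L.length) (i : ℕ) (hi : i < r) :
    (below m r L).getD i 0 = L.getD (r - 1 - i) 0 := by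
  unfold below
  rw [List.getD_append _ _ _ _ (by simp; omega)]
  rw [List.getD_eq_getElem?_getD, List.getD_eq_getElem?_getD,
    List.getElem?_reverse (by simp; omega), List.getElem?_take]
  have : (L.take r).length = r := by simp; omega
  rw [this, if_pos (by omega)]

theorem below_high (m r : ℕ) (L : List ℕ) (h1 : 1 ≤ r) (h2 : r ≤ L.length) (i : ℕ) (hi : r ≤ i)
    (hi2 : i ≤ L.length) :
    (below m r L).getD i 0 = Nat.shiftLeft (L.getD (L.length + r - 1 - i) 0) m := by
  unfold below
  have hl : (L.take r).reverse.length = r := by simp; omega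
  rw [List.getD_append_right _ _ _ _ (by omega), hl]
  rw [List.getD_eq_getElem?_getD, List.getElem?_map]
  have hl2 : (L.drop r).reverse.length = L.length - r := by simp
  by_cases h3 : i - r < L.length - r
  · rw [List.getElem?_append_left (by omega), List.getElem?_reverse (by simp; omega),
      List.getElem?_drop]
    have e : r + ((L.drop r).length - 1 - (i - r)) = L.length + r - 1 - i := by
      simp only [List.length_drop]; omega
    rw [e, List.getElem?_eq_getElem (by omega)]
    rw [List.getD_eq_getElem _ _ (by omega)]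
    rfl
  · have h4 : i = L.length := by omega
    rw [List.getElem?_append_right (by omega), hl2]
    have e0 : i - r - (L.length - r) = 0 := by omega
    rw [e0, List.getElem?_take, if_pos (by omega), List.getElem?_reverse (by simp; omega),
      List.getElem?_take]
    have e2 : (L.take r).length = r := by simp; omega
    rw [e2, if_pos (by omega)]
    have e3 : L.length + r - 1 - i = r - 1 - 0 := by omega
    rw [e3, List.getElem?_eq_getElem (by omega), List.getD_eq_getElem _ _ (by omega)]
    rfl

theorem down_of (u m n a b r : ℕ) (L : List ℕ) (d : ℕ) (hr : 1 ≤ r) (hrL : r < L.length)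
    (h : downOk m n a b r L = true)
    (hu : u = L.length ∨ (perOk d L = true ∧ L.length ≤ u ∧ u % 8 = L.length % 8 ∧ 1 ≤ d ∧
      n ≤ b + (m + 2) * (r + d) ∧ r + d + 8 ≤ L.length)) (k : ℕ) (hk1 : 1 ≤ k) (hk : k ≤ u) :
    down m n a (min (b + (m + 2) * k) n) (min (b + (m + 2) * (k + 1)) n)
      (Av u m (rowOf L) ((r : ℤ) - k)) (Av u m (rowOf L) ((r : ℤ) - k - 1)) = true := by
  have hlen := below_length m r L hr hrL.le
  -- the list
  have hget : ∀ i, i < L.length → down m n a (min (b + (m + 2) * (i + 1)) n)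
      (min (b + (m + 2) * (i + 2)) n) ((below m r L).getD i 0) ((below m r L).getD (i + 1) 0)
        = true := by
    unfold downOk at h
    cases hb : below m r L with
    | nil => rw [hb] at hlen; simp at hlen
    | cons A l =>
      rw [hb] at h hlen
      intro i hi
      have h2 := downs_get m n a l A (b + m + 2) h i (by
        simp only [List.length_cons] at hlen; omega)
      have e1 : b + m + 2 + (m + 2) * i = b + (m + 2) * (i + 1) := by ring
      have e2 : b + m + 2 + (m + 2) * (i + 1) = b + (m + 2) * (i + 2) := by ring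
      rw [e1, e2] at h2
      exact h2
  have hLu : L.length ≤ u := by rcases hu with hu | hu <;> omega
  -- rows of `R`
  have hR1 : ∀ t, t < L.length → rowOf L t = L.getD t 0 := fun t ht => rowOf_lt ht
  have hlast : rowOf L (u - 1) = L.getD (L.length - 1) 0 := by
    rcases hu with hu | hu
    · rw [hu]; exact rowOf_lt (by omega)
    · exact (red_of u d L (by omega) (Or.inr ⟨hu.1, hu.2.1, hu.2.2.1⟩)).stop 1 le_rfl hu.2.2.2.1
  by_cases hkr : k ≤ r
  · have h2 := hget (k - 1) (by omega)
    have e1 : k - 1 + 1 = k := by omega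
    have e2 : k - 1 + 2 = k + 1 := by omega
    rw [e1, e2] at h2
    rw [below_low m r L hrL.le (k - 1) (by omega)] at h2
    have a1 : Av u m (rowOf L) ((r : ℤ) - k) = L.getD (r - 1 - (k - 1)) 0 := by
      unfold Av
      rw [if_pos (by omega)]
      have e : ((r : ℤ) - k).toNat = r - 1 - (k - 1) := by omega
      rw [e]; exact hR1 _ (by omega)
    rw [a1]
    have a2 : Av u m (rowOf L) ((r : ℤ) - k - 1) = (below m r L).getD k 0 := by
      unfold Av
      by_cases hk2 : k < r
      · rw [if_pos (by omega), below_low m r L hrL.le k hk2]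
        have e : ((r : ℤ) - k - 1).toNat = r - 1 - k := by omega
        rw [e]; exact hR1 _ (by omega)
      · rw [if_neg (by omega), below_high m r L hr hrL.le k (by omega) (by omega)]
        have e : ((u : ℤ) + ((r : ℤ) - k - 1)).toNat = u - 1 := by omega
        have e3 : L.length + r - 1 - k = L.length - 1 := by omega
        rw [e, e3, hlast]
    rw [a2]
    exact h2
  · -- the rows above
    obtain ⟨t, ht⟩ : ∃ t, t = u + r - k := ⟨_, rfl⟩
    have a1 : Av u m (rowOf L) ((r : ℤ) - k) = Nat.shiftLeft (rowOf L t) m := by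
      unfold Av
      rw [if_neg (by omega)]
      have e : ((u : ℤ) + ((r : ℤ) - k)).toNat = t := by omega
      rw [e]
    have a2 : Av u m (rowOf L) ((r : ℤ) - k - 1) = Nat.shiftLeft (rowOf L (t - 1)) m := by
      unfold Av
      rw [if_neg (by omega)]
      have e : ((u : ℤ) + ((r : ℤ) - k - 1)).toNat = t - 1 := by omega
      rw [e]
    rw [a1, a2]
    -- rows in the list
    have hin : ∀ t', r ≤ t' → t' < L.length → down m n a (min (b + (m + 2) * (L.length + r - t')) n)
        (min (b + (m + 2) * (L.length + r - t' + 1)) n) (Nat.shiftLeft (L.getD t' 0) m)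
        (Nat.shiftLeft (L.getD (t' - 1) 0) m) = true := by
      intro t' h1 h2
      have h3 := hget (L.length + r - 1 - t') (by omega)
      have e1 : L.length + r - 1 - t' + 1 = L.length + r - t' := by omega
      have e2 : L.length + r - 1 - t' + 2 = L.length + r - t' + 1 := by omega
      rw [e1, e2] at h3
      rw [below_high m r L hr hrL.le _ (by omega) (by omega),
        below_high m r L hr hrL.le _ (by omega) (by omega)] at h3
      have e3 : L.length + r - 1 - (L.length + r - 1 - t') = t' := by omega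
      have e4 : L.length + r - 1 - (L.length + r - t') = t' - 1 := by omega
      rw [e3, e4] at h3
      exact h3
    rcases hu with hu | ⟨hper, _, hmod, hd, hn, hr8⟩
    · have h2 := hin t (by omega) (by omega)
      have e1 : L.length + r - t = k := by omega
      rw [e1] at h2
      rw [hR1 t (by omega), hR1 (t - 1) (by omega)]
      exact h2
    · obtain ⟨hd8, _⟩ := per_get hper
      by_cases hkd : k ≤ r + d
      · -- still growing: the same row from the end
        have h2 := hin (L.length + r - k) (by omega) (by omega)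
        have e1 : L.length + r - (L.length + r - k) = k := by omega
        rw [e1] at h2
        have e2 : t = (L.length + r - k) + 8 * ((u - L.length) / 8) := by omega
        have e3 : t - 1 = (L.length + r - k - 1) + 8 * ((u - L.length) / 8) := by omega
        have c1 : rowOf L t = L.getD (L.length + r - k) 0 := by
          rw [e2, rowOf_add hper _ (by omega), rowOf_lt (by omega)]
        have c2 : rowOf L (t - 1) = L.getD (L.length + r - k - 1) 0 := by
          rw [e3, rowOf_add hper _ (by omega), rowOf_lt (by omega)]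
        rw [c1, c2]
        exact h2
      · have hk3 : (m + 2) * (r + d) ≤ (m + 2) * k := Nat.mul_le_mul_left _ (by omega)
        have hk4 : (m + 2) * k ≤ (m + 2) * (k + 1) := Nat.mul_le_mul_left _ (by omega)
        rw [min_eq_right (by omega), min_eq_right (by omega)]
        have hgo : ∀ t', r ≤ t' → t' + d ≤ L.length → down m n a n n (Nat.shiftLeft (L.getD t' 0) m)
            (Nat.shiftLeft (L.getD (t' - 1) 0) m) = true := by
          intro t' h1 h2
          have h3 := hin t' h1 (by omega)
          have h4 : (m + 2) * (r + d) ≤ (m + 2) * (L.length + r - t') :=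
            Nat.mul_le_mul_left _ (by omega)
          have h5 : (m + 2) * (r + d) ≤ (m + 2) * (L.length + r - t' + 1) :=
            Nat.mul_le_mul_left _ (by omega)
          rw [min_eq_right (by omega), min_eq_right (by omega)] at h3
          exact h3
        by_cases ht2 : t + d ≤ L.length
        · rw [hR1 t (by omega), hR1 (t - 1) (by omega)]
          exact hgo t (by omega) ht2
        · obtain ⟨t', ht'⟩ : ∃ t', t' = L.length - d - 7 + (t - (L.length - d - 7)) % 8 := ⟨_, rfl⟩
          obtain ⟨q, hq⟩ : ∃ q, q = (t - (L.length - d - 7)) / 8 := ⟨_, rfl⟩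
          have e2 : t = t' + 8 * q := by omega
          have e3 : t - 1 = (t' - 1) + 8 * q := by omega
          have c1 : rowOf L t = L.getD t' 0 := by
            rw [e2, rowOf_add hper _ (by omega), rowOf_lt (by omega)]
          have c2 : rowOf L (t - 1) = L.getD (t' - 1) 0 := by
            rw [e3, rowOf_add hper _ (by omega), rowOf_lt (by omega)]
          rw [c1, c2]
          exact hgo t' (by omega) (by omega)

theorem zrow_get (w : W) (p : ℕ) (hC : p % w.C < w.C) (h1 : w.Z.testBit p = true)
    (h2 : p / w.C ≤ w.T) : (zrow w (w.t0 + p / w.C)).testBit (w.cc + p % w.C) = true := by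
  have hb : (Nat.ble w.t0 (w.t0 + p / w.C) && Nat.ble (w.t0 + p / w.C) (w.t0 + w.T)) = true := by
    rw [Bool.and_eq_true, Nat.ble_eq, Nat.ble_eq]
    exact ⟨Nat.le_add_right _ _, Nat.add_le_add_left h2 _⟩
  unfold zrow
  rw [hb, cond_true, Ro.one_sl]
  have e2 : ∀ x y : ℕ, Nat.mod x y = x % y := fun _ _ => rfl
  have e3 : ∀ x y : ℕ, Nat.shiftLeft x y = x <<< y := fun _ _ => rfl
  have e4 : ∀ x y : ℕ, Nat.shiftRight x y = x >>> y := fun _ _ => rfl
  rw [e2, e3, e4, Nat.testBit_shiftLeft]
  have e5 : w.cc + p % w.C - w.cc = p % w.C := by omega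
  rw [e5, Nat.testBit_mod_two_pow, Nat.testBit_shiftRight]
  have e6 : (w.t0 + p / w.C - w.t0) * w.C + p % w.C = p := by
    rw [Nat.add_sub_cancel_left, Nat.mul_comm]; exact Nat.div_add_mod p w.C
  rw [e6, h1]
  simp [hC]

theorem zdisj_get (w v : W) : ∀ k : ℕ, zdisj w v k = true → ∀ t, t < k →
    Nat.land (zrow w t) (zrow v t) = 0
  | 0, _, t, ht => by omega
  | k + 1, h, t, ht => by
    rw [zdisj, Bool.and_eq_true, Nat.beq_eq] at h
    by_cases h2 : t = k
    · rw [h2]; exact h.1
    · exact zdisj_get w v k h.2 t (by omega)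

theorem disj_of (w v : W) (h : disj w v = true) : Disj w v := by
  intro p p' a1 a2 a3 a4 a5 a6 a7 a8
  unfold disj at h
  simp only [Bool.or_eq_true, Nat.ble_eq] at h
  have key : ∀ x1 x2 x3 x4 : ℕ, x1 ≤ w.T → x2 ≤ v.T → x3 < w.C → x4 < v.C →
      w.t0 + x1 = v.t0 + x2 → w.cc + x3 = v.cc + x4 →
      (((w.t0 + w.T + 1 ≤ v.t0 ∨ v.t0 + v.T + 1 ≤ w.t0) ∨ w.cc + w.C ≤ v.cc) ∨
        v.cc + v.C ≤ w.cc) → False := by omega
  rcases h with h | h
  · exact key _ _ _ _ a3 a4 a5 a6 a7 a8 h
  · have h1 := zdisj_get w v _ h (w.t0 + p / w.C) (by omega)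
    have h2 := zrow_get w p a5 a1 a3
    have h3 := zrow_get v p' a6 a2 a4
    rw [← a7, ← a8] at h3
    have h4 : (Nat.land (zrow w (w.t0 + p / w.C)) (zrow v (w.t0 + p / w.C))).testBit
        (w.cc + p % w.C) = true := by
      have e : ∀ x y : ℕ, Nat.land x y = x &&& y := fun _ _ => rfl
      rw [e, Nat.testBit_and, h2, h3]; rfl
    rw [h1, Nat.zero_testBit] at h4
    exact Bool.noConfusion h4

end Ls

open Ls

theorem fit_of (u m n M d : ℕ) (per : Bool) (L : List ℕ) (w : W) (hc : Cert m w)
    (hd : 1 ≤ d) (h : wOk m n M d per L w = true)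
    (hs : per = false → u = L.length)
    (hp : per = true → perOk d L = true ∧ L.length ≤ u ∧ u % 8 = L.length % 8) :
    Fit u m n M (rowOf L) w := by
  unfold wOk at h
  simp only [Bool.and_eq_true, Nat.ble_eq] at h
  obtain ⟨⟨⟨⟨⟨⟨⟨⟨⟨⟨⟨h1, h2⟩, h3⟩, h4⟩, h5⟩, h6⟩, h7⟩, h8⟩, h9⟩, h10⟩, h11⟩, h12⟩ := h
  have hLu : L.length ≤ u := by
    cases per
    · exact (hs rfl).ge
    · exact (hp rfl).2.1
  refine ⟨hc, ?_, by omega, by omega, h3, h4, h5, h6, h7, h8, h9, ?_⟩
  · intro p hp'
    have h13 := winOk_get w.C w.cc (by omega) _ _ _ h10 p hp'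
    refine ⟨by omega, ?_⟩
    rw [rowOf_lt (by omega)]
    rw [List.getD_eq_getElem?_getD, List.getElem?_drop, ← List.getD_eq_getElem?_getD] at h13
    exact h13.2
  · intro k hk1 hk
    have h13 := down_of u m n w.a w.b (w.t0 + w.r) L d h5 (by omega) h11 (by
      cases per
      · exact Or.inl (hs rfl)
      · obtain ⟨p1, p2, p3⟩ := hp rfl
        simp only [cond_true, Bool.and_eq_true, Nat.ble_eq] at h12
        exact Or.inr ⟨p1, p2, p3, hd, h12.1, h12.2⟩) k hk1 hk
    have e : ((w.t0 + w.r : ℕ) : ℤ) = (w.t0 : ℤ) + w.r := by push_cast; ring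
    rw [e] at h13
    exact h13

theorem good_of_all (u m n M N J J' sm w d : ℕ) (per : Bool) (w1 w2 : W) (L : List ℕ)
    (hu : 7 ≤ u) (hodd : u % 2 = 1) (hm : 3 ≤ m) (hev : m % 2 = 0) (hco : Nat.Coprime m u)
    (h : allOk m n M N J J' sm w d per w1 w2 L = true) (c1 : Cert m w1) (c2 : Cert m w2)
    (hs : per = false → u = L.length)
    (hp : per = true → L.length ≤ u ∧ u % 8 = L.length % 8)
    (X : ℤ → Bool) (hX : Seq u m X) : Good u m X := by
  unfold allOk at h
  simp only [Bool.and_eq_true, Nat.ble_eq] at h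
  obtain ⟨⟨⟨⟨⟨⟨⟨⟨⟨⟨⟨h1, h2⟩, h3⟩, h4⟩, h5⟩, h6⟩, h7⟩, h8⟩, h9⟩, h10⟩, h11⟩, h12⟩ := h
  have hsm : 1 ≤ sm := by
    unfold pairsOk at h2
    simp only [Bool.and_eq_true, Nat.ble_eq] at h2
    exact h2.1.1.1.1.1
  have hL1 : 1 ≤ L.length := by
    cases L with
    | nil => simp [rowsOk] at h1
    | cons A l => simp
  have hp' : per = true → perOk d L = true ∧ L.length ≤ u ∧ u % 8 = L.length % 8 := by
    intro hper
    rw [hper, cond_true] at h12
    exact ⟨h12, hp hper⟩
  have hred : Red u d L (rowOf L) := by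
    apply red_of u d L hL1
    cases hper : per
    · exact Or.inl (hs hper)
    · exact Or.inr (hp' hper)
  obtain ⟨r0, r1⟩ := rows_of u m N d (by omega) L h1 hred
  have cell := rows_cells u m N (by omega) (by omega) hco (rowOf L) r0 r1 X hX
  obtain ⟨p1, p2, p3, p4⟩ := pairs_sound u m N J J' sm w d hu hodd hm hev hco L (rowOf L) hred
    h5 h6 h3 h4 h2 X hX cell
  refine ⟨p1, p2, p3, ?_⟩
  intro t c ht e1 e2 e3
  by_cases hc : c < N
  · exact p4 t c ht hc e1 e2 e3
  · left
    have f1 := fit_of u m n M d per L w1 c1 (by omega) h9 hs hp'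
    have f2 := fit_of u m n M d per L w2 c2 (by omega) h10 hs hp'
    have hd : Disj w1 w2 := disj_of w1 w2 h11
    refine late_two u m N n M (by omega) (by omega) hco (rowOf L) X hX cell h7 (by omega) w1 w2 f1
      f2 hd _ ?_
    have g1 : (2 * (m + M) : ℤ) ≤ c := by
      have : 2 * (m + M) ≤ c := by omega
      exact_mod_cast this
    have g2 : (u : ℤ) * (2 * (m + M)) ≤ u * c :=
      mul_le_mul_of_nonneg_left g1 (by positivity)
    have g3 : (0 : ℤ) ≤ m * t := by positivity
    push_cast
    linarith

end Pool.Agent.H65.CF
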