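import Pool.Agent.H65.CF.Rup
import Pool.Agent.H65.CF.Lst

/-!
# The certificate of a window from a refutation
-/

set_option autoImplicit false

namespace Pool.Agent.H65.CF

/-- The columns `[a, b)` of row `r`. -/
def goal (C r a b : ℕ) : ℕ :=
  Nat.shiftLeft (Nat.sub (Nat.shiftLeft 1 (b - a)) 1) (r * C + a)

theorem goal_testBit (C r a b p : ℕ) (h1 : r * C + a ≤ p) (h2 : p < r * C + b) :
    (goal C r a b).testBit p = true := by
  have e : goal C r a b = (2 ^ (b - a) - 1) <<< (r * C + a) := by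
    unfold goal
    rw [Ro.one_sl]; rfl
  rw [e, Nat.testBit_shiftLeft, Nat.testBit_two_pow_sub_one]
  have h3 : p - (r * C + a) < b - a := by omega
  simp [h1, h3]

theorem cert_of {m C n W0 M MM Q V : ℕ} (hp : parOk m C n W0 M MM Q V = true) {D : List ℕ}
    {Z r a b : ℕ}
    (hD : chunks (2 * m + 2) C W0 M MM Q V D
      (Tr.n (Nat.shiftLeft (Nat.shiftLeft (Nat.sub (Nat.shiftLeft 1 (b - a)) 1) (r * C + a)) W0)
        Tr.e Tr.e Tr.e Tr.e) (Nat.shiftLeft Z W0) = true)
    (hr : r ≤ n) (hb : b ≤ C) (t0 cc : ℕ) : Cert m ⟨t0, cc, C, n, Z, r, cc + a, cc + b⟩ := by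
  intro y hy hZ c h1 h2
  have h1' : cc + a ≤ c := h1
  have h2' : c < cc + b := h2
  have hlt : r * C + (c - cc) < (n + 1) * C := by
    have h3 : r * C ≤ n * C := Nat.mul_le_mul_right _ hr
    have h4 : (n + 1) * C = n * C + C := by ring
    omega
  have h5 : a ≤ c - cc := by omega
  have h6 : c - cc < b := by omega
  exact refute m C n W0 M MM Q V hp D Z (goal C r a b) hD y hy hZ (r * C + (c - cc)) hlt
    (goal_testBit C r a b _ (Nat.add_le_add_left h5 _) (Nat.add_lt_add_left h6 _))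

end Pool.Agent.H65.CF
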