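import Mathlib
import Pool.Agent.H65.CE.Ulam
import Pool.Agent.H65.CF.Core

/-!
# The rows of the sequence from the row checks
-/

set_option autoImplicit false

namespace Pool.Agent.H65.CF

open Pool.Agent.H65.CE (Seq Rep Two num)
open Pool.Agent.H65.CE.J1 (neg_col cell_exists cell_unique)

namespace Ro

/-- the pair `p` records the bits with count at least one and at least two -/
def Cnt (p : ℕ × ℕ) (c : ℕ → ℕ) : Prop :=
  ∀ n, p.1.testBit n = decide (1 ≤ c n) ∧ p.2.testBit n = decide (2 ≤ c n)

theorem cnt_zero : Cnt (0, 0) (fun _ => 0) := by
  intro n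
  simp

theorem cnt_add2 {p : ℕ × ℕ} {c : ℕ → ℕ} (h : Cnt p c) (w : ℕ) :
    Cnt (add2 p w) (fun n => c n + (w.testBit n).toNat) := by
  intro n
  obtain ⟨h1, h2⟩ := h n
  have e1 : (add2 p w).1 = p.1 ||| w := rfl
  have e2 : (add2 p w).2 = p.2 ||| (p.1 &&& w) := rfl
  rw [e1, e2, Nat.testBit_or, Nat.testBit_or, Nat.testBit_and, h1, h2]
  show _ = decide (1 ≤ c n + (w.testBit n).toNat) ∧ _ = decide (2 ≤ c n + (w.testBit n).toNat)
  generalize w.testBit n = b
  cases b with
  | false => simp
  | true =>
    simp only [Bool.or_true, Bool.and_true, Bool.toNat_true]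
    constructor
    · simp
    · by_cases h3 : 1 ≤ c n
      · simp [h3]
      · have h5 : ¬ 2 ≤ c n := by omega
        simp [h3, h5]

theorem sl_testBit (A j n : ℕ) :
    (Nat.shiftLeft A j).testBit n = (decide (j ≤ n) && A.testBit (n - j)) := by
  have : Nat.shiftLeft A j = A <<< j := rfl
  rw [this, Nat.testBit_shiftLeft]

theorem one_sl (n : ℕ) : Nat.shiftLeft 1 n = 2 ^ n := by
  have : Nat.shiftLeft 1 n = 1 <<< n := rfl
  rw [this, Nat.one_shiftLeft]

theorem sacc_cnt (A : ℕ) : ∀ k : ℕ, Cnt (sacc A k)
    (fun n => ∑ j ∈ Finset.range k, (decide (j ≤ n) && A.testBit (n - j)).toNat)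
  | 0 => by
    intro n
    have h := cnt_zero n
    simpa [sacc] using h
  | k + 1 => by
    have h := cnt_add2 (sacc_cnt A k) (Nat.shiftLeft A k)
    intro n
    have h1 := h n
    simp only [sl_testBit] at h1
    have e : sacc A (k + 1) = add2 (sacc A k) (Nat.shiftLeft A k) := rfl
    rw [e]
    show _ = decide (1 ≤ ∑ j ∈ Finset.range (k + 1), (decide (j ≤ n) && A.testBit (n - j)).toNat) ∧
      _ = decide (2 ≤ ∑ j ∈ Finset.range (k + 1), (decide (j ≤ n) && A.testBit (n - j)).toNat)
    rw [Finset.sum_range_succ]
    exact h1

/-- the number of the predecessors of column `c` -/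
def npred (m A B c : ℕ) : ℕ :=
  (∑ j ∈ Finset.range (m + 1), (decide (j ≤ c) && A.testBit (c - j)).toNat) +
    (decide (2 * m + 2 ≤ c) && B.testBit (c - (2 * m + 2))).toNat

theorem stp_testBit (m N A B c : ℕ) :
    (stp m N A B).testBit c = (decide (c < N) && decide (npred m A B c = 1)) := by
  have e : stp m N A B =
      ((add2 (sacc A (m + 1)) (Nat.shiftLeft B (2 * m + 2))).1 ^^^
        (add2 (sacc A (m + 1)) (Nat.shiftLeft B (2 * m + 2))).2) % Nat.shiftLeft 1 N := rfl
  rw [e, one_sl, Nat.testBit_mod_two_pow, Nat.testBit_xor]
  have h := cnt_add2 (sacc_cnt A (m + 1)) (Nat.shiftLeft B (2 * m + 2)) c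
  simp only [sl_testBit] at h
  rw [h.1, h.2]
  congr 1
  unfold npred
  generalize (∑ j ∈ Finset.range (m + 1), (decide (j ≤ c) && A.testBit (c - j)).toNat) +
    (decide (2 * m + 2 ≤ c) && B.testBit (c - (2 * m + 2))).toNat = x
  rcases x with _ | _ | x <;> simp

theorem npred_zero (m A B : ℕ) (hm : 1 ≤ m) : npred m (Nat.shiftLeft A m) B 0 = 0 := by
  unfold npred
  have h3 : ¬ (2 * m + 2 ≤ 0) := by omega
  rw [Finset.sum_eq_zero, decide_eq_false h3, Bool.false_and]
  · rfl
  · intro j _
    rw [sl_testBit]
    have h4 : ¬ (m ≤ 0 - j) := by omega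
    rw [decide_eq_false h4, Bool.false_and, Bool.and_false]
    rfl

theorem testBit_add_one {x : ℕ} (h : x.testBit 0 = false) (c : ℕ) :
    (x + 1).testBit c = if c = 0 then true else x.testBit c := by
  have h0 : x % 2 = 0 := by
    have := Nat.testBit_zero x
    rw [h] at this
    have h1 : ¬ (x % 2 = 1) := by
      intro h2
      rw [h2] at this
      simp at this
    omega
  rcases c with _ | c
  · rw [if_pos rfl, Nat.testBit_zero]
    have : (x + 1) % 2 = 1 := by omega
    simp [this]
  · rw [if_neg (by omega), Nat.testBit_succ, Nat.testBit_succ]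
    have : (x + 1) / 2 = x / 2 := by omega
    rw [this]

end Ro

open Ro

theorem rows_cells (u m N : ℕ) (hu : 2 ≤ u) (hm : 1 ≤ m) (hco : Nat.Coprime m u) (R : ℕ → ℕ)
    (h0 : stp m N (Nat.shiftLeft (R (u - 1)) m) (R 0) + 1 = R 0)
    (h1 : ∀ t, t + 1 < u → stp m N (R t) (R (t + 1)) = R (t + 1))
    (X : ℤ → Bool) (hX : Seq u m X) :
    ∀ t c : ℕ, t < u → c < N → X (m * t + u * c) = (R t).testBit c := by
  -- the value in any column
  have key : ∀ M : ℕ, ∀ t c : ℕ, t < u → c < N → m * t + u * c < M →
      X (m * t + u * c) = (R t).testBit c := by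
    intro M
    induction M with
    | zero => intro t c _ _ h; omega
    | succ M ih =>
      intro t c ht hc hM
      -- cells before
      have cellv : ∀ (s : ℕ) (d : ℤ), s < u → d < N → ((m : ℤ) * s + u * d < m * t + u * c) →
          X (m * s + u * d) = (decide (0 ≤ d) && (R s).testBit d.toNat) := by
        intro s d hs hd hlt
        by_cases h : 0 ≤ d
        · obtain ⟨d', rfl⟩ := Int.eq_ofNat_of_zero_le h
          have : m * s + u * d' < M := by
            have h2 : ((m * s + u * d' : ℕ) : ℤ) < ((m * t + u * c : ℕ) : ℤ) := by
              push_cast; exact hlt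
            have h3 : m * s + u * d' < m * t + u * c := by exact_mod_cast h2
            omega
          rw [ih s d' hs (by exact_mod_cast hd) this]
          simp
        · rw [neg_col u m (by omega) (by omega) hco hX
            ((m * s + u * d).toNat + 1) (m * s + u * d) (by omega) s hs d (by omega) rfl]
          simp [h]
      rcases Nat.eq_zero_or_pos (m * t + u * c) with hz | hz
      · have ht0 : t = 0 := by
          rcases Nat.eq_zero_or_pos t with h | h
          · exact h
          · have : 0 < m * t := Nat.mul_pos (by omega) h
            omega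
        have hc0 : c = 0 := by
          rcases Nat.eq_zero_or_pos c with h | h
          · exact h
          · have : 0 < u * c := Nat.mul_pos (by omega) h
            omega
        subst ht0; subst hc0
        have e : (m : ℤ) * (0 : ℕ) + u * (0 : ℕ) = 0 := by simp
        rw [e, hX.zero, ← h0]
        rw [Nat.testBit_zero]
        have h2 : (stp m N (Nat.shiftLeft (R (u - 1)) m) (R 0)).testBit 0 = false := by
          rw [stp_testBit, npred_zero m _ _ hm]; simp
        rw [Nat.testBit_zero] at h2
        have h3 : ¬ (stp m N (Nat.shiftLeft (R (u - 1)) m) (R 0) % 2 = 1) := of_decide_eq_false h2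
        have h5 : (stp m N (Nat.shiftLeft (R (u - 1)) m) (R 0) + 1) % 2 = 1 := by omega
        exact (decide_eq_true h5).symm
      · -- the rule
        have hr := hX.rule (m * t + u * c) (by exact_mod_cast hz)
        have hlast : X (m * t + u * c - (2 * m + 2) * u) =
            (decide (2 * m + 2 ≤ c) && (R t).testBit (c - (2 * m + 2))) := by
          have h2 := cellv t ((c : ℤ) - (2 * m + 2)) ht (by omega) (by
            have : (0 : ℤ) < u * (2 * m + 2) := by positivity
            linarith [mul_sub (u : ℤ) c (2 * m + 2)])
          have e : (m : ℤ) * t + u * ((c : ℤ) - (2 * m + 2)) =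
            m * t + u * c - (2 * m + 2) * u := by ring
          rw [e] at h2
          rw [h2]
          by_cases h3 : 2 * m + 2 ≤ c
          · have h4 : (0 : ℤ) ≤ (c : ℤ) - (2 * m + 2) := by omega
            have h5 : ((c : ℤ) - (2 * m + 2)).toNat = c - (2 * m + 2) := by omega
            rw [decide_eq_true h3, decide_eq_true h4, h5]
          · have h4 : ¬ ((0 : ℤ) ≤ (c : ℤ) - (2 * m + 2)) := by omega
            rw [decide_eq_false h3, decide_eq_false h4, Bool.false_and, Bool.false_and]
        rcases Nat.eq_zero_or_pos t with ht0 | ht0
        · subst ht0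
          have hc0 : 0 < c := by
            rcases Nat.eq_zero_or_pos c with h | h
            · subst h; simp at hz
            · exact h
          have hsum : num u m X (m * (0 : ℕ) + u * c) =
              npred m (Nat.shiftLeft (R (u - 1)) m) (R 0) c := by
            unfold num npred
            rw [hlast]
            congr 1
            apply Finset.sum_congr rfl
            intro j hj
            rw [Finset.mem_range] at hj
            have h2 := cellv (u - 1) ((c : ℤ) - m - j) (by omega) (by omega) (by
              have e : (m : ℤ) * ((u - 1 : ℕ) : ℤ) + u * ((c : ℤ) - m - j) =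
                u * c - m - u * j := by
                push_cast [Nat.cast_sub (by omega : 1 ≤ u)]; ring
              rw [e]
              have : (0 : ℤ) ≤ u * j := by positivity
              push_cast
              have : (0 : ℤ) < m := by exact_mod_cast hm
              linarith)
            have e : (m : ℤ) * ((u - 1 : ℕ) : ℤ) + u * ((c : ℤ) - m - j) =
                (m * (0 : ℕ) + u * c) - m - j * u := by
              push_cast [Nat.cast_sub (by omega : 1 ≤ u)]; ring
            rw [e] at h2
            rw [h2, sl_testBit]
            congr 1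
            by_cases h3 : m + j ≤ c
            · have h4 : (0 : ℤ) ≤ (c : ℤ) - m - j := by omega
              have h5 : ((c : ℤ) - m - j).toNat = c - j - m := by omega
              have h6 : j ≤ c := by omega
              have h7 : m ≤ c - j := by omega
              rw [decide_eq_true h4, decide_eq_true h6, decide_eq_true h7, h5, Bool.true_and,
                Bool.true_and]
            · have h4 : ¬ ((0 : ℤ) ≤ (c : ℤ) - m - j) := by omega
              rw [decide_eq_false h4, Bool.false_and]
              by_cases h6 : j ≤ c
              · have h7 : ¬ (m ≤ c - j) := by omega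
                rw [decide_eq_false h7, Bool.false_and, Bool.and_false]
              · rw [decide_eq_false h6, Bool.false_and]
          rw [hsum] at hr
          have h2 : (R 0).testBit c =
              (stp m N (Nat.shiftLeft (R (u - 1)) m) (R 0)).testBit c := by
            conv_lhs => rw [← h0]
            rw [testBit_add_one, if_neg (by omega)]
            rw [stp_testBit, npred_zero m _ _ hm]; simp
          rw [h2, stp_testBit]
          rw [Bool.eq_iff_iff, hr]
          simp [hc]
        · have hsum : num u m X (m * t + u * c) = npred m (R (t - 1)) (R t) c := by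
            unfold num npred
            rw [hlast]
            congr 1
            apply Finset.sum_congr rfl
            intro j hj
            have h2 := cellv (t - 1) ((c : ℤ) - j) (by omega) (by omega) (by
              have e : (m : ℤ) * ((t - 1 : ℕ) : ℤ) + u * ((c : ℤ) - j) =
                m * t + u * c - m - u * j := by
                push_cast [Nat.cast_sub (by omega : 1 ≤ t)]; ring
              rw [e]
              have : (0 : ℤ) ≤ u * j := by positivity
              have : (0 : ℤ) < m := by exact_mod_cast hm
              linarith)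
            have e : (m : ℤ) * ((t - 1 : ℕ) : ℤ) + u * ((c : ℤ) - j) =
                (m * t + u * c) - m - j * u := by
              push_cast [Nat.cast_sub (by omega : 1 ≤ t)]; ring
            rw [e] at h2
            rw [h2]
            congr 1
            by_cases h3 : j ≤ c
            · have h4 : (0 : ℤ) ≤ (c : ℤ) - j := by omega
              have h5 : ((c : ℤ) - j).toNat = c - j := by omega
              rw [decide_eq_true h3, decide_eq_true h4, h5]
            · have h4 : ¬ ((0 : ℤ) ≤ (c : ℤ) - j) := by omega
              rw [decide_eq_false h3, decide_eq_false h4, Bool.false_and, Bool.false_and]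
          rw [hsum] at hr
          have h2 := h1 (t - 1) (by omega)
          have e : t - 1 + 1 = t := by omega
          rw [e] at h2
          have h3 : (R t).testBit c = (stp m N (R (t - 1)) (R t)).testBit c := by rw [h2]
          rw [h3, stp_testBit, Bool.eq_iff_iff, hr]
          simp [hc]
  intro t c ht hc
  exact key _ t c ht hc (Nat.lt_succ_self _)

end Pool.Agent.H65.CF
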