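import Mathlib
import Pool.Agent.H65.CF.Defs2

/-!
# Soundness of the refutation checker
-/

set_option autoImplicit false

namespace Pool.Agent.H65.CF

namespace Ru

/-- The meaning of bit `i`. -/
def sem (W : ℕ) (y : ℕ → Bool) (i : ℕ) : Prop :=
  (i < W → y i = true) ∧ (W ≤ i → i < 2 * W → y (i - W) = false)

/-- All bits of `S` hold. -/
def Inv (W : ℕ) (y : ℕ → Bool) (S : ℕ) : Prop := ∀ i, S.testBit i = true → sem W y i

def AllV (W : ℕ) (y : ℕ → Bool) : Tr → Prop
  | .e => True
  | .n L a b c d => ¬ Inv W y L ∧ AllV W y a ∧ AllV W y b ∧ AllV W y c ∧ AllV W y d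

theorem inv_or {W : ℕ} {y : ℕ → Bool} {S T : ℕ} :
    Inv W y (S ||| T) ↔ Inv W y S ∧ Inv W y T := by
  constructor
  · intro h
    refine ⟨fun i hi => h i ?_, fun i hi => h i ?_⟩
    · rw [Nat.testBit_or, hi, Bool.true_or]
    · rw [Nat.testBit_or, hi, Bool.or_true]
  · rintro ⟨h1, h2⟩ i hi
    rw [Nat.testBit_or, Bool.or_eq_true] at hi
    rcases hi with hi | hi
    · exact h1 i hi
    · exact h2 i hi

theorem testBit_pred {R i j : ℕ} (hi : R.testBit i = true) (hij : i < j) :
    (R - 1).testBit j = R.testBit j := by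
  have h1 : 2 ^ i ≤ R % 2 ^ (i + 1) := by
    apply Nat.ge_two_pow_of_testBit
    rw [Nat.testBit_mod_two_pow]
    simp [hi]
  have h2 : (R - 1) / 2 ^ (i + 1) = R / 2 ^ (i + 1) := by
    have h3 := Nat.div_add_mod R (2 ^ (i + 1))
    have h4 := Nat.mod_lt R (show 0 < 2 ^ (i + 1) by positivity)
    have h5 : 0 < 2 ^ i := by positivity
    rw [Nat.div_eq_iff (by positivity)]
    generalize R / 2 ^ (i + 1) = a at *
    generalize R % 2 ^ (i + 1) = b at *
    generalize 2 ^ (i + 1) = c at *
    rw [Nat.mul_comm] at h3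
    constructor
    · omega
    · omega
  have h6 : ∀ x : ℕ, x.testBit j = (x / 2 ^ (i + 1)).testBit (j - (i + 1)) := by
    intro x
    rw [Nat.testBit_div_two_pow]
    congr 1
    omega
  rw [h6, h6 R, h2]

theorem single {R i j : ℕ} (h : R &&& (R - 1) = 0) (hi : R.testBit i = true)
    (hj : R.testBit j = true) : i = j := by
  have key : ∀ a b, a < b → R.testBit a = true → R.testBit b = true → False := by
    intro a b hab ha hb
    have h1 : (R &&& (R - 1)).testBit b = true := by
      rw [Nat.testBit_and, testBit_pred ha hab, hb]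
      rfl
    rw [h] at h1
    simp at h1
  rcases lt_trichotomy i j with h1 | h1 | h1
  · exact (key i j h1 hi hj).elim
  · exact h1
  · exact (key j i h1 hj hi).elim

/-- If `R` has at least two bits. -/
theorem two_bits {R : ℕ} (h : R &&& (R - 1) ≠ 0) :
    ∃ i j, i ≠ j ∧ R.testBit i = true ∧ R.testBit j = true := by
  by_contra hcon
  push Not at hcon
  apply h
  rcases Nat.eq_zero_or_pos R with h0 | h0
  · subst h0; rfl
  obtain ⟨i, hi⟩ := Nat.exists_testBit_of_ne_zero h0.ne'
  have hR : R = 2 ^ i := by
    apply Nat.eq_of_testBit_eq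
    intro j
    rw [Nat.testBit_two_pow]
    by_cases hj : i = j
    · subst hj; simp [hi]
    · have := hcon i j hj hi
      simp only [hj, decide_false]
      simpa using this
  rw [hR, Nat.two_pow_and, Nat.testBit_two_pow_sub_one]
  simp

theorem clau_ok {W : ℕ} {y : ℕ → Bool} {L S : ℕ} {k : ℕ → Bool} (hS : Inv W y S)
    (hL : ¬ Inv W y L) (h : clau W L S k = true) : ∃ S', Inv W y S' ∧ k S' = true := by
  have hL' : ∃ i, L.testBit i = true ∧ ¬ sem W y i := by
    by_contra hcon
    push Not at hcon
    exact hL hcon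
  obtain ⟨i0, hi0, hs0⟩ := hL'
  have hSi : S.testBit i0 = false := by
    by_contra hcon
    exact hs0 (hS i0 (by simpa using hcon))
  obtain ⟨R, hR⟩ : ∃ R, R = Nat.xor L (Nat.land L S) := ⟨_, rfl⟩
  have hRi : R.testBit i0 = true := by
    rw [hR]
    change (L ^^^ (L &&& S)).testBit i0 = true
    rw [Nat.testBit_xor, Nat.testBit_and, hi0, hSi]
    rfl
  have hR0 : Nat.beq R 0 = false := by
    rcases Nat.eq_zero_or_pos R with h0 | h0
    · rw [h0] at hRi; simp at hRi
    · cases R with
      | zero => omega
      | succ r => rfl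
  unfold clau at h
  rw [← hR] at h
  simp only [hR0] at h
  cases hb : Nat.beq (Nat.land R (Nat.sub R 1)) 0 with
  | false =>
    rw [hb] at h
    exact ⟨S, hS, h⟩
  | true =>
    rw [hb] at h
    have hz : R &&& (R - 1) = 0 := Nat.eq_of_beq_eq_true hb
    cases hc : Nat.ble (Nat.shiftLeft 1 W) R with
    | false =>
      rw [hc] at h
      refine ⟨_, ?_, h⟩
      change Inv W y (S ||| (R <<< W))
      rw [inv_or]
      refine ⟨hS, fun i hi => ?_⟩
      rw [Nat.testBit_shiftLeft, Bool.and_eq_true] at hi
      have h1 : W ≤ i := by simpa using hi.1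
      have h2 := single hz hi.2 hRi
      have h3 : i0 < W := by
        by_contra hcon
        have h4 : 2 ^ i0 ≤ R := Nat.ge_two_pow_of_testBit hRi
        have h5 : 2 ^ W ≤ 2 ^ i0 := Nat.pow_le_pow_right (by norm_num) (by omega)
        have h6 : Nat.ble (Nat.shiftLeft 1 W) R = true := by
          rw [Nat.ble_eq]
          change 1 <<< W ≤ R
          rw [Nat.one_shiftLeft]
          exact le_trans h5 h4
        rw [h6] at hc
        exact absurd hc (by decide)
      refine ⟨fun h4 => by omega, fun _ _ => ?_⟩
      rw [h2]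
      by_contra hcon
      apply hs0
      exact ⟨fun _ => by simpa using hcon, fun h4 => by omega⟩
    | true =>
      rw [hc] at h
      refine ⟨_, ?_, h⟩
      change Inv W y (S ||| (R >>> W))
      rw [inv_or]
      refine ⟨hS, fun i hi => ?_⟩
      rw [Nat.testBit_shiftRight] at hi
      have h2 := single hz hi hRi
      refine ⟨fun h4 => ?_, fun h4 h5 => ?_⟩
      · by_contra hcon
        apply hs0
        refine ⟨fun h6 => by omega, fun h6 h7 => ?_⟩
        have h8 : i0 - W = i := by omega
        rw [h8]
        simpa using hcon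
      · exact (hs0 ⟨fun h6 => by omega, fun h6 h7 => by omega⟩).elim

theorem look_ok {W : ℕ} {y : ℕ → Bool} {k : ℕ → Bool} (T : Tr) :
    ∀ i, AllV W y T → look T i k = true → ∃ L, ¬ Inv W y L ∧ k L = true := by
  induction T with
  | e => intro i _ h; exact absurd h (by simp [look])
  | n L c0 c1 c2 c3 i0 i1 i2 i3 =>
    intro i hT h
    obtain ⟨hL, h0, h1, h2, h3⟩ := hT
    change Bool.rec (motive := fun _ => Bool)
        (Nat.rec (motive := fun _ => Bool) (look c0 (Nat.shiftRight i 2) k)
          (fun a _ => Nat.rec (motive := fun _ => Bool) (look c1 (Nat.shiftRight i 2) k)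
            (fun b _ => Nat.rec (motive := fun _ => Bool) (look c2 (Nat.shiftRight i 2) k)
              (fun _ _ => look c3 (Nat.shiftRight i 2) k) b) a) (Nat.land i 3))
        (k L) (Nat.ble i 1) = true at h
    cases hb : Nat.ble i 1 with
    | true =>
      rw [hb] at h
      exact ⟨L, hL, h⟩
    | false =>
      rw [hb] at h
      rcases hc : Nat.land i 3 with _ | _ | _ | a
      · rw [hc] at h; exact i0 _ h0 h
      · rw [hc] at h; exact i1 _ h1 h
      · rw [hc] at h; exact i2 _ h2 h
      · rw [hc] at h; exact i3 _ h3 h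

theorem ins_ok {W : ℕ} {y : ℕ → Bool} {L : ℕ} (hL : ¬ Inv W y L) (T : Tr) :
    ∀ i (k : Tr → Bool), AllV W y T → ins L T i k = true → ∃ T', AllV W y T' ∧ k T' = true := by
  induction T with
  | e =>
    intro i k _ h
    exact ⟨Tr.n L Tr.e Tr.e Tr.e Tr.e, ⟨hL, trivial, trivial, trivial, trivial⟩, h⟩
  | n L0 c0 c1 c2 c3 i0 i1 i2 i3 =>
    intro i k hT h
    obtain ⟨hL0, h0, h1, h2, h3⟩ := hT
    change Bool.rec (motive := fun _ => Bool)
        (Nat.rec (motive := fun _ => Bool)
          (ins L c0 (Nat.shiftRight i 2) (fun c => k (Tr.n L0 c c1 c2 c3)))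
          (fun a _ => Nat.rec (motive := fun _ => Bool)
            (ins L c1 (Nat.shiftRight i 2) (fun c => k (Tr.n L0 c0 c c2 c3)))
            (fun b _ => Nat.rec (motive := fun _ => Bool)
              (ins L c2 (Nat.shiftRight i 2) (fun c => k (Tr.n L0 c0 c1 c c3)))
              (fun _ _ => ins L c3 (Nat.shiftRight i 2) (fun c => k (Tr.n L0 c0 c1 c2 c))) b) a)
          (Nat.land i 3))
        (k (Tr.n L c0 c1 c2 c3)) (Nat.ble i 1) = true at h
    cases hb : Nat.ble i 1 with
    | true =>
      rw [hb] at h
      exact ⟨Tr.n L c0 c1 c2 c3, ⟨hL, h0, h1, h2, h3⟩, h⟩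
    | false =>
      rw [hb] at h
      rcases hc : Nat.land i 3 with _ | _ | _ | a
      · rw [hc] at h
        obtain ⟨T', hT', h'⟩ := i0 _ _ h0 h
        exact ⟨Tr.n L0 T' c1 c2 c3, ⟨hL0, hT', h1, h2, h3⟩, h'⟩
      · rw [hc] at h
        obtain ⟨T', hT', h'⟩ := i1 _ _ h1 h
        exact ⟨Tr.n L0 c0 T' c2 c3, ⟨hL0, h0, hT', h2, h3⟩, h'⟩
      · rw [hc] at h
        obtain ⟨T', hT', h'⟩ := i2 _ _ h2 h
        exact ⟨Tr.n L0 c0 c1 T' c3, ⟨hL0, h0, h1, hT', h3⟩, h'⟩
      · rw [hc] at h
        obtain ⟨T', hT', h'⟩ := i3 _ _ h3 h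
        exact ⟨Tr.n L0 c0 c1 c2 T', ⟨hL0, h0, h1, h2, hT'⟩, h'⟩

/-! ## Bits of sums and the folding -/

theorem testBit_sum (s : Finset ℕ) : ∀ i, (∑ r ∈ s, 2 ^ r).testBit i = decide (i ∈ s) := by
  induction s using Finset.induction_on_max with
  | empty => intro i; simp
  | insert a s hs ih =>
    intro i
    have ha : a ∉ s := fun h => lt_irrefl _ (hs a h)
    have hlt : ∑ r ∈ s, 2 ^ r < 2 ^ a := by
      apply Nat.lt_pow_two_of_testBit
      intro j hj
      rw [ih]
      simp only [decide_eq_false_iff_not]
      intro h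
      exact absurd (hs j h) (by omega)
    rw [Finset.sum_insert ha]
    have h1 : 2 ^ a + ∑ r ∈ s, 2 ^ r = 2 ^ a * 1 ||| ∑ r ∈ s, 2 ^ r := by
      rw [← Nat.two_pow_add_eq_or_of_lt hlt, Nat.mul_one]
    rw [h1, Nat.mul_one, Nat.testBit_or, Nat.testBit_two_pow, ih]
    by_cases hai : i = a
    · subst hai; simp
    · have : a ≠ i := fun h => hai h.symm
      simp [hai, this]

/-- The bits of `X`. -/
def bits (X : ℕ) : Finset ℕ := (Finset.range (X + 1)).filter fun i => X.testBit i = true

theorem mem_bits {X i : ℕ} : i ∈ bits X ↔ X.testBit i = true := by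
  unfold bits
  rw [Finset.mem_filter, Finset.mem_range]
  constructor
  · exact fun h => h.2
  · intro h
    have h1 := Nat.ge_two_pow_of_testBit h
    have h2 : i < 2 ^ i := Nat.lt_two_pow_self
    exact ⟨by omega, h⟩

theorem sum_bits (X : ℕ) : ∑ i ∈ bits X, 2 ^ i = X := by
  apply Nat.eq_of_testBit_eq
  intro i
  rw [testBit_sum]
  by_cases h : X.testBit i = true
  · rw [h]; simpa using mem_bits.2 h
  · have h1 : i ∉ bits X := fun h2 => h (mem_bits.1 h2)
    simp only [h1, decide_false]
    simpa using (Bool.not_eq_true _ ▸ h : _ = false).symm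

theorem fold (X : ℕ) (hlt : ∀ i, X.testBit i = true → i % 61 < 60)
    (hinj : ∀ i j, X.testBit i = true → X.testBit j = true → i % 61 = j % 61 → i = j) (r : ℕ)
    (hr : (X % (2 ^ 61 - 1)).testBit r = true) : ∃ i, X.testBit i = true ∧ i % 61 = r := by
  have h1 : X % (2 ^ 61 - 1) = ∑ r ∈ (bits X).image (· % 61), 2 ^ r := by
    have h2 : ∑ r ∈ (bits X).image (· % 61), 2 ^ r = ∑ i ∈ bits X, 2 ^ (i % 61) := by
      apply Finset.sum_image
      intro a ha b hb hab
      exact hinj a b (mem_bits.1 ha) (mem_bits.1 hb) hab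
    have h3 : ∑ i ∈ bits X, 2 ^ (i % 61) ≡ X [MOD (2 ^ 61 - 1)] := by
      conv_rhs => rw [← sum_bits X]
      apply Nat.ModEq.sum
      intro i _
      conv_rhs => rw [← Nat.div_add_mod i 61, pow_add, pow_mul]
      have h4 : (2 : ℕ) ^ 61 ≡ 1 [MOD (2 ^ 61 - 1)] := by decide
      have h5 := (h4.pow (i / 61)).mul_right (2 ^ (i % 61))
      rw [one_pow, one_mul] at h5
      exact h5.symm
    have h6 : ∑ r ∈ (bits X).image (· % 61), 2 ^ r < 2 ^ 60 := by
      apply Nat.lt_pow_two_of_testBit
      intro j hj
      rw [testBit_sum]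
      simp only [decide_eq_false_iff_not, Finset.mem_image, not_exists, not_and]
      intro i hi hij
      have := hlt i (mem_bits.1 hi)
      omega
    rw [← h2] at h3
    have h7 : (∑ r ∈ (bits X).image (· % 61), 2 ^ r) % (2 ^ 61 - 1) =
        ∑ r ∈ (bits X).image (· % 61), 2 ^ r := Nat.mod_eq_of_lt (by omega)
    rw [← h7]
    exact h3.symm
  rw [h1, testBit_sum] at hr
  have h2 := of_decide_eq_true hr
  rw [Finset.mem_image] at h2
  obtain ⟨i, hi, h3⟩ := h2
  exact ⟨i, mem_bits.1 hi, h3⟩

/-! ## The masks -/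

/-- The place of input `j`. -/
def pos (m C j : ℕ) : ℕ := if j = 0 then 0 else if j ≤ m + 1 then C + j - 1 else j

theorem testBit_mIn {m j : ℕ} (h : (mIn m).testBit j = true) :
    (1 ≤ j ∧ j ≤ m + 1) ∨ j = 2 * m + 2 := by
  unfold mIn at h
  change ((((1 <<< (m + 1)) - 1) <<< 1) ||| (1 <<< (2 * m + 2))).testBit j = true at h
  rw [Nat.one_shiftLeft, Nat.one_shiftLeft, Nat.testBit_or, Nat.testBit_shiftLeft,
    Nat.testBit_two_pow_sub_one, Nat.testBit_two_pow] at h
  simp only [ge_iff_le, Bool.or_eq_true, Bool.and_eq_true, decide_eq_true_eq] at h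
  omega

theorem mIn_testBit {m j : ℕ} (h : (1 ≤ j ∧ j ≤ m + 1) ∨ j = 2 * m + 2) :
    (mIn m).testBit j = true := by
  unfold mIn
  change ((((1 <<< (m + 1)) - 1) <<< 1) ||| (1 <<< (2 * m + 2))).testBit j = true
  rw [Nat.one_shiftLeft, Nat.one_shiftLeft, Nat.testBit_or, Nat.testBit_shiftLeft,
    Nat.testBit_two_pow_sub_one, Nat.testBit_two_pow]
  simp only [ge_iff_le, Bool.or_eq_true, Bool.and_eq_true, decide_eq_true_eq]
  omega

theorem testBit_mWide {m C i : ℕ} (h : (mWide m C).testBit i = true) :
    ∃ j, (j = 0 ∨ (mIn m).testBit j = true) ∧ i = pos m C j := by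
  unfold mWide at h
  change (1 ||| ((((1 <<< (m + 1)) - 1) <<< C) ||| (1 <<< (2 * m + 2)))).testBit i = true at h
  rw [Nat.one_shiftLeft, Nat.one_shiftLeft, Nat.testBit_or, Nat.testBit_or, Nat.testBit_shiftLeft,
    Nat.testBit_two_pow_sub_one, Nat.testBit_two_pow] at h
  simp only [ge_iff_le, Bool.or_eq_true, Bool.and_eq_true, decide_eq_true_eq,
    Nat.testBit_one_eq_true_iff_self_eq_zero] at h
  rcases h with h | ⟨h1, h2⟩ | h
  · exact ⟨0, Or.inl rfl, by simp [pos, h]⟩
  · refine ⟨i - C + 1, Or.inr (mIn_testBit (Or.inl ⟨by omega, by omega⟩)), ?_⟩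
    unfold pos
    rw [if_neg (by omega), if_pos (by omega)]
    omega
  · refine ⟨2 * m + 2, Or.inr (mIn_testBit (Or.inr rfl)), ?_⟩
    unfold pos
    rw [if_neg (by omega), if_neg (by omega)]
    omega

theorem testBit_mVal {m C : ℕ} (hC : 2 * m + 3 ≤ C) : ∀ n p, (mVal m C n).testBit p = true →
    p / C < n ∧ p % C + (2 * m + 2) < C := by
  intro n
  induction n with
  | zero => intro p h; simp [mVal] at h
  | succ n ih =>
    intro p h
    change ((mVal m C n) <<< C ||| ((1 <<< (C - (2 * m + 2))) - 1)).testBit p = true at h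
    rw [Nat.one_shiftLeft, Nat.testBit_or, Nat.testBit_shiftLeft,
      Nat.testBit_two_pow_sub_one] at h
    simp only [ge_iff_le, Bool.or_eq_true, Bool.and_eq_true, decide_eq_true_eq] at h
    rcases h with ⟨h1, h2⟩ | h
    · obtain ⟨h3, h4⟩ := ih _ h2
      have h5 : p / C = (p - C) / C + 1 := by
        conv_lhs => rw [show p = (p - C) + C by omega]
        exact Nat.add_div_right _ (by omega)
      have h6 : p % C = (p - C) % C := by
        conv_lhs => rw [show p = (p - C) + C by omega]
        exact Nat.add_mod_right _ _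
      rw [h5, h6]
      exact ⟨by omega, h4⟩
    · have h5 : p / C = 0 := Nat.div_eq_of_lt (by omega)
      have h6 : p % C = p := Nat.mod_eq_of_lt (by omega)
      rw [h5, h6]
      omega

/-! ## The rule -/

/-- The inputs. -/
theorem rule_iff {m C p : ℕ} {y : ℕ → Bool} (h : Rule m C y p) :
    y p = true ↔ ((bits (mIn m)).filter fun j => y (p + pos m C j) = true).card = 1 := by
  unfold Rule at h
  rw [h]
  have hb : bits (mIn m) = insert (2 * m + 2) ((Finset.range (m + 1)).image (· + 1)) := by
    ext j
    rw [mem_bits, Finset.mem_insert, Finset.mem_image]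
    constructor
    · intro hj
      rcases testBit_mIn hj with h1 | h1
      · exact Or.inr ⟨j - 1, Finset.mem_range.2 (by omega), by omega⟩
      · exact Or.inl h1
    · rintro (h1 | ⟨a, ha, h1⟩)
      · exact mIn_testBit (Or.inr h1)
      · rw [Finset.mem_range] at ha
        exact mIn_testBit (Or.inl (by omega))
  have hcard : ((bits (mIn m)).filter fun j => y (p + pos m C j) = true).card =
      (∑ j ∈ Finset.range (m + 1), (y (p + C + j)).toNat) + (y (p + (2 * m + 2))).toNat := by
    rw [Finset.card_filter, hb, Finset.sum_insert, Finset.sum_image, Nat.add_comm]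
    · congr 1
      · apply Finset.sum_congr rfl
        intro j hj
        rw [Finset.mem_range] at hj
        have h1 : p + pos m C (j + 1) = p + C + j := by
          unfold pos
          rw [if_neg (by omega), if_pos (by omega)]
          omega
        rw [h1]
        cases y (p + C + j) <;> rfl
      · have h1 : pos m C (2 * m + 2) = 2 * m + 2 := by
          unfold pos
          rw [if_neg (by omega), if_neg (by omega)]
        rw [h1]
        cases y (p + (2 * m + 2)) <;> rfl
    · intro a _ b _ hab
      simpa using hab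
    · intro h1
      rw [Finset.mem_image] at h1
      obtain ⟨a, ha, h1⟩ := h1
      rw [Finset.mem_range] at ha
      omega
  rw [hcard]

theorem testBit_wide {m C U i : ℕ} (hU : ∀ j, U.testBit j = true → (mIn m).testBit j = true)
    (hC : 1 ≤ C) (h : (wide C (2 * m + 2) U).testBit i = true) :
    ∃ j, U.testBit j = true ∧ i = pos m C j := by
  unfold wide at h
  change ((U &&& (1 <<< (2 * m + 2))) |||
    ((U &&& ((1 <<< (2 * m + 2)) - 1)) <<< (C - 1))).testBit i = true at h
  rw [Nat.one_shiftLeft, Nat.testBit_or, Nat.testBit_shiftLeft, Nat.testBit_and, Nat.testBit_and,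
    Nat.testBit_two_pow_sub_one, Nat.testBit_two_pow] at h
  simp only [ge_iff_le, Bool.or_eq_true, Bool.and_eq_true, decide_eq_true_eq] at h
  rcases h with ⟨h1, h2⟩ | ⟨h1, h2, h3⟩
  · refine ⟨i, h1, ?_⟩
    unfold pos
    rw [if_neg (by omega), if_neg (by omega)]
  · refine ⟨i - (C - 1), h2, ?_⟩
    rcases testBit_mIn (hU _ h2) with h4 | h4
    · unfold pos
      rw [if_neg (by omega), if_pos (by omega)]
      omega
    · omega

theorem inv_wide {W m C p U : ℕ} {y : ℕ → Bool}
    (hU : ∀ j, U.testBit j = true → (mIn m).testBit j = true) (hC : 1 ≤ C)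
    (hW : ∀ j, (mIn m).testBit j = true → p + pos m C j < W)
    (h : ∀ j, U.testBit j = true → y (p + pos m C j) = true) :
    Inv W y ((wide C (2 * m + 2) U) <<< p) := by
  intro i hi
  rw [Nat.testBit_shiftLeft, Bool.and_eq_true] at hi
  obtain ⟨j, hj, h1⟩ := testBit_wide hU hC hi.2
  have h2 : p ≤ i := by simpa using hi.1
  have h3 : i = p + pos m C j := by omega
  rw [h3]
  have h4 := hW j (hU j hj)
  exact ⟨fun _ => h j hj, fun h5 => by omega⟩

theorem inv_wide' {W m C p U : ℕ} {y : ℕ → Bool}
    (hU : ∀ j, U.testBit j = true → (mIn m).testBit j = true) (hC : 1 ≤ C)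
    (h : ∀ j, U.testBit j = true → y (p + pos m C j) = false) :
    Inv W y (((wide C (2 * m + 2) U) <<< W) <<< p) := by
  intro i hi
  rw [Nat.testBit_shiftLeft, Nat.testBit_shiftLeft, Bool.and_eq_true, Bool.and_eq_true] at hi
  obtain ⟨j, hj, h1⟩ := testBit_wide hU hC hi.2.2
  have h2 : p ≤ i := by simpa using hi.1
  have h3 : W ≤ i - p := by simpa using hi.2.1
  have h4 : i - W = p + pos m C j := by omega
  refine ⟨fun h5 => by omega, fun _ _ => ?_⟩
  rw [h4]
  exact h j hj

theorem inv_one {W p : ℕ} {y : ℕ → Bool} (hp : p < W) (h : y p = true) : Inv W y (1 <<< p) := by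
  intro i hi
  rw [Nat.one_shiftLeft, Nat.testBit_two_pow] at hi
  have : p = i := of_decide_eq_true hi
  subst this
  exact ⟨fun _ => h, fun h1 => by omega⟩

theorem inv_one' {W p : ℕ} {y : ℕ → Bool} (h : y p = false) : Inv W y ((1 <<< W) <<< p) := by
  intro i hi
  rw [← Nat.shiftLeft_add, Nat.one_shiftLeft, Nat.testBit_two_pow] at hi
  have : W + p = i := of_decide_eq_true hi
  subst this
  refine ⟨fun h1 => by omega, fun _ _ => ?_⟩
  rw [Nat.add_sub_cancel_left]
  exact h

theorem g_ok {W m C p H : ℕ} {y : ℕ → Bool} (hC : 1 ≤ C) (hr : Rule m C y p) (hp : p < W)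
    (hW : ∀ j, (mIn m).testBit j = true → p + pos m C j < W)
    (h0 : H.testBit 0 = true → y p = true) (h20 : H.testBit 20 = true → y p = false)
    (h1 : ∀ j, (mIn m).testBit j = true → H.testBit j = true → y (p + pos m C j) = true)
    (h2 : ∀ j, (mIn m).testBit j = true → H.testBit (20 + j) = true → y (p + pos m C j) = false) :
    Inv W y ((g (2 * m + 2) C W (mIn m) H) <<< p) := by
  obtain ⟨A, hA⟩ : ∃ A, A = Nat.land H (mIn m) := ⟨_, rfl⟩
  obtain ⟨B, hB⟩ : ∃ B, B = Nat.land (Nat.shiftRight H 20) (mIn m) := ⟨_, rfl⟩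
  obtain ⟨U, hU⟩ : ∃ U, U = Nat.xor (mIn m) (Nat.lor A B) := ⟨_, rfl⟩
  have hAt : ∀ j, A.testBit j = (H.testBit j && (mIn m).testBit j) := fun j => by
    rw [hA]; exact Nat.testBit_and _ _ _
  have hBt : ∀ j, B.testBit j = (H.testBit (20 + j) && (mIn m).testBit j) := fun j => by
    rw [hB]
    change ((H >>> 20) &&& mIn m).testBit j = _
    rw [Nat.testBit_and, Nat.testBit_shiftRight]
  have hUt : ∀ j, U.testBit j = (Bool.xor ((mIn m).testBit j) (A.testBit j || B.testBit j)) :=
    fun j => by
      rw [hU]
      change (mIn m ^^^ (A ||| B)).testBit j = _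
      rw [Nat.testBit_xor, Nat.testBit_or]
  have hUM : ∀ j, U.testBit j = true → (mIn m).testBit j = true := by
    intro j hj
    rw [hUt, hAt, hBt] at hj
    revert hj
    cases (mIn m).testBit j <;> simp
  have hA1 : ∀ j, A.testBit j = true → (mIn m).testBit j = true ∧ y (p + pos m C j) = true := by
    intro j hj
    rw [hAt, Bool.and_eq_true] at hj
    exact ⟨hj.2, h1 j hj.2 hj.1⟩
  have hB1 : ∀ j, B.testBit j = true → y (p + pos m C j) = false := by
    intro j hj
    rw [hBt, Bool.and_eq_true] at hj
    exact h2 j hj.2 hj.1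
  have hcov : ∀ j, (mIn m).testBit j = true → y (p + pos m C j) = true →
      A.testBit j = true ∨ U.testBit j = true := by
    intro j hj hy
    cases ha : A.testBit j with
    | true => exact Or.inl rfl
    | false =>
      cases hb : B.testBit j with
      | true => rw [hB1 j hb] at hy; exact absurd hy (by decide)
      | false => right; rw [hUt, hj, ha, hb]; rfl
  have hru := rule_iff hr
  rw [Finset.card_eq_one] at hru
  have hone : (∃ j, (mIn m).testBit j = true ∧ y (p + pos m C j) = true ∧
      ∀ i, (mIn m).testBit i = true → y (p + pos m C i) = true → i = j) → y p = true := by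
    rintro ⟨j, hj, hy, hi⟩
    rw [hru]
    refine ⟨j, ?_⟩
    ext i
    rw [Finset.mem_filter, Finset.mem_singleton, mem_bits]
    exact ⟨fun h => hi i h.1 h.2, fun h => by rw [h]; exact ⟨hj, hy⟩⟩
  have hun : y p = true → ∃ j, (mIn m).testBit j = true ∧ y (p + pos m C j) = true ∧
      ∀ i, (mIn m).testBit i = true → y (p + pos m C i) = true → i = j := by
    intro hy
    obtain ⟨j, hj⟩ := hru.1 hy
    have h3 : ∀ i, ((mIn m).testBit i = true ∧ y (p + pos m C i) = true) ↔ i = j := by
      intro i
      rw [← Finset.mem_singleton (a := j) (b := i), ← hj, Finset.mem_filter, mem_bits]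
    exact ⟨j, ((h3 j).2 rfl).1, ((h3 j).2 rfl).2, fun i h4 h5 => (h3 i).1 ⟨h4, h5⟩⟩
  have hbe : ∀ {x : ℕ}, Nat.beq x 0 = true → x = 0 := fun h => Nat.eq_of_beq_eq_true h
  have hbn : ∀ {x : ℕ}, Nat.beq x 0 = false → x ≠ 0 := fun h => Nat.ne_of_beq_eq_false h
  unfold g
  simp only [← hA, ← hB, ← hU]
  cases e1 : Nat.beq (Nat.land A (Nat.sub A 1)) 0 with
  | false =>
    simp only
    apply inv_one'
    by_contra hcon
    obtain ⟨j, _, _, h3⟩ := hun (by simpa using hcon)
    obtain ⟨a, b, hab, ha, hb⟩ := two_bits (R := A) (hbn e1)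
    exact hab ((h3 a (hA1 a ha).1 (hA1 a ha).2).trans (h3 b (hA1 b hb).1 (hA1 b hb).2).symm)
  | true =>
    have hAs : ∀ i j, A.testBit i = true → A.testBit j = true → i = j :=
      fun i j hi hj => single (hbe e1) hi hj
    simp only
    cases e2 : Nat.beq U 0 with
    | true =>
      simp only
      have hU0 : ∀ j, U.testBit j = false := by
        intro j; rw [hbe e2]; exact Nat.zero_testBit j
      cases e3 : Nat.beq A 0 with
      | true =>
        simp only
        apply inv_one'
        by_contra hcon
        obtain ⟨j, h3, h4, _⟩ := hun (by simpa using hcon)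
        rcases hcov j h3 h4 with h5 | h5
        · rw [hbe e3, Nat.zero_testBit] at h5; exact absurd h5 (by decide)
        · rw [hU0] at h5; exact absurd h5 (by decide)
      | false =>
        simp only
        apply inv_one hp
        obtain ⟨a, ha⟩ := Nat.exists_testBit_of_ne_zero (hbn e3)
        refine hone ⟨a, (hA1 a ha).1, (hA1 a ha).2, fun i hi hy => ?_⟩
        rcases hcov i hi hy with h5 | h5
        · exact hAs _ _ h5 ha
        · rw [hU0] at h5; exact absurd h5 (by decide)
    | false =>
      simp only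
      obtain ⟨v, hv⟩ := Nat.exists_testBit_of_ne_zero (hbn e2)
      have hvA : A.testBit v = false := by
        have h3 := hv
        rw [hUt, hUM v hv] at h3
        revert h3
        cases A.testBit v <;> simp
      cases e3 : Nat.beq (Nat.land H 1) 1 with
      | true =>
        simp only
        have hy : y p = true := by
          apply h0
          have h3 : H &&& 1 = 1 := Nat.eq_of_beq_eq_true e3
          rw [Nat.testBit_zero]
          rw [Nat.and_one_is_mod] at h3
          simp [h3]
        obtain ⟨j, h3, h4, h5⟩ := hun hy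
        cases e4 : Nat.beq A 0 with
        | false =>
          simp only
          apply inv_wide' hUM hC
          intro i hi
          by_contra hcon
          obtain ⟨a, ha⟩ := Nat.exists_testBit_of_ne_zero (hbn e4)
          have h6 := h5 i (hUM i hi) (by simpa using hcon)
          have h7 := h5 a (hA1 a ha).1 (hA1 a ha).2
          have h8 := hi
          rw [hUt, hUM i hi, h6, ← h7, ha] at h8
          exact absurd h8 (by simp)
        | true =>
          simp only
          cases e5 : Nat.beq (Nat.land U (Nat.sub U 1)) 0 with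
          | false => simp only; intro i hi; simp at hi
          | true =>
            simp only
            apply inv_wide hUM hC hW
            intro i hi
            rcases hcov j h3 h4 with h6 | h6
            · rw [hbe e4, Nat.zero_testBit] at h6; exact absurd h6 (by decide)
            · rw [single (hbe e5) hi h6]; exact h4
      | false =>
        simp only
        cases e4 : Nat.beq (Nat.land (Nat.shiftRight H 20) 1) 1 with
        | false => simp only; intro i hi; simp at hi
        | true =>
          simp only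
          have hy : y p = false := by
            apply h20
            have h3 : (H >>> 20) &&& 1 = 1 := Nat.eq_of_beq_eq_true e4
            have h4 : (H >>> 20).testBit 0 = true := by
              rw [Nat.testBit_zero]
              rw [Nat.and_one_is_mod] at h3
              simp [h3]
            rw [Nat.testBit_shiftRight] at h4
            exact h4
          cases e5 : Nat.beq (Nat.land U (Nat.sub U 1)) 0 with
          | false => simp only; intro i hi; simp at hi
          | true =>
            simp only
            cases e6 : Nat.beq A 0 with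
            | true =>
              simp only
              apply inv_wide' hUM hC
              intro i hi
              by_contra hcon
              have hyi : y (p + pos m C i) = true := by simpa using hcon
              have h3 := hone ⟨i, hUM i hi, hyi, fun a ha hya => by
                rcases hcov a ha hya with h6 | h6
                · rw [hbe e6, Nat.zero_testBit] at h6; exact absurd h6 (by decide)
                · exact single (hbe e5) h6 hi⟩
              rw [hy] at h3
              exact absurd h3 (by decide)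
            | false =>
              simp only
              apply inv_wide hUM hC hW
              intro i hi
              by_contra hcon
              have hyi : y (p + pos m C i) = false := by simpa using hcon
              obtain ⟨a, ha⟩ := Nat.exists_testBit_of_ne_zero (hbn e6)
              have h3 := hone ⟨a, (hA1 a ha).1, (hA1 a ha).2, fun b hb hyb => by
                rcases hcov b hb hyb with h6 | h6
                · exact hAs _ _ h6 ha
                · rw [single (hbe e5) h6 hi, hyi] at hyb
                  exact absurd hyb (by decide)⟩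
              rw [hy] at h3
              exact absurd h3 (by decide)

/-! ## The parameters -/

structure Par (m C n W M MM Q V : ℕ) : Prop where
  m1 : 1 ≤ m
  m8 : m ≤ 8
  hC : 2 * m + 3 ≤ C
  C61 : C % 61 = 1
  W61 : W % 61 = 20
  hW : (n + 1) * C ≤ W
  hQ : Q = 2 ^ 61 - 1
  hM : M = mIn m
  hMM : MM = Nat.lor (mWide m C) (Nat.shiftLeft (mWide m C) W)
  hV : V = mVal m C n

theorem par_of {m C n W M MM Q V : ℕ} (h : parOk m C n W M MM Q V = true) :
    Par m C n W M MM Q V := by
  unfold parOk at h
  simp only [Bool.and_eq_true] at h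
  obtain ⟨⟨⟨⟨⟨⟨⟨⟨⟨h1, h2⟩, h3⟩, h4⟩, h5⟩, h6⟩, h7⟩, h8⟩, h9⟩, h10⟩ := h
  exact ⟨Nat.le_of_ble_eq_true h1, Nat.le_of_ble_eq_true h2, Nat.le_of_ble_eq_true h3,
    Nat.eq_of_beq_eq_true h4, Nat.eq_of_beq_eq_true h5, Nat.le_of_ble_eq_true h6,
    Nat.eq_of_beq_eq_true h7, Nat.eq_of_beq_eq_true h8, Nat.eq_of_beq_eq_true h9,
    Nat.eq_of_beq_eq_true h10⟩

section
variable {m C n W M MM Q V : ℕ} {y : ℕ → Bool}

theorem pos_mod (P : Par m C n W M MM Q V) {j : ℕ} (hj : j = 0 ∨ (mIn m).testBit j = true) :
    pos m C j % 61 = j ∧ j ≤ 18 ∧ pos m C j ≤ C + m := by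
  have h1 := P.m1
  have h2 := P.m8
  have h3 := P.hC
  have h4 := P.C61
  rcases hj with hj | hj
  · subst hj; simp [pos]
  · rcases testBit_mIn hj with h5 | h5
    · unfold pos
      rw [if_neg (by omega), if_pos (by omega)]
      omega
    · unfold pos
      rw [if_neg (by omega), if_neg (by omega)]
      omega

theorem mm_bits (P : Par m C n W M MM Q V) {i : ℕ} (h : MM.testBit i = true) :
    ∃ j, (j = 0 ∨ (mIn m).testBit j = true) ∧
      ((i = pos m C j ∧ i % 61 = j) ∨ (i = W + pos m C j ∧ i % 61 = 20 + j)) := by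
  have hW := P.W61
  rw [P.hMM] at h
  change (mWide m C ||| (mWide m C) <<< W).testBit i = true at h
  rw [Nat.testBit_or, Nat.testBit_shiftLeft] at h
  simp only [ge_iff_le, Bool.or_eq_true, Bool.and_eq_true, decide_eq_true_eq] at h
  rcases h with h | ⟨h1, h⟩
  · obtain ⟨j, hj, h2⟩ := testBit_mWide h
    have h3 := pos_mod P hj
    exact ⟨j, hj, Or.inl ⟨h2, by rw [h2]; exact h3.1⟩⟩
  · obtain ⟨j, hj, h2⟩ := testBit_mWide h
    have h3 := pos_mod P hj
    exact ⟨j, hj, Or.inr ⟨by omega, by omega⟩⟩

theorem rl_ok (P : Par m C n W M MM Q V)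
    (hy : ∀ p, p / C < n → p % C + (2 * m + 2) < C → Rule m C y p) {S p : ℕ} {k : ℕ → Bool}
    (hS : Inv W y S) (h : rl (2 * m + 2) C W M MM Q V S p k = true) :
    ∃ S', Inv W y S' ∧ k S' = true := by
  unfold rl at h
  cases e1 : Nat.beq (Nat.land (Nat.shiftRight V p) 1) 1 with
  | false => rw [e1] at h; exact ⟨S, hS, h⟩
  | true =>
    rw [e1] at h
    have hV : (mVal m C n).testBit p = true := by
      have h3 : (V >>> p) &&& 1 = 1 := Nat.eq_of_beq_eq_true e1
      rw [← P.hV]
      have h4 : (V >>> p).testBit 0 = true := by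
        rw [Nat.testBit_zero]
        rw [Nat.and_one_is_mod] at h3
        simp [h3]
      rw [Nat.testBit_shiftRight] at h4
      exact h4
    obtain ⟨hp1, hp2⟩ := testBit_mVal P.hC n p hV
    have hr := hy p hp1 hp2
    have hC0 : 0 < C := by have := P.hC; omega
    have hpW : p + C + m < W := by
      have h5 := Nat.div_add_mod p C
      have h6 : C * (p / C) + C ≤ n * C := by
        have h7 : C * (p / C) + C = (p / C + 1) * C := by ring
        rw [h7]
        exact Nat.mul_le_mul_right C hp1
      have h8 := P.hW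
      rw [Nat.add_mul, Nat.one_mul] at h8
      omega
    rcases eH : Nat.mod (Nat.land (Nat.shiftRight S p) MM) Q with _ | H
    · rw [eH] at h; exact ⟨S, hS, h⟩
    · rw [eH] at h
      simp only at h
      refine ⟨_, ?_, h⟩
      change Inv W y (S ||| ((g (2 * m + 2) C W M (Nat.succ H)) <<< p))
      rw [inv_or]
      refine ⟨hS, ?_⟩
      rw [P.hM]
      have hX : ((S >>> p) &&& MM) % (2 ^ 61 - 1) = H + 1 := by
        rw [← P.hQ]; exact eH
      have hXb : ∀ i, ((S >>> p) &&& MM).testBit i = true →
          S.testBit (p + i) = true ∧ MM.testBit i = true := by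
        intro i hi
        rw [Nat.testBit_and, Nat.testBit_shiftRight, Bool.and_eq_true] at hi
        exact hi
      have hfold : ∀ r, (H + 1).testBit r = true →
          ∃ i, (S.testBit (p + i) = true ∧ MM.testBit i = true) ∧ i % 61 = r := by
        intro r hr
        rw [← hX] at hr
        obtain ⟨i, hi, hir⟩ := fold ((S >>> p) &&& MM) (fun i hi => by
            obtain ⟨j, hj, h3⟩ := mm_bits P (hXb i hi).2
            have h4 := (pos_mod P hj).2.1
            omega) (fun i i' hi hi' hii => by
            obtain ⟨j, hj, h3⟩ := mm_bits P (hXb i hi).2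
            obtain ⟨j', hj', h3'⟩ := mm_bits P (hXb i' hi').2
            have h4 := (pos_mod P hj).2.1
            have h4' := (pos_mod P hj').2.1
            rcases h3 with h3 | h3 <;> rcases h3' with h3' | h3'
            · have : j = j' := by omega
              subst this; omega
            · omega
            · omega
            · have : j = j' := by omega
              subst this; omega) r hr
        exact ⟨i, hXb i hi, hir⟩
      have hone : ∀ j, (j = 0 ∨ (mIn m).testBit j = true) → (H + 1).testBit j = true →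
          y (p + pos m C j) = true := by
        intro j hj hb
        obtain ⟨i, ⟨hi1, hi2⟩, hi3⟩ := hfold j hb
        obtain ⟨j', hj', h3⟩ := mm_bits P hi2
        have h4 := pos_mod P hj
        have h4' := pos_mod P hj'
        rcases h3 with h3 | h3
        · have : j = j' := by omega
          subst this
          rw [h3.1] at hi1
          exact (hS _ hi1).1 (by omega)
        · omega
      have hzero : ∀ j, (j = 0 ∨ (mIn m).testBit j = true) → (H + 1).testBit (20 + j) = true →
          y (p + pos m C j) = false := by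
        intro j hj hb
        obtain ⟨i, ⟨hi1, hi2⟩, hi3⟩ := hfold _ hb
        obtain ⟨j', hj', h3⟩ := mm_bits P hi2
        have h4 := pos_mod P hj
        have h4' := pos_mod P hj'
        rcases h3 with h3 | h3
        · omega
        · have : j = j' := by omega
          subst this
          rw [h3.1] at hi1
          have h5 := (hS _ hi1).2 (by omega) (by omega)
          rw [show p + (W + pos m C j) - W = p + pos m C j by omega] at h5
          exact h5
      have hp0 : pos m C 0 = 0 := rfl
      apply g_ok (by omega) hr (by omega)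
      · intro j hj
        have := pos_mod P (Or.inr hj)
        omega
      · intro hb
        have := hone 0 (Or.inl rfl) hb
        rwa [hp0, Nat.add_zero] at this
      · intro hb
        have := hzero 0 (Or.inl rfl) hb
        rwa [hp0, Nat.add_zero] at this
      · exact fun j hj hb => hone j (Or.inr hj) hb
      · exact fun j hj hb => hzero j (Or.inr hj) hb

theorem hints_ok (P : Par m C n W M MM Q V)
    (hy : ∀ p, p / C < n → p % C + (2 * m + 2) < C → Rule m C y p) {T : Tr}
    (hT : AllV W y T) (t : ℕ) : ∀ x S, Inv W y S →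
      hints (2 * m + 2) C W M MM Q V T t x S = true → False := by
  induction t with
  | zero =>
    intro x S hS h
    change Bool.rec (motive := fun _ => Bool) true false
      (Nat.beq (Nat.mod (Nat.land S (Nat.shiftRight S W)) (Nat.shiftLeft 1 W)) 0) = true at h
    cases e1 : Nat.beq (Nat.mod (Nat.land S (Nat.shiftRight S W)) (Nat.shiftLeft 1 W)) 0 with
    | true => rw [e1] at h; exact absurd h (by decide)
    | false =>
      have h1 : (S &&& (S >>> W)) % (1 <<< W) ≠ 0 := Nat.ne_of_beq_eq_false e1
      obtain ⟨i, hi⟩ := Nat.exists_testBit_of_ne_zero h1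
      rw [Nat.one_shiftLeft, Nat.testBit_mod_two_pow, Nat.testBit_and,
        Nat.testBit_shiftRight] at hi
      simp only [Bool.and_eq_true, decide_eq_true_eq] at hi
      have h2 := (hS _ hi.2.1).1 hi.1
      have h3 := (hS _ hi.2.2).2 (by omega) (by omega)
      rw [Nat.add_sub_cancel_left, h2] at h3
      exact absurd h3 (by decide)
  | succ t ih =>
    intro x S hS h
    change Bool.rec (motive := fun _ => Bool)
        (look T (Nat.land (Nat.shiftRight x 1) 32767)
          fun L => clau W L S fun S' =>
            hints (2 * m + 2) C W M MM Q V T t (Nat.shiftRight x 16) S')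
        (Nat.rec (motive := fun _ => Bool)
          (hints (2 * m + 2) C W M MM Q V T t (Nat.shiftRight x 16) S)
          (fun p _ => rl (2 * m + 2) C W M MM Q V S (Nat.succ p) fun S' =>
            hints (2 * m + 2) C W M MM Q V T t (Nat.shiftRight x 16) S')
          (Nat.land (Nat.shiftRight x 1) 32767))
        (Nat.beq (Nat.land x 1) 0) = true at h
    cases e1 : Nat.beq (Nat.land x 1) 0 with
    | false =>
      rw [e1] at h
      obtain ⟨L, hL, h1⟩ := look_ok T _ hT h
      obtain ⟨S', hS', h2⟩ := clau_ok hS hL h1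
      exact ih _ _ hS' h2
    | true =>
      rw [e1] at h
      rcases e2 : Nat.land (Nat.shiftRight x 1) 32767 with _ | p
      · rw [e2] at h
        exact ih _ _ hS h
      · rw [e2] at h
        obtain ⟨S', hS', h2⟩ := rl_ok P hy hS h
        exact ih _ _ hS' h2

theorem lits_ok {k : ℕ → ℕ → Bool} (t : ℕ) : ∀ x L, lits k t x L = true →
    ∃ x' L', k x' L' = true := by
  induction t with
  | zero => intro x L h; exact ⟨x, L, h⟩
  | succ t ih => intro x L h; exact ih _ _ h

theorem steps_ok (P : Par m C n W M MM Q V)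
    (hy : ∀ p, p / C < n → p % C + (2 * m + 2) < C → Rule m C y p) {k : Tr → ℕ → Bool} (t : ℕ) :
    ∀ s T S, AllV W y T → Inv W y S → steps (2 * m + 2) C W M MM Q V k t s T S = true →
      ∃ T' S', AllV W y T' ∧ Inv W y S' ∧ k T' S' = true := by
  induction t with
  | zero => intro s T S hT hS h; exact ⟨T, S, hT, hS, h⟩
  | succ t ih =>
    intro s T S hT hS h
    obtain ⟨nl, hnl⟩ : ∃ nl, nl = Nat.land s 65535 := ⟨_, rfl⟩
    obtain ⟨nh, hnh⟩ : ∃ nh, nh = Nat.land (Nat.shiftRight s 16) 65535 := ⟨_, rfl⟩
    obtain ⟨len, hlen⟩ : ∃ len, len = Nat.shiftLeft (Nat.add nl nh) 4 := ⟨_, rfl⟩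
    have h' : lits (fun x L =>
            Bool.rec (motive := fun _ => Bool)
              false
              (Bool.rec (motive := fun _ => Bool)
                (ins L T (Nat.land (Nat.shiftRight s 32) 65535) fun T' =>
                  steps (2 * m + 2) C W M MM Q V k t (Nat.shiftRight s (Nat.add 48 len)) T' S)
                (clau W L S fun S' =>
                  steps (2 * m + 2) C W M MM Q V k t (Nat.shiftRight s (Nat.add 48 len)) T S')
                (Nat.ble nl 1))
              (hints (2 * m + 2) C W M MM Q V T nh x (Nat.lor S L)))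
            nl (Nat.land (Nat.shiftRight s 48) (Nat.sub (Nat.shiftLeft 1 len) 1)) 0 = true := by
      rw [hlen, hnh, hnl]
      exact h
    obtain ⟨x, L, h1⟩ := lits_ok _ _ _ h'
    cases e1 : hints (2 * m + 2) C W M MM Q V T nh x (Nat.lor S L) with
    | false => rw [e1] at h1; exact absurd h1 (by simp)
    | true =>
      rw [e1] at h1
      have hL : ¬ Inv W y L := by
        intro hL
        exact hints_ok P hy hT nh x (S ||| L) (inv_or.2 ⟨hS, hL⟩) e1
      cases e2 : Nat.ble nl 1 with
      | false =>
        rw [e2] at h1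
        obtain ⟨T', hT', h2⟩ := ins_ok hL T _ _ hT h1
        exact ih _ _ _ hT' hS h2
      | true =>
        rw [e2] at h1
        obtain ⟨S', hS', h2⟩ := clau_ok hS hL h1
        exact ih _ _ _ hT hS' h2

theorem chunks_ok (P : Par m C n W M MM Q V)
    (hy : ∀ p, p / C < n → p % C + (2 * m + 2) < C → Rule m C y p) (D : List ℕ) :
    ∀ T S, AllV W y T → Inv W y S → chunks (2 * m + 2) C W M MM Q V D T S = true → False := by
  induction D with
  | nil => intro T S _ _ h; exact absurd h (by simp [chunks])
  | cons s D ih =>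
    intro T S hT hS h
    have h' : steps (2 * m + 2) C W M MM Q V
        (fun T' S' => chunks (2 * m + 2) C W M MM Q V D T' S') (Nat.land s 65535)
        (Nat.shiftRight s 16) T S = true := h
    obtain ⟨T', S', hT', hS', h1⟩ := steps_ok P hy _ _ _ _ hT hS h'
    exact ih T' S' hT' hS' h1

end

end Ru

open Ru in
theorem refute (m C n W M MM Q V : ℕ) (h : parOk m C n W M MM Q V = true) (D : List ℕ) (Z G : ℕ)
    (hD : chunks (2 * m + 2) C W M MM Q V D
      (Tr.n (Nat.shiftLeft G W) Tr.e Tr.e Tr.e Tr.e) (Nat.shiftLeft Z W) = true)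
    (y : ℕ → Bool) (hy : ∀ p, p / C < n → p % C + (2 * m + 2) < C → Rule m C y p)
    (hZ : ∀ p, Z.testBit p = true → y p = false) (p : ℕ) (hp : p < (n + 1) * C)
    (hG : G.testBit p = true) : y p = false := by
  have P := par_of h
  have hW := P.hW
  by_contra hcon
  have hT : AllV W y (Tr.n (Nat.shiftLeft G W) Tr.e Tr.e Tr.e Tr.e) ↔
      ¬ Inv W y (G <<< W) ∧ True ∧ True ∧ True ∧ True := Iff.rfl
  refine chunks_ok P hy D _ _ (hT.2 ⟨?_, trivial, trivial, trivial, trivial⟩) ?_ hD
  · intro hI
    have h1 : (G <<< W).testBit (W + p) = true := by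
      rw [Nat.testBit_shiftLeft, Nat.add_sub_cancel_left, hG]
      simp
    have h2 := (hI _ h1).2 (by omega) (by omega)
    rw [Nat.add_sub_cancel_left] at h2
    exact hcon h2
  · intro i hi
    change (Z <<< W).testBit i = true at hi
    rw [Nat.testBit_shiftLeft, Bool.and_eq_true] at hi
    have h1 : W ≤ i := by simpa using hi.1
    exact ⟨fun h2 => by omega, fun _ _ => hZ _ hi.2⟩

end Pool.Agent.H65.CF
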